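import Mathlib

set_option autoImplicit false

/-!
Integrals `∫ F(x) / x^(n+1)` of integer polynomials as linear forms in `1` and a logarithm.
-/

namespace Pool.Agent.H319R2

open Polynomial Finset MeasureTheory intervalIntegral

/-- the rational part -/
noncomputable def ratPart (F : ℤ[X]) (n : ℕ) (t : ℝ) : ℝ :=
  ∑ j ∈ (range (F.natDegree + 1)).erase n, (F.coeff j : ℝ) * (t ^ ((j : ℤ) - n) / ((j : ℝ) - n))

theorem eval_div (F : ℤ[X]) (n : ℕ) {x : ℝ} (hx : 0 < x) :
    (F.map (Int.castRingHom ℝ)).eval x / x ^ (n + 1) =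
      ∑ j ∈ range (F.natDegree + 1), (F.coeff j : ℝ) * x ^ ((j : ℤ) - n - 1) := by
  rw [Polynomial.eval_eq_sum_range' (n := F.natDegree + 1)
    (by exact Nat.lt_succ_of_le (Polynomial.natDegree_map_le))]
  rw [sum_div]
  apply sum_congr rfl
  intro j _
  rw [Polynomial.coeff_map, mul_div_assoc]
  congr 1
  rw [← zpow_natCast, ← zpow_natCast, ← zpow_sub₀ hx.ne']
  congr 1
  push_cast; ring

theorem integral_formula (F : ℤ[X]) (n : ℕ) (hn : n ≤ F.natDegree) {s t : ℝ} (hs : 0 < s)
    (ht : 0 < t) :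
    ∫ x in s..t, (F.map (Int.castRingHom ℝ)).eval x / x ^ (n + 1) =
      (F.coeff n : ℝ) * Real.log (t / s) + (ratPart F n t - ratPart F n s) := by
  have h0 : ∀ x ∈ Set.uIcc s t, 0 < x := by
    intro x hx
    rcases Set.mem_uIcc.1 hx with h | h
    · linarith [h.1]
    · linarith [h.1]
  have e1 : ∫ x in s..t, (F.map (Int.castRingHom ℝ)).eval x / x ^ (n + 1) =
      ∫ x in s..t, ∑ j ∈ range (F.natDegree + 1), (F.coeff j : ℝ) * x ^ ((j : ℤ) - n - 1) := by
    apply intervalIntegral.integral_congr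
    intro x hx
    exact eval_div F n (h0 x hx)
  have hint : ∀ j : ℤ, IntervalIntegrable (fun x : ℝ => x ^ (j - n - 1)) volume s t := by
    intro j
    apply ContinuousOn.intervalIntegrable
    intro x hx
    exact (continuousAt_zpow₀ x _ (Or.inl (h0 x hx).ne')).continuousWithinAt
  rw [e1, intervalIntegral.integral_finsetSum]
  swap
  · intro j _
    exact (hint j).const_mul _
  rw [← add_sum_erase _ _ (mem_range.2 (Nat.lt_succ_of_le hn))]
  have e2 : ∫ x in s..t, (F.coeff n : ℝ) * x ^ ((n : ℤ) - n - 1) =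
      (F.coeff n : ℝ) * Real.log (t / s) := by
    rw [intervalIntegral.integral_const_mul]
    congr 1
    rw [show ((n : ℤ) - n - 1) = -1 by ring]
    simp only [zpow_neg_one]
    rw [integral_inv]
    intro h
    exact lt_irrefl _ (h0 0 h)
  rw [e2]
  congr 1
  unfold ratPart
  rw [← sum_sub_distrib]
  apply sum_congr rfl
  intro j hj
  rw [mem_erase] at hj
  have hjn : (j : ℤ) - n - 1 ≠ -1 := by
    intro h
    apply hj.1
    omega
  rw [intervalIntegral.integral_const_mul, integral_zpow]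
  · rw [← mul_sub]
    congr 1
    rw [show (j : ℤ) - n - 1 + 1 = (j : ℤ) - n by ring]
    push_cast
    rw [show ((j : ℝ) - n - 1 + 1) = (j : ℝ) - n by ring]
    ring
  · right
    exact ⟨hjn, fun h => lt_irrefl _ (h0 0 h)⟩

/-- integrality of the rational part -/
theorem ratPart_int (F : ℤ[X]) (n : ℕ) (t : ℤ) (ht : t ≠ 0) (D : ℤ)
    (hdiv : ∀ j, j < n → t ^ n ∣ F.coeff j * t ^ j)
    (hD : ∀ j : ℕ, j ≤ F.natDegree → j ≠ n → ((j : ℤ) - n) ∣ D) :
    ∃ z : ℤ, (D : ℝ) * ratPart F n t = z := by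
  have key : ∀ j ∈ (range (F.natDegree + 1)).erase n, ∃ z : ℤ,
      (D : ℝ) * ((F.coeff j : ℝ) * ((t : ℝ) ^ ((j : ℤ) - n) / ((j : ℝ) - n))) = z := by
    intro j hj
    rw [mem_erase, mem_range] at hj
    obtain ⟨d, hd⟩ := hD j (by omega) hj.1
    have hjn : ((j : ℝ) - n) ≠ 0 := by
      intro h
      apply hj.1
      have : (j : ℝ) = n := by linarith
      exact_mod_cast this
    have htr : (t : ℝ) ≠ 0 := by exact_mod_cast ht
    -- coefficient times the power is an integer
    obtain ⟨g, hg⟩ : ∃ g : ℤ, (F.coeff j : ℝ) * (t : ℝ) ^ ((j : ℤ) - n) = g := by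
      rcases lt_or_ge j n with h | h
      · obtain ⟨g, hg⟩ := hdiv j h
        refine ⟨g, ?_⟩
        have hg' : (F.coeff j : ℝ) * (t : ℝ) ^ j = (t : ℝ) ^ n * g := by exact_mod_cast hg
        rw [zpow_sub₀ htr, zpow_natCast, zpow_natCast, ← mul_div_assoc, hg']
        field_simp
      · refine ⟨F.coeff j * t ^ (j - n), ?_⟩
        have : ((j : ℤ) - n) = ((j - n : ℕ) : ℤ) := by omega
        rw [this, zpow_natCast]
        push_cast
        ring
    refine ⟨d * g, ?_⟩
    have hd' : (D : ℝ) = ((j : ℝ) - n) * d := by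
      have : ((D : ℤ) : ℝ) = (((j : ℤ) - n) * d : ℤ) := by rw [hd]
      push_cast at this
      exact this
    rw [hd']
    push_cast
    rw [← hg]
    field_simp
  choose! z hz using key
  refine ⟨∑ j ∈ (range (F.natDegree + 1)).erase n, z j, ?_⟩
  unfold ratPart
  rw [mul_sum]
  push_cast
  exact sum_congr rfl hz

end Pool.Agent.H319R2
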