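import Mathlib

set_option autoImplicit false

/-!
The polynomials `(X-6)^a (X-8)^b (X-9)^c`.
-/

namespace Pool.Agent.H319R2

open Polynomial Finset

/-- `(X-6)^a (X-8)^b (X-9)^c` -/
noncomputable def FF (a b c : ℕ) : ℤ[X] := (X - C 6) ^ a * (X - C 8) ^ b * (X - C 9) ^ c

theorem FF_monic (a b c : ℕ) : (FF a b c).Monic := by
  unfold FF
  exact (((monic_X_sub_C 6).pow a).mul ((monic_X_sub_C 8).pow b)).mul ((monic_X_sub_C 9).pow c)

theorem FF_natDegree (a b c : ℕ) : (FF a b c).natDegree = a + b + c := by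
  unfold FF
  rw [Monic.natDegree_mul (((monic_X_sub_C 6).pow a).mul ((monic_X_sub_C 8).pow b))
      ((monic_X_sub_C 9).pow c),
    Monic.natDegree_mul ((monic_X_sub_C 6).pow a) ((monic_X_sub_C 8).pow b),
    (monic_X_sub_C (6:ℤ)).natDegree_pow, (monic_X_sub_C (8:ℤ)).natDegree_pow,
    (monic_X_sub_C (9:ℤ)).natDegree_pow, natDegree_X_sub_C, natDegree_X_sub_C, natDegree_X_sub_C]
  ring

theorem FF_eval (a b c : ℕ) (x : ℝ) : ((FF a b c).map (Int.castRingHom ℝ)).eval x =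
    (x - 6) ^ a * (x - 8) ^ b * (x - 9) ^ c := by
  unfold FF
  simp [Polynomial.map_mul, Polynomial.map_pow, Polynomial.map_sub]

theorem dvd_of_comp (F : ℤ[X]) (t e : ℤ) (G : ℤ[X]) (h : F.comp (C t * X) = C e * G) (j : ℕ) :
    e ∣ F.coeff j * t ^ j := by
  have h1 : (F.comp (C t * X)).coeff j = F.coeff j * t ^ j := by
    rw [Polynomial.comp_C_mul_X_coeff]
  rw [← h1, h, coeff_C_mul]
  exact dvd_mul_right _ _

theorem dvd9 (a b c n : ℕ) (h : 2 * n ≤ a + 2 * c) (j : ℕ) :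
    (9 : ℤ) ^ n ∣ (FF a b c).coeff j * 9 ^ j := by
  have h1 : (FF a b c).comp (C 9 * X) = C ((3 : ℤ) ^ (a + 2 * c)) *
      ((C 3 * X - C 2) ^ a * (C 9 * X - C 8) ^ b * (X - C 1) ^ c) := by
    unfold FF
    rw [mul_comp, mul_comp, pow_comp, pow_comp, pow_comp, sub_comp, sub_comp, sub_comp, X_comp,
      C_comp, C_comp, C_comp]
    have e1 : (C 9 * X - C 6 : ℤ[X]) = C 3 * (C 3 * X - C 2) := by
      rw [mul_sub, ← mul_assoc, ← C_mul, ← C_mul]; norm_num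
    have e2 : (C 9 * X - C 9 : ℤ[X]) = C 9 * (X - C 1) := by
      rw [mul_sub, ← C_mul]; norm_num
    rw [e1, e2, mul_pow, mul_pow, pow_add, pow_mul, C_mul, C_pow, C_pow]
    norm_num
    ring
  have h2 := dvd_of_comp _ _ _ _ h1 j
  refine dvd_trans ?_ h2
  rw [show (9 : ℤ) = 3 ^ 2 by norm_num, ← pow_mul]
  exact pow_dvd_pow _ h

theorem dvd8 (a b c n : ℕ) (h : 3 * n ≤ a + 3 * b) (j : ℕ) :
    (8 : ℤ) ^ n ∣ (FF a b c).coeff j * 8 ^ j := by
  have h1 : (FF a b c).comp (C 8 * X) = C ((2 : ℤ) ^ (a + 3 * b)) *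
      ((C 4 * X - C 3) ^ a * (X - C 1) ^ b * (C 8 * X - C 9) ^ c) := by
    unfold FF
    rw [mul_comp, mul_comp, pow_comp, pow_comp, pow_comp, sub_comp, sub_comp, sub_comp, X_comp,
      C_comp, C_comp, C_comp]
    have e1 : (C 8 * X - C 6 : ℤ[X]) = C 2 * (C 4 * X - C 3) := by
      rw [mul_sub, ← mul_assoc, ← C_mul, ← C_mul]; norm_num
    have e2 : (C 8 * X - C 8 : ℤ[X]) = C 8 * (X - C 1) := by
      rw [mul_sub, ← C_mul]; norm_num
    rw [e1, e2, mul_pow, mul_pow, pow_add, pow_mul, C_mul, C_pow, C_pow]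
    norm_num
    ring
  have h2 := dvd_of_comp _ _ _ _ h1 j
  refine dvd_trans ?_ h2
  rw [show (8 : ℤ) = 2 ^ 3 by norm_num, ← pow_mul]
  exact pow_dvd_pow _ h

theorem dvd6 (a b c n : ℕ) (h : n ≤ a + b) (h' : n ≤ a + c) (j : ℕ) :
    (6 : ℤ) ^ n ∣ (FF a b c).coeff j * 6 ^ j := by
  have h1 : (FF a b c).comp (C 6 * X) = C ((2 : ℤ) ^ (a + b) * 3 ^ (a + c)) *
      ((X - C 1) ^ a * (C 3 * X - C 4) ^ b * (C 2 * X - C 3) ^ c) := by
    unfold FF
    rw [mul_comp, mul_comp, pow_comp, pow_comp, pow_comp, sub_comp, sub_comp, sub_comp, X_comp,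
      C_comp, C_comp, C_comp]
    have e1 : (C 6 * X - C 6 : ℤ[X]) = C 6 * (X - C 1) := by
      rw [mul_sub, ← C_mul]; norm_num
    have e2 : (C 6 * X - C 8 : ℤ[X]) = C 2 * (C 3 * X - C 4) := by
      rw [mul_sub, ← mul_assoc, ← C_mul, ← C_mul]; norm_num
    have e3 : (C 6 * X - C 9 : ℤ[X]) = C 3 * (C 2 * X - C 3) := by
      rw [mul_sub, ← mul_assoc, ← C_mul, ← C_mul]; norm_num
    rw [e1, e2, e3, mul_pow, mul_pow, mul_pow, pow_add, pow_add, C_mul, C_mul, C_mul, C_pow, C_pow,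
      C_pow, C_pow]
    rw [show (C 6 : ℤ[X]) = C 2 * C 3 by rw [← C_mul]; norm_num, mul_pow]
    ring
  have h2 := dvd_of_comp _ _ _ _ h1 j
  refine dvd_trans ?_ h2
  rw [show (6 : ℤ) = 2 * 3 by norm_num, mul_pow]
  exact mul_dvd_mul (pow_dvd_pow _ h) (pow_dvd_pow _ h')

/-- `(X+6)^a (X+8)^b (X+9)^c` over the reals -/
noncomputable def FP (a b c : ℕ) : ℝ[X] := (X + C 6) ^ a * (X + C 8) ^ b * (X + C 9) ^ c

theorem coeff_nonneg_mul {P Q : ℝ[X]} (hP : ∀ j, 0 ≤ P.coeff j) (hQ : ∀ j, 0 ≤ Q.coeff j) (j : ℕ) :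
    0 ≤ (P * Q).coeff j := by
  rw [coeff_mul]
  exact sum_nonneg fun x _ => mul_nonneg (hP _) (hQ _)

theorem coeff_nonneg_pow {P : ℝ[X]} (hP : ∀ j, 0 ≤ P.coeff j) (k : ℕ) : ∀ j, 0 ≤ (P ^ k).coeff j := by
  induction k with
  | zero =>
    intro j
    rw [pow_zero, coeff_one]
    split_ifs <;> norm_num
  | succ k ih =>
    intro j
    rw [pow_succ]
    exact coeff_nonneg_mul ih hP j

theorem coeff_nonneg_lin {r : ℝ} (hr : 0 ≤ r) (j : ℕ) : 0 ≤ (X + C r : ℝ[X]).coeff j := by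
  rw [coeff_add, coeff_X, coeff_C]
  split_ifs <;> linarith

theorem FP_coeff_nonneg (a b c j : ℕ) : 0 ≤ (FP a b c).coeff j := by
  unfold FP
  apply coeff_nonneg_mul
  · apply coeff_nonneg_mul
    · exact coeff_nonneg_pow (coeff_nonneg_lin (by norm_num)) a
    · exact coeff_nonneg_pow (coeff_nonneg_lin (by norm_num)) b
  · exact coeff_nonneg_pow (coeff_nonneg_lin (by norm_num)) c

theorem coeff_le_eval {P : ℝ[X]} (hP : ∀ j, 0 ≤ P.coeff j) {ρ : ℝ} (hρ : 0 < ρ) (n : ℕ) :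
    P.coeff n * ρ ^ n ≤ P.eval ρ := by
  rcases le_or_gt n P.natDegree with h | h
  · rw [eval_eq_sum_range]
    exact single_le_sum (f := fun i => P.coeff i * ρ ^ i)
      (fun i _ => mul_nonneg (hP i) (by positivity)) (mem_range.2 (Nat.lt_succ_of_le h))
  · rw [coeff_eq_zero_of_natDegree_lt h, zero_mul, eval_eq_sum_range]
    exact sum_nonneg fun i _ => mul_nonneg (hP i) (by positivity)

/-- relation of the coefficients -/
theorem FF_coeff (a b c n : ℕ) : ((FF a b c).coeff n : ℝ) =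
    (-1) ^ (a + b + c + n) * (FP a b c).coeff n := by
  have h1 : (FF a b c).map (Int.castRingHom ℝ) = C ((-1) ^ (a + b + c)) *
      (FP a b c).comp (C (-1) * X) := by
    unfold FF FP
    simp only [Polynomial.map_mul, Polynomial.map_pow, Polynomial.map_sub, map_X, map_C, mul_comp,
      pow_comp, add_comp, X_comp, C_comp]
    have e1 : (C (-1) * X + C 6 : ℝ[X]) = C (-1) * (X - C 6) := by
      rw [mul_sub, ← C_mul]; norm_num
    have e2 : (C (-1) * X + C 8 : ℝ[X]) = C (-1) * (X - C 8) := by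
      rw [mul_sub, ← C_mul]; norm_num
    have e3 : (C (-1) * X + C 9 : ℝ[X]) = C (-1) * (X - C 9) := by
      rw [mul_sub, ← C_mul]; norm_num
    rw [e1, e2, e3, mul_pow, mul_pow, mul_pow, pow_add, pow_add, C_mul, C_mul, C_pow, C_pow, C_pow]
    have e4 : ∀ k : ℕ, (C (-1) : ℝ[X]) ^ k * C (-1) ^ k = 1 := by
      intro k
      rw [← mul_pow, ← C_mul]; norm_num
    have e5 : ((Int.castRingHom ℝ) 6 : ℝ) = 6 := by norm_num
    have e6 : ((Int.castRingHom ℝ) 8 : ℝ) = 8 := by norm_num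
    have e7 : ((Int.castRingHom ℝ) 9 : ℝ) = 9 := by norm_num
    rw [e5, e6, e7]
    linear_combination (-((X - C 6 : ℝ[X]) ^ a * (X - C 8) ^ b * (X - C 9) ^ c)) * e4 a
      - ((X - C 6 : ℝ[X]) ^ a * (X - C 8) ^ b * (X - C 9) ^ c) * (C (-1) ^ a * C (-1) ^ a) * e4 b
      - ((X - C 6 : ℝ[X]) ^ a * (X - C 8) ^ b * (X - C 9) ^ c) * (C (-1) ^ a * C (-1) ^ a) *
        (C (-1) ^ b * C (-1) ^ b) * e4 c
  have h2 : ((FF a b c).map (Int.castRingHom ℝ)).coeff n = ((FF a b c).coeff n : ℝ) := by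
    rw [coeff_map]; rfl
  rw [← h2, h1, coeff_C_mul, comp_C_mul_X_coeff, pow_add (-1 : ℝ) (a + b + c) n]
  ring

theorem FF_coeff_bound (a b c n : ℕ) {ρ : ℝ} (hρ : 0 < ρ) :
    |((FF a b c).coeff n : ℝ)| ≤ (ρ + 6) ^ a * (ρ + 8) ^ b * (ρ + 9) ^ c / ρ ^ n := by
  rw [FF_coeff, abs_mul, abs_pow, abs_neg, abs_one, one_pow, one_mul,
    abs_of_nonneg (FP_coeff_nonneg a b c n), le_div_iff₀ (by positivity)]
  refine (coeff_le_eval (FP_coeff_nonneg a b c) hρ n).trans (le_of_eq ?_)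
  unfold FP
  simp

theorem FF_coeff_sign (a b c n : ℕ) : 0 ≤ (-1) ^ (a + b + c + n) * ((FF a b c).coeff n : ℝ) := by
  rw [FF_coeff, ← mul_assoc, ← mul_pow]
  norm_num
  exact FP_coeff_nonneg a b c n

end Pool.Agent.H319R2
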