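import Mathlib
import Pool.Agent.H319R2.Key
import Pool.Agent.Helper923.PNT

set_option autoImplicit false

/-!
A polynomial lower bound for `|u log 2 + v log 3|`.
-/

namespace Pool.Agent.H319R2

open Filter

theorem lcm_bound : ∃ C : ℝ, 0 < C ∧ ∀ n : ℕ, (Nat.lcmUpto n : ℝ) ≤ C * Real.exp (1.01 * n) := by
  have h1 : ∀ᶠ x : ℝ in atTop, Chebyshev.psi x / x < 1.01 :=
    Pool.Agent.Helper923.PNT.psi_div_tendsto.eventually (gt_mem_nhds (by norm_num))
  obtain ⟨x0, hx0⟩ := eventually_atTop.1 h1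
  obtain ⟨n0, hn0⟩ := exists_nat_gt (max x0 1)
  refine ⟨∑ n ∈ Finset.range (n0 + 1), (Nat.lcmUpto n : ℝ) + 1, ?_, ?_⟩
  · have : 0 ≤ ∑ n ∈ Finset.range (n0 + 1), (Nat.lcmUpto n : ℝ) :=
      Finset.sum_nonneg fun i _ => Nat.cast_nonneg _
    linarith
  · intro n
    set S := ∑ n ∈ Finset.range (n0 + 1), (Nat.lcmUpto n : ℝ) with hS
    have hSn : 0 ≤ S := Finset.sum_nonneg fun i _ => Nat.cast_nonneg _
    have he : 1 ≤ Real.exp (1.01 * n) := by
      rw [← Real.exp_zero]; apply Real.exp_le_exp.2; positivity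
    rcases le_or_gt n n0 with h | h
    · have h2 : (Nat.lcmUpto n : ℝ) ≤ S := by
        rw [hS]
        exact Finset.single_le_sum (f := fun n => (Nat.lcmUpto n : ℝ))
          (fun i _ => Nat.cast_nonneg _) (Finset.mem_range.2 (by omega))
      nlinarith
    · have hn : max x0 1 < (n : ℝ) := hn0.trans (by exact_mod_cast h)
      have hn1 : (1 : ℝ) < n := lt_of_le_of_lt (le_max_right _ _) hn
      have h3 := hx0 n (le_of_lt (lt_of_le_of_lt (le_max_left _ _) hn))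
      rw [div_lt_iff₀ (by linarith), Chebyshev.psi_eq_log_lcmUpto] at h3
      have h4 : (Nat.lcmUpto n : ℝ) ≤ Real.exp (1.01 * n) := by
        rw [← Real.log_le_iff_le_exp (by exact_mod_cast Nat.lcmUpto_pos n)]
        exact h3.le
      nlinarith [Real.exp_pos (1.01 * (n:ℝ))]

theorem numeric_pow : Real.exp (1.01 * 6) ^ 14 * (12 ^ 6 * 14 ^ 3 * 15 ^ 2 / 6 ^ 5) ≤ 3200 ^ 13 := by
  rw [← Real.exp_nat_mul]
  have h1 : Real.exp ((14 : ℕ) * (1.01 * 6)) ≤ Real.exp 1 ^ 85 := by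
    rw [← Real.exp_nat_mul]
    apply Real.exp_le_exp.2
    norm_num
  have h2 : Real.exp 1 ^ 85 ≤ 2.7182818286 ^ 85 :=
    pow_le_pow_left₀ (Real.exp_pos 1).le Real.exp_one_lt_d9.le 85
  have h3 : (2.7182818286 : ℝ) ^ 85 * (12 ^ 6 * 14 ^ 3 * 15 ^ 2 / 6 ^ 5) ≤ 3200 ^ 13 := by
    norm_num
  exact (mul_le_mul_of_nonneg_right (h1.trans h2) (by norm_num)).trans h3

theorem exp_lt : Real.exp (1.01 * 6) < 3200 := by
  have h1 : Real.exp (1.01 * 6) ≤ Real.exp 1 ^ 7 := by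
    rw [← Real.exp_nat_mul]
    apply Real.exp_le_exp.2
    norm_num
  have h2 : Real.exp 1 ^ 7 ≤ 2.7182818286 ^ 7 :=
    pow_le_pow_left₀ (Real.exp_pos 1).le Real.exp_one_lt_d9.le 7
  have h3 : (2.7182818286 : ℝ) ^ 7 < 3200 := by norm_num
  linarith

/-- measure for `p log (9/8) + q log (8/6)`, `p > 0 > q` -/
theorem measure_pos : ∃ c : ℝ, 0 < c ∧ ∀ p q : ℤ, 0 < p → q < 0 →
    c ≤ ((p : ℝ) - q) ^ 13 * |(p : ℝ) * Real.log (9 / 8) + q * Real.log (8 / 6)| := by
  obtain ⟨C, hC, hlcm⟩ := lcm_bound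
  set E : ℝ := Real.exp (1.01 * 6) with hE
  have hE0 : 0 < E := Real.exp_pos _
  set K : ℝ := 12 ^ 6 * 14 ^ 3 * 15 ^ 2 / 6 ^ 5 with hK
  have hK0 : 0 < K := by positivity
  set r1 : ℝ := E / 3200 with hr1
  have hr10 : 0 < r1 := by positivity
  have hr11 : r1 < 1 := by rw [hr1, div_lt_one (by norm_num)]; exact exp_lt
  set r2 : ℝ := E * K with hr2
  have hr20 : 0 < r2 := by positivity
  have hr : r2 * r1 ^ 13 ≤ 1 := by
    rw [hr1, hr2, div_pow, ← mul_div_assoc, div_le_one (by positivity)]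
    calc E * K * E ^ 13 = E ^ 14 * K := by ring
      _ ≤ 3200 ^ 13 := numeric_pow
  set B : ℝ := C * Real.exp (1.01 * 2) with hB
  have hB0 : 0 < B := by positivity
  -- key inequality in the form `1 ≤ B (2 H r1^m + 168 r2^m |Λ|)`
  have hkey : ∀ (m : ℕ) (p q : ℤ), 0 < p → q < 0 →
      1 ≤ B * (2 * ((p : ℝ) - q) * r1 ^ m +
        168 * r2 ^ m * |(p : ℝ) * Real.log (9 / 8) + q * Real.log (8 / 6)|) := by
    intro m p q hp hq
    have h1 := key m p q hp hq
    have h2 := hlcm (6 * m + 2)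
    have h3 : Real.exp (1.01 * ((6 * m + 2 : ℕ) : ℝ)) = Real.exp (1.01 * 2) * E ^ m := by
      rw [hE, ← Real.exp_nat_mul, ← Real.exp_add]
      congr 1
      push_cast; ring
    rw [h3] at h2
    have hpr : (0 : ℝ) < p := by exact_mod_cast hp
    have hqr : (q : ℝ) < 0 := by exact_mod_cast hq
    have hpq : 0 < (p : ℝ) - q := by linarith
    refine h1.trans ((mul_le_mul_of_nonneg_right h2 (by positivity)).trans (le_of_eq ?_))
    have e1 : (12 : ℝ) ^ (6 * m + 1) * 14 ^ (3 * m + 1) * 15 ^ (2 * m) / 6 ^ (5 * m) = 168 * K ^ m := by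
      rw [hK, div_pow, mul_pow, mul_pow, ← pow_mul, ← pow_mul, ← pow_mul, ← pow_mul, pow_succ,
        pow_succ]
      ring
    have e2 : r1 ^ m = (1 / 3200) ^ m * E ^ m := by rw [hr1, ← mul_pow]; congr 1; ring
    have e3 : r2 ^ m = K ^ m * E ^ m := by rw [hr2, mul_pow]; ring
    rw [e1, hB, e2, e3]
    clear_value K E
    ring
  refine ⟨1 / (2 * B * 168 * (r2 * (4 * B) ^ 13 + 1)), by positivity, ?_⟩
  intro p q hp hq
  have hpr : (1 : ℝ) ≤ p := by exact_mod_cast hp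
  have hqr : (q : ℝ) ≤ -1 := by
    have : q ≤ -1 := by omega
    exact_mod_cast this
  set H : ℝ := (p : ℝ) - q with hH
  have hH1 : 1 ≤ H := by linarith
  set L : ℝ := |(p : ℝ) * Real.log (9 / 8) + q * Real.log (8 / 6)| with hL
  have hL0 : 0 ≤ L := abs_nonneg _
  -- the least m with `4 B H r1^m ≤ 1`
  have hex : ∃ m : ℕ, 4 * B * H * r1 ^ m ≤ 1 := by
    obtain ⟨m, hm⟩ := exists_pow_lt_of_lt_one (show 0 < 1 / (4 * B * H) by positivity) hr11
    refine ⟨m, ?_⟩
    rw [lt_div_iff₀ (by positivity)] at hm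
    linarith
  classical
  set m := Nat.find hex with hm
  have hm1 : 4 * B * H * r1 ^ m ≤ 1 := Nat.find_spec hex
  have hmk := hkey m p q hp hq
  have hlow : 1 / 2 ≤ B * (168 * r2 ^ m * L) := by
    have : B * (2 * H * r1 ^ m) ≤ 1 / 2 := by linarith
    have e : B * (2 * H * r1 ^ m + 168 * r2 ^ m * L) = B * (2 * H * r1 ^ m) + B * (168 * r2 ^ m * L) := by
      ring
    rw [← hH, ← hL, e] at hmk
    linarith
  have hup : r2 ^ m ≤ (r2 * (4 * B) ^ 13 + 1) * H ^ 13 := by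
    rcases Nat.eq_zero_or_pos m with h0 | h0
    · rw [h0, pow_zero]
      have : 1 ≤ H ^ 13 := one_le_pow₀ hH1
      have h5 : 0 < r2 * (4 * B) ^ 13 := by positivity
      nlinarith
    · have hm2 : ¬ (4 * B * H * r1 ^ (m - 1) ≤ 1) := Nat.find_min hex (by omega)
      have hm2 : 1 < 4 * B * H * r1 ^ (m - 1) := not_le.1 hm2
      have h6 : 1 ≤ (4 * B * H * r1 ^ (m - 1)) ^ 13 := one_le_pow₀ hm2.le
      have h7 : r2 ^ (m - 1) * (r1 ^ (m - 1)) ^ 13 ≤ 1 := by
        rw [← pow_mul, mul_comm (m - 1) 13, pow_mul, ← mul_pow]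
        exact pow_le_one₀ (by positivity) hr
      have h8 : r2 ^ (m - 1) ≤ (4 * B * H) ^ 13 := by
        have h9 : 0 < r2 ^ (m - 1) := by positivity
        calc r2 ^ (m - 1) ≤ r2 ^ (m - 1) * (4 * B * H * r1 ^ (m - 1)) ^ 13 := by
              nlinarith
          _ = (r2 ^ (m - 1) * (r1 ^ (m - 1)) ^ 13) * (4 * B * H) ^ 13 := by
              rw [mul_pow]; ring
          _ ≤ 1 * (4 * B * H) ^ 13 := mul_le_mul_of_nonneg_right h7 (by positivity)
          _ = (4 * B * H) ^ 13 := one_mul _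
      have h10 : r2 ^ m = r2 * r2 ^ (m - 1) := by
        rw [← pow_succ']; congr 1; omega
      rw [h10]
      calc r2 * r2 ^ (m - 1) ≤ r2 * (4 * B * H) ^ 13 := mul_le_mul_of_nonneg_left h8 hr20.le
        _ = (r2 * (4 * B) ^ 13) * H ^ 13 := by rw [mul_pow]; ring
        _ ≤ (r2 * (4 * B) ^ 13 + 1) * H ^ 13 := by
            apply mul_le_mul_of_nonneg_right _ (by positivity)
            linarith
  rw [div_le_iff₀ (by positivity)]
  have h11 : B * (168 * r2 ^ m * L) ≤ B * (168 * ((r2 * (4 * B) ^ 13 + 1) * H ^ 13) * L) := by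
    apply mul_le_mul_of_nonneg_left _ hB0.le
    apply mul_le_mul_of_nonneg_right _ hL0
    linarith
  have h12 : H ^ 13 * L * (2 * B * 168 * (r2 * (4 * B) ^ 13 + 1)) =
      2 * (B * (168 * ((r2 * (4 * B) ^ 13 + 1) * H ^ 13) * L)) := by ring
  rw [h12]
  linarith

/-- **Polynomial lower bound for linear forms in `log 2`, `log 3`.** -/
theorem measure : ∃ c : ℝ, 0 < c ∧ ∀ u v : ℤ, (u ≠ 0 ∨ v ≠ 0) →
    c ≤ ((|u| + |v| : ℤ) : ℝ) ^ 13 * |(u : ℝ) * Real.log 2 + v * Real.log 3| := by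
  obtain ⟨c0, hc0, hc⟩ := measure_pos
  have hl2 : 0 < Real.log 2 := Real.log_pos (by norm_num)
  have hl3 : 0 < Real.log 3 := Real.log_pos (by norm_num)
  have e98 : Real.log (9 / 8) = 2 * Real.log 3 - 3 * Real.log 2 := by
    rw [show (9 : ℝ) / 8 = 3 ^ 2 / 2 ^ 3 by norm_num, Real.log_div (by norm_num) (by norm_num),
      Real.log_pow, Real.log_pow]; push_cast; ring
  have e86 : Real.log (8 / 6) = 2 * Real.log 2 - Real.log 3 := by
    rw [show (8 : ℝ) / 6 = 2 ^ 2 / 3 by norm_num, Real.log_div (by norm_num) (by norm_num),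
      Real.log_pow]; push_cast; ring
  have h98 : 0 < Real.log (9 / 8) := Real.log_pos (by norm_num)
  have h86 : 0 < Real.log (8 / 6) := Real.log_pos (by norm_num)
  set c1 := min (Real.log (9 / 8)) (Real.log (8 / 6)) with hc1
  have hc1p : 0 < c1 := lt_min h98 h86
  refine ⟨min (c0 / 9 ^ 13) c1, lt_min (by positivity) hc1p, ?_⟩
  intro u v huv
  set p : ℤ := u + 2 * v with hp
  set q : ℤ := 2 * u + 3 * v with hq
  have hform : (u : ℝ) * Real.log 2 + v * Real.log 3 =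
      (p : ℝ) * Real.log (9 / 8) + q * Real.log (8 / 6) := by
    rw [e98, e86, hp, hq]; push_cast; ring
  rw [hform]
  have hN : (1 : ℝ) ≤ ((|u| + |v| : ℤ) : ℝ) := by
    have : (1 : ℤ) ≤ |u| + |v| := by
      rcases huv with h | h
      · have := abs_pos.2 h; have := abs_nonneg v; omega
      · have := abs_pos.2 h; have := abs_nonneg u; omega
    exact_mod_cast this
  have hN13 : (1 : ℝ) ≤ ((|u| + |v| : ℤ) : ℝ) ^ 13 := one_le_pow₀ hN
  -- bound for `|p| + |q|`
  have hpq9 : |p| + |q| ≤ 9 * (|u| + |v|) := by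
    have h1 : |p| ≤ |u| + 2 * |v| := by
      rw [hp]; refine (abs_add_le _ _).trans ?_; rw [abs_mul]; norm_num
    have h2 : |q| ≤ 2 * |u| + 3 * |v| := by
      rw [hq]; refine (abs_add_le _ _).trans ?_; rw [abs_mul, abs_mul]; norm_num
    have := abs_nonneg u; have := abs_nonneg v
    linarith
  -- opposite signs
  have main : ∀ p' q' : ℤ, 0 < p' → q' < 0 → |p'| + |q'| ≤ 9 * (|u| + |v|) →
      min (c0 / 9 ^ 13) c1 ≤ ((|u| + |v| : ℤ) : ℝ) ^ 13 *
        |(p' : ℝ) * Real.log (9 / 8) + q' * Real.log (8 / 6)| := by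
    intro p' q' hp' hq' hle
    refine (min_le_left _ _).trans ?_
    have h := hc p' q' hp' hq'
    rw [div_le_iff₀ (by positivity)]
    refine h.trans ?_
    have h1 : (p' : ℝ) - q' ≤ 9 * ((|u| + |v| : ℤ) : ℝ) := by
      rw [abs_of_pos hp', abs_of_neg hq'] at hle
      have : p' - q' ≤ 9 * (|u| + |v|) := by linarith
      exact_mod_cast this
    have h0 : 0 ≤ (p' : ℝ) - q' := by
      have : (0 : ℤ) ≤ p' - q' := by linarith
      exact_mod_cast this
    calc ((p' : ℝ) - q') ^ 13 * |(p' : ℝ) * Real.log (9 / 8) + q' * Real.log (8 / 6)|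
        ≤ (9 * ((|u| + |v| : ℤ) : ℝ)) ^ 13 * |(p' : ℝ) * Real.log (9 / 8) + q' * Real.log (8 / 6)| :=
          mul_le_mul_of_nonneg_right (pow_le_pow_left₀ h0 h1 13) (abs_nonneg _)
      _ = _ := by rw [mul_pow]; ring
  -- same sign
  have same : c1 ≤ |(p : ℝ) * Real.log (9 / 8) + q * Real.log (8 / 6)| →
      min (c0 / 9 ^ 13) c1 ≤ ((|u| + |v| : ℤ) : ℝ) ^ 13 *
        |(p : ℝ) * Real.log (9 / 8) + q * Real.log (8 / 6)| := by
    intro h
    refine (min_le_right _ _).trans (h.trans ?_)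
    nlinarith [abs_nonneg ((p : ℝ) * Real.log (9 / 8) + q * Real.log (8 / 6))]
  have hpq0 : p ≠ 0 ∨ q ≠ 0 := by
    by_contra h
    push Not at h
    obtain ⟨h1, h2⟩ := h
    rw [hp] at h1
    rw [hq] at h2
    rcases huv with h3 | h3 <;> omega
  have c1a : c1 ≤ Real.log (9 / 8) := min_le_left _ _
  have c1b : c1 ≤ Real.log (8 / 6) := min_le_right _ _
  rcases lt_trichotomy p 0 with hp0 | hp0 | hp0
  · rcases lt_or_ge 0 q with hq0 | hq0
    · have := main (-p) (-q) (by omega) (by omega) (by rw [abs_neg, abs_neg]; exact hpq9)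
      have e : ((-p : ℤ) : ℝ) * Real.log (9 / 8) + ((-q : ℤ) : ℝ) * Real.log (8 / 6) =
          -((p : ℝ) * Real.log (9 / 8) + q * Real.log (8 / 6)) := by push_cast; ring
      rwa [e, abs_neg] at this
    · apply same
      have hpr : (p : ℝ) ≤ -1 := by exact_mod_cast (by omega : p ≤ -1)
      have hqr : (q : ℝ) ≤ 0 := by exact_mod_cast hq0
      rw [abs_of_nonpos (by nlinarith)]
      nlinarith
  · apply same
    rw [hp0]
    have hq0 : q ≠ 0 := by
      rcases hpq0 with h | h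
      · exact absurd hp0 h
      · exact h
    have h1 : (1 : ℝ) ≤ |(q : ℝ)| := by
      have : (1 : ℤ) ≤ |q| := Int.one_le_abs hq0
      exact_mod_cast this
    rw [Int.cast_zero, zero_mul, zero_add, abs_mul, abs_of_pos h86]
    nlinarith
  · rcases lt_or_ge q 0 with hq0 | hq0
    · exact main p q hp0 hq0 hpq9
    · apply same
      have hpr : (1 : ℝ) ≤ p := by exact_mod_cast hp0
      have hqr : (0 : ℝ) ≤ q := by exact_mod_cast hq0
      rw [abs_of_nonneg (by nlinarith)]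
      nlinarith

end Pool.Agent.H319R2
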