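import Mathlib
import Pool.Agent.H319R2.Basic

set_option autoImplicit false

/-!
Sets on which the 3x+1 map is essentially injective are sparse.
-/

namespace Pool.Agent.H319R2

open Finset

/-- `T` is injective on `S` up to few exceptions: after deleting at most `k` elements, `T^[k]`
maps `S` injectively to itself. -/
def Tame (S : Set ℤ) : Prop :=
  ∀ k : ℕ, ∃ B : Finset ℤ, B.card ≤ k ∧ (∀ x ∈ S, x ∉ B → T^[k] x ∈ S) ∧
    ∀ x ∈ S, ∀ y ∈ S, x ∉ B → y ∉ B → T^[k] x = T^[k] y → x = y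

/-- a forward invariant set on which `T` is injective is tame -/
theorem tame_of_injOn {S : Set ℤ} (hm : Set.MapsTo T S S) (hi : Set.InjOn T S) : Tame S := by
  intro k
  refine ⟨∅, by simp, fun x hx _ => hm.iterate k hx, fun x hx y hy _ _ h => ?_⟩
  exact hi.iterate hm k hx hy h

theorem tame_periodic : Tame (Function.periodicPts T) :=
  tame_of_injOn (Function.bijOn_periodicPts T).mapsTo (Function.bijOn_periodicPts T).injOn

/-- an injective initial piece of an orbit is tame -/
theorem tame_path (x : ℤ) (r : ℕ) (h : Set.InjOn (fun i => T^[i] x) (Set.Iio r)) :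
    Tame ((fun i => T^[i] x) '' (Set.Iio r)) := by
  classical
  intro k
  refine ⟨((range r).filter fun i => r ≤ i + k).image (fun i => T^[i] x), ?_, ?_, ?_⟩
  · refine card_image_le.trans ?_
    have : ((range r).filter fun i => r ≤ i + k) ⊆ (Finset.Ico (r - k) r) := by
      intro i hi
      rw [mem_filter, mem_range] at hi
      rw [mem_Ico]
      omega
    refine (card_le_card this).trans ?_
    rw [Nat.card_Ico]
    omega
  · rintro _ ⟨i, hi, rfl⟩ hB
    have hi' : i < r := hi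
    have hik : i + k < r := by
      by_contra hc
      apply hB
      rw [mem_image]
      exact ⟨i, by rw [mem_filter, mem_range]; omega, rfl⟩
    refine ⟨i + k, hik, ?_⟩
    simp only
    rw [Nat.add_comm, Function.iterate_add_apply]
  · rintro _ ⟨i, hi, rfl⟩ _ ⟨j, hj, rfl⟩ hBi hBj hij
    have hi' : i < r := hi
    have hj' : j < r := hj
    have hik : i + k < r := by
      by_contra hc
      apply hBi
      rw [mem_image]
      exact ⟨i, by rw [mem_filter, mem_range]; omega, rfl⟩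
    have hjk : j + k < r := by
      by_contra hc
      apply hBj
      rw [mem_image]
      exact ⟨j, by rw [mem_filter, mem_range]; omega, rfl⟩
    have e : (fun i => T^[i] x) (i + k) = (fun i => T^[i] x) (j + k) := by
      simp only at hij ⊢
      rw [Nat.add_comm i k, Nat.add_comm j k, Function.iterate_add_apply,
        Function.iterate_add_apply]
      exact hij
    have := h (show i + k ∈ Set.Iio r from hik) (show j + k ∈ Set.Iio r from hjk) e
    have : i = j := by omega
    rw [this]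

/-- elements of `S` of absolute value less than `2 ^ k` -/
noncomputable def AS (S : Set ℤ) (k : ℕ) : Finset ℤ := by
  classical
  exact (Finset.Ioo (-(2 ^ k : ℤ)) (2 ^ k)).filter fun x => x ∈ S

theorem mem_AS {S : Set ℤ} {k : ℕ} {x : ℤ} : x ∈ AS S k ↔ |x| < 2 ^ k ∧ x ∈ S := by
  classical
  unfold AS
  rw [mem_filter, mem_Ioo, abs_lt]

theorem AS_card_le (S : Set ℤ) (k : ℕ) : (AS S k).card ≤ 2 * 2 ^ k := by
  classical
  unfold AS
  refine (card_filter_le _ _).trans ?_
  rw [Int.card_Ioo]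
  have : (0 : ℤ) < 2 ^ k := by positivity
  zify
  rw [Int.toNat_of_nonneg (by linarith)]
  linarith

/-- set of odd positions -/
def pset (k : ℕ) (x : ℤ) : Finset ℕ := (range k).filter fun i => (T^[i] x) % 2 = 1

theorem pset_inj {k : ℕ} {x y : ℤ} (h : pset k x = pset k y) : (2 : ℤ) ^ k ∣ x - y := by
  apply same_par
  intro i hi
  have hx : i ∈ pset k x ↔ (T^[i] x) % 2 = 1 := by simp [pset, hi]
  have hy : i ∈ pset k y ↔ (T^[i] y) % 2 = 1 := by simp [pset, hi]
  rw [h] at hx
  have e := hx.symm.trans hy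
  have p1 := par (T^[i] x)
  have p2 := par (T^[i] y)
  omega

/-- Chernoff bound: few sets have many elements -/
theorem chernoff (k : ℕ) (θ : ℝ) (h1 : 1 / 2 < θ) (h2 : θ < 1) :
    ((((range k).powerset.filter fun s => θ * k < (s.card : ℝ)).card : ℕ) : ℝ) ≤
      Real.exp (k * Real.binEntropy θ) := by
  set t : ℝ := θ / (1 - θ) with ht
  have hθ : 0 < θ := by linarith
  have h1θ : 0 < 1 - θ := by linarith
  have ht1 : 1 < t := by rw [ht, one_lt_div h1θ]; linarith
  have ht0 : 0 < t := by linarith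
  have hsum : ∑ s ∈ (range k).powerset, t ^ s.card = (1 + t) ^ k := by
    have := Finset.sum_pow_mul_eq_add_pow t 1 (range k)
    simpa [add_comm] using this
  have hlow : t ^ (θ * k) * ((((range k).powerset.filter fun s => θ * k < (s.card : ℝ)).card : ℕ) : ℝ)
      ≤ ∑ s ∈ (range k).powerset, t ^ s.card := by
    calc t ^ (θ * k) * ((((range k).powerset.filter fun s => θ * k < (s.card : ℝ)).card : ℕ) : ℝ)
        = ∑ s ∈ (range k).powerset.filter (fun s => θ * k < (s.card : ℝ)), t ^ (θ * k) := by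
          rw [sum_const, nsmul_eq_mul, mul_comm]
      _ ≤ ∑ s ∈ (range k).powerset.filter (fun s => θ * k < (s.card : ℝ)), t ^ s.card := by
          apply sum_le_sum
          intro s hs
          rw [mem_filter] at hs
          rw [← Real.rpow_natCast]
          exact Real.rpow_le_rpow_of_exponent_le ht1.le hs.2.le
      _ ≤ ∑ s ∈ (range k).powerset, t ^ s.card := by
          apply sum_le_sum_of_subset_of_nonneg (filter_subset _ _)
          intro s _ _
          positivity
  rw [hsum] at hlow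
  have hpos : 0 < t ^ (θ * k) := by positivity
  have e : Real.exp (k * Real.binEntropy θ) = (1 + t) ^ k / t ^ (θ * k) := by
    rw [eq_div_iff hpos.ne']
    rw [Real.binEntropy_eq_negMulLog_add_negMulLog_one_sub]
    unfold Real.negMulLog
    have hl1 : Real.log t = Real.log θ - Real.log (1 - θ) := by
      rw [ht, Real.log_div hθ.ne' h1θ.ne']
    have hl2 : Real.log (1 + t) = - Real.log (1 - θ) := by
      have : 1 + t = (1 - θ)⁻¹ := by rw [ht]; field_simp; ring
      rw [this, Real.log_inv]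
    rw [← Real.exp_log hpos, Real.log_rpow ht0, ← Real.exp_add]
    rw [← Real.exp_log (show 0 < (1 + t) ^ k by positivity), Real.log_pow]
    congr 1
    rw [hl1, hl2]
    ring
  rw [e, le_div_iff₀ hpos, mul_comm]
  exact hlow

theorem high_le (S : Set ℤ) (k : ℕ) (θ : ℝ) (h1 : 1 / 2 < θ) (h2 : θ < 1) :
    ((((AS S k).filter fun x => θ * k < (od k x : ℝ)).card : ℕ) : ℝ) ≤
      2 * Real.exp (k * Real.binEntropy θ) := by
  classical
  set F := (range k).powerset.filter fun s => θ * k < (s.card : ℝ) with hF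
  have hsplit : (AS S k).filter (fun x => θ * k < (od k x : ℝ)) ⊆
      ((AS S k).filter fun x => θ * k < (od k x : ℝ) ∧ 0 ≤ x) ∪
      ((AS S k).filter fun x => θ * k < (od k x : ℝ) ∧ x < 0) := by
    intro x hx
    rw [mem_filter] at hx
    rw [mem_union, mem_filter, mem_filter]
    rcases le_or_gt 0 x with h | h
    · exact Or.inl ⟨hx.1, hx.2, h⟩
    · exact Or.inr ⟨hx.1, hx.2, h⟩
  have c1 : ((AS S k).filter fun x => θ * k < (od k x : ℝ) ∧ 0 ≤ x).card ≤ F.card := by
    apply card_le_card_of_injOn (pset k)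
    · intro x hx
      have hx := mem_filter.1 hx
      rw [hF]
      simp only [coe_filter, mem_powerset, Set.mem_ofPred_eq]
      exact ⟨filter_subset _ _, hx.2.1⟩
    · intro x hx y hy hxy
      have hx := mem_filter.1 hx
      have hy := mem_filter.1 hy
      obtain ⟨c, hc⟩ := pset_inj hxy
      have hx1 := (mem_AS.1 hx.1).1
      have hy1 := (mem_AS.1 hy.1).1
      rw [abs_of_nonneg hx.2.2] at hx1
      rw [abs_of_nonneg hy.2.2] at hy1
      have hx0 := hx.2.2
      have hy0 := hy.2.2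
      have hp : (0 : ℤ) < 2 ^ k := by positivity
      have hc0 : c = 0 := by
        rcases lt_trichotomy c 0 with h | h | h
        · nlinarith
        · exact h
        · nlinarith
      rw [hc0] at hc; linarith
  have c2 : ((AS S k).filter fun x => θ * k < (od k x : ℝ) ∧ x < 0).card ≤ F.card := by
    apply card_le_card_of_injOn (pset k)
    · intro x hx
      have hx := mem_filter.1 hx
      rw [hF]
      simp only [coe_filter, mem_powerset, Set.mem_ofPred_eq]
      exact ⟨filter_subset _ _, hx.2.1⟩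
    · intro x hx y hy hxy
      have hx := mem_filter.1 hx
      have hy := mem_filter.1 hy
      obtain ⟨c, hc⟩ := pset_inj hxy
      have hx1 := (mem_AS.1 hx.1).1
      have hy1 := (mem_AS.1 hy.1).1
      rw [abs_of_neg hx.2.2] at hx1
      rw [abs_of_neg hy.2.2] at hy1
      have hx0 := hx.2.2
      have hy0 := hy.2.2
      have hp : (0 : ℤ) < 2 ^ k := by positivity
      have hc0 : c = 0 := by
        rcases lt_trichotomy c 0 with h | h | h
        · nlinarith
        · exact h
        · nlinarith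
      rw [hc0] at hc; linarith
  have hch := chernoff k θ h1 h2
  have h3 := (card_le_card hsplit).trans (card_union_le _ _)
  have h4 : ((((AS S k).filter fun x => θ * k < (od k x : ℝ)).card : ℕ) : ℝ) ≤ F.card + F.card := by
    exact_mod_cast h3.trans (Nat.add_le_add c1 c2)
  rw [← hF] at hch
  linarith

theorem low_le {S : Set ℤ} (hS : Tame S) (k k' : ℕ) (θ : ℝ)
    (hk : θ * k * Real.log 3 ≤ k' * Real.log 2) :
    ((AS S k).filter fun x => (od k x : ℝ) ≤ θ * k).card ≤ (AS S k').card + k := by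
  classical
  obtain ⟨B, hB, hmap, hinj⟩ := hS k
  have hsub : ((AS S k).filter fun x => (od k x : ℝ) ≤ θ * k) ⊆
      (((AS S k).filter fun x => (od k x : ℝ) ≤ θ * k) \ B) ∪ B := by
    intro x hx
    rw [mem_union, mem_sdiff]
    by_cases h : x ∈ B
    · exact Or.inr h
    · exact Or.inl ⟨hx, h⟩
  refine (card_le_card hsub).trans ((card_union_le _ _).trans (Nat.add_le_add ?_ hB))
  apply card_le_card_of_injOn (T^[k])
  · intro x hx
    have hx := mem_sdiff.1 hx
    have hx' := mem_filter.1 hx.1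
    obtain ⟨hx1, hx2⟩ := mem_AS.1 hx'.1
    rw [mem_coe, mem_AS]
    constructor
    · have h := abs_iter_lt hx1
      refine lt_of_lt_of_le h ?_
      have : (3 : ℝ) ^ (od k x) ≤ 2 ^ k' := by
        rw [← Real.log_le_log_iff (by positivity) (by positivity), Real.log_pow, Real.log_pow]
        have h3 : 0 < Real.log 3 := Real.log_pos (by norm_num)
        nlinarith [hx'.2]
      exact_mod_cast this
    · exact hmap x hx2 hx.2
  · intro x hx y hy hxy
    have hx := mem_sdiff.1 hx
    have hy := mem_sdiff.1 hy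
    exact hinj x (mem_AS.1 (mem_filter.1 hx.1).1).2 y (mem_AS.1 (mem_filter.1 hy.1).1).2
      hx.2 hy.2 hxy

theorem rec_step {S : Set ℤ} (hS : Tame S) (k k' : ℕ) (θ : ℝ) (h1 : 1 / 2 < θ) (h2 : θ < 1)
    (hk : θ * k * Real.log 3 ≤ k' * Real.log 2) :
    ((AS S k).card : ℝ) ≤ (AS S k').card + k + 2 * Real.exp (k * Real.binEntropy θ) := by
  have a := high_le S k θ h1 h2
  have b := low_le hS k k' θ hk
  have c : ((AS S k).filter fun x => (od k x : ℝ) ≤ θ * k).card +
      ((AS S k).filter fun x => θ * k < (od k x : ℝ)).card = (AS S k).card := by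
    rw [← card_filter_add_card_filter_not (s := AS S k) (p := fun x => (od k x : ℝ) ≤ θ * k)]
    simp only [not_le]
  have b' : (((AS S k).filter fun x => (od k x : ℝ) ≤ θ * k).card : ℝ) ≤ (AS S k').card + k := by
    exact_mod_cast b
  have c' : (((AS S k).filter fun x => (od k x : ℝ) ≤ θ * k).card : ℝ) +
      (((AS S k).filter fun x => θ * k < (od k x : ℝ)).card : ℝ) = (AS S k).card := by
    exact_mod_cast c
  linarith

/-- uniform exponential bound -/
theorem AS_bound (θ : ℝ) (h1 : 1 / 2 < θ) (h2 : θ * Real.log 3 < Real.log 2) :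
    ∃ C : ℝ, 0 < C ∧ ∀ S : Set ℤ, Tame S → ∀ k : ℕ,
      ((AS S k).card : ℝ) ≤ C * Real.exp (k * Real.binEntropy θ) := by
  have hl3 : 0 < Real.log 3 := Real.log_pos (by norm_num)
  have hl2 : 0 < Real.log 2 := Real.log_pos (by norm_num)
  have hθ1 : θ < 1 := by
    by_contra h
    have h : 1 ≤ θ := not_lt.1 h
    have : Real.log 2 < Real.log 3 := Real.log_lt_log (by norm_num) (by norm_num)
    nlinarith
  have hθ0 : 0 < θ := by linarith
  set H := Real.binEntropy θ with hH
  have hHpos : 0 < H := Real.binEntropy_pos hθ0 hθ1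
  obtain ⟨k0, hk0⟩ := exists_nat_gt (Real.log 2 / (Real.log 2 - θ * Real.log 3))
  have hd : 0 < Real.log 2 - θ * Real.log 3 := by linarith
  have hk0' : Real.log 2 < k0 * (Real.log 2 - θ * Real.log 3) := by
    rwa [div_lt_iff₀ hd] at hk0
  set C0 : ℝ := 2 * 2 ^ k0 with hC0
  have hC0nn : 0 ≤ C0 := by rw [hC0]; positivity
  have hexp : Real.exp (-H) < 1 := by rw [Real.exp_lt_one_iff]; linarith
  set C : ℝ := C0 + (2 + 1 / H) / (1 - Real.exp (-H)) with hC
  have hden : 0 < 1 - Real.exp (-H) := by linarith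
  have hfrac : 0 < (2 + 1 / H) / (1 - Real.exp (-H)) := by positivity
  have hCpos : 0 < C := by linarith
  refine ⟨C, hCpos, ?_⟩
  intro S hS k
  induction k using Nat.strong_induction_on with
  | _ k ih =>
    rcases le_or_gt k k0 with hk | hk
    · have hle : ((AS S k).card : ℝ) ≤ C0 := by
        have h5 : ((AS S k).card : ℝ) ≤ 2 * 2 ^ k := by exact_mod_cast AS_card_le S k
        have h6 : (2 : ℝ) ^ k ≤ 2 ^ k0 := pow_le_pow_right₀ (by norm_num) hk
        rw [hC0]; linarith
      have h3 : 1 ≤ Real.exp (k * H) := by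
        rw [← Real.exp_zero]; apply Real.exp_le_exp.2; positivity
      nlinarith
    · have hkpos : 0 < k := by omega
      have hcond : θ * k * Real.log 3 ≤ ((k - 1 : ℕ) : ℝ) * Real.log 2 := by
        rw [Nat.cast_sub (by omega), Nat.cast_one]
        have : (k0 : ℝ) ≤ k := by exact_mod_cast hk.le
        nlinarith
      have hr := rec_step hS k (k - 1) θ h1 hθ1 hcond
      have hi := ih (k - 1) (by omega)
      have e : Real.exp (((k - 1 : ℕ) : ℝ) * H) = Real.exp (k * H) * Real.exp (-H) := by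
        rw [← Real.exp_add]; congr 1
        rw [Nat.cast_sub (by omega), Nat.cast_one]; ring
      rw [e] at hi
      have hkH : (k : ℝ) ≤ 1 / H * Real.exp (k * H) := by
        have h7 : (k : ℝ) * H ≤ Real.exp (k * H) := by
          have := Real.add_one_le_exp ((k : ℝ) * H)
          linarith
        rw [one_div, ← div_eq_inv_mul, le_div_iff₀ hHpos]
        exact h7
      have hCge : 2 + 1 / H ≤ C * (1 - Real.exp (-H)) := by
        have h8 : 2 + 1 / H = (2 + 1 / H) / (1 - Real.exp (-H)) * (1 - Real.exp (-H)) := by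
          field_simp
        rw [hC, add_mul, ← h8]
        have : 0 ≤ C0 * (1 - Real.exp (-H)) := by positivity
        linarith
      have hpos : 0 < Real.exp (k * H) := Real.exp_pos _
      rw [← hH] at hr
      have h9 : C * (Real.exp (k * H) * Real.exp (-H)) + 1 / H * Real.exp (k * H) +
          2 * Real.exp (k * H) ≤ C * Real.exp (k * H) := by nlinarith
      linarith

theorem log3_lower : 84 / 53 * Real.log 2 ≤ Real.log 3 := by
  have h : Real.log ((2 : ℝ) ^ 84) ≤ Real.log ((3 : ℝ) ^ 53) :=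
    Real.log_le_log (by positivity) (by norm_num)
  rw [Real.log_pow, Real.log_pow] at h
  push_cast at h
  linarith

theorem log5_upper : Real.log 5 ≤ 137 / 59 * Real.log 2 := by
  have h : Real.log ((5 : ℝ) ^ 59) ≤ Real.log ((2 : ℝ) ^ 137) :=
    Real.log_le_log (by positivity) (by norm_num)
  rw [Real.log_pow, Real.log_pow] at h
  push_cast at h
  linarith

/-- Gibbs' inequality for the binary entropy -/
theorem gibbs (θ t : ℝ) (h0 : 0 < θ) (h1 : θ < 1) (ht : 0 < t) :
    Real.binEntropy θ ≤ Real.log (1 + t) - θ * Real.log t := by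
  have h1θ : 0 < 1 - θ := by linarith
  rw [Real.binEntropy_eq_negMulLog_add_negMulLog_one_sub]
  unfold Real.negMulLog
  have a : Real.log (t / ((1 + t) * θ)) ≤ t / ((1 + t) * θ) - 1 :=
    Real.log_le_sub_one_of_pos (by positivity)
  have b : Real.log (1 / ((1 + t) * (1 - θ))) ≤ 1 / ((1 + t) * (1 - θ)) - 1 :=
    Real.log_le_sub_one_of_pos (by positivity)
  rw [Real.log_div ht.ne' (by positivity), Real.log_mul (by positivity) h0.ne'] at a
  rw [Real.log_div one_ne_zero (by positivity), Real.log_mul (by positivity) h1θ.ne',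
    Real.log_one] at b
  have a' := mul_le_mul_of_nonneg_left a h0.le
  have b' := mul_le_mul_of_nonneg_left b h1θ.le
  have e1 : θ * (t / ((1 + t) * θ) - 1) + (1 - θ) * (1 / ((1 + t) * (1 - θ)) - 1) = 0 := by
    field_simp
    ring
  nlinarith

/-- the limiting exponent `H(log 2/log 3)/log 2 = 0.94995...` -/
noncomputable def beta : ℝ := Real.binEntropy (Real.log 2 / Real.log 3) / Real.log 2

theorem beta_lt : beta < 0.951 := by
  unfold beta
  have hl2 : 0 < Real.log 2 := Real.log_pos (by norm_num)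
  have hl3 : 0 < Real.log 3 := Real.log_pos (by norm_num)
  have h23 : Real.log 2 < Real.log 3 := Real.log_lt_log (by norm_num) (by norm_num)
  set θ := Real.log 2 / Real.log 3 with hθ
  have hθ0 : 0 < θ := by positivity
  have hθ1 : θ < 1 := by rw [hθ, div_lt_one hl3]; exact h23
  rw [div_lt_iff₀ hl2]
  have g := gibbs θ (16 / 9) hθ0 hθ1 (by norm_num)
  have e1 : Real.log (1 + 16 / 9) = 2 * Real.log 5 - 2 * Real.log 3 := by
    rw [show (1 : ℝ) + 16 / 9 = 5 ^ 2 / 3 ^ 2 by norm_num, Real.log_div (by norm_num) (by norm_num),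
      Real.log_pow, Real.log_pow]; push_cast; ring
  have e2 : Real.log (16 / 9) = 4 * Real.log 2 - 2 * Real.log 3 := by
    rw [show (16 : ℝ) / 9 = 2 ^ 4 / 3 ^ 2 by norm_num, Real.log_div (by norm_num) (by norm_num),
      Real.log_pow, Real.log_pow]; push_cast; ring
  rw [e1, e2] at g
  have h3 := log3_lower
  have h5 := log5_upper
  have hθ3 : θ * Real.log 3 = Real.log 2 := by rw [hθ]; field_simp
  set a := Real.log 2
  set b := Real.log 3
  set c := Real.log 5
  have hx : 2 * c - 2 * b + 1.049 * a < 4 * θ * a := by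
    have : 4 * θ * a = 4 * a ^ 2 / b := by rw [hθ]; ring
    rw [this, lt_div_iff₀ hl3]
    nlinarith [mul_pos hl2 hl2, mul_nonneg hl2.le (sub_nonneg.2 h3),
      mul_nonneg hl3.le (sub_nonneg.2 h5), mul_nonneg (sub_nonneg.2 h3) (sub_nonneg.2 h3)]
  nlinarith

/-- **Sparsity.** Uniform power saving for tame sets. -/
theorem sparse (η : ℝ) (hη : beta < η) : ∃ C : ℝ, 0 < C ∧ ∀ S : Set ℤ, Tame S → ∀ X : ℝ, 1 ≤ X →
    ∀ F : Finset ℤ, (∀ x ∈ F, x ∈ S ∧ |(x : ℝ)| ≤ X) → (F.card : ℝ) ≤ C * X ^ η := by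
  have hl2 : 0 < Real.log 2 := Real.log_pos (by norm_num)
  have hl3 : 0 < Real.log 3 := Real.log_pos (by norm_num)
  have h3u : Real.log 3 < 2 * Real.log 2 := by
    have h : Real.log 3 < Real.log (2 ^ 2) := Real.log_lt_log (by norm_num) (by norm_num)
    rw [Real.log_pow] at h; push_cast at h; linarith
  unfold beta at hη
  set θ0 := Real.log 2 / Real.log 3 with hθ0
  have hhalf : 1 / 2 < θ0 := by rw [hθ0, lt_div_iff₀ hl3]; linarith
  -- choose θ slightly below θ0
  obtain ⟨θ, hθa, hθb, hθc⟩ : ∃ θ : ℝ, 1 / 2 < θ ∧ θ < θ0 ∧ Real.binEntropy θ / Real.log 2 < η := by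
    have hcont : Filter.Tendsto (fun θ => Real.binEntropy θ / Real.log 2) (nhds θ0)
        (nhds (Real.binEntropy θ0 / Real.log 2)) :=
      (Real.binEntropy_continuous.tendsto θ0).div_const _
    have h1 : ∀ᶠ θ in nhds θ0, Real.binEntropy θ / Real.log 2 < η :=
      hcont.eventually (gt_mem_nhds hη)
    have h2 : ∀ᶠ θ in nhdsWithin θ0 (Set.Iio θ0), Real.binEntropy θ / Real.log 2 < η :=
      h1.filter_mono nhdsWithin_le_nhds
    have h3 : ∀ᶠ θ in nhdsWithin θ0 (Set.Iio θ0), 1 / 2 < θ :=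
      (lt_mem_nhds hhalf : ∀ᶠ θ in nhds θ0, 1 / 2 < θ).filter_mono nhdsWithin_le_nhds
    have h4 : ∀ᶠ θ in nhdsWithin θ0 (Set.Iio θ0), θ < θ0 := self_mem_nhdsWithin
    obtain ⟨θ, h⟩ := (h2.and (h3.and h4)).exists
    exact ⟨θ, h.2.1, h.2.2, h.1⟩
  have hθ3 : θ * Real.log 3 < Real.log 2 := by
    rwa [hθ0, lt_div_iff₀ hl3] at hθb
  obtain ⟨C, hC0, hC⟩ := AS_bound θ hθa hθ3
  have hηpos : 0 < η := by
    have hθ1 : θ < 1 := by
      have : θ0 < 1 := by
        rw [hθ0, div_lt_one hl3]; exact Real.log_lt_log (by norm_num) (by norm_num)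
      linarith
    have := Real.binEntropy_pos (show 0 < θ by linarith) hθ1
    have : 0 < Real.binEntropy θ / Real.log 2 := by positivity
    linarith
  refine ⟨C * 2 ^ η, by positivity, ?_⟩
  intro S hS X hX F hF
  set k := Nat.log 2 ⌊X⌋₊ + 1 with hk
  have hfl : ⌊X⌋₊ ≠ 0 := by
    have : 1 ≤ ⌊X⌋₊ := Nat.one_le_floor_iff _ |>.2 hX
    omega
  have hk1 : X < 2 ^ k := by
    have h1 := Nat.lt_pow_succ_log_self (b := 2) (by norm_num) ⌊X⌋₊
    have h2 : ⌊X⌋₊ + 1 ≤ 2 ^ k := h1
    have h3 : X < ⌊X⌋₊ + 1 := Nat.lt_floor_add_one X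
    have h4 : ((⌊X⌋₊ + 1 : ℕ) : ℝ) ≤ ((2 ^ k : ℕ) : ℝ) := by exact_mod_cast h2
    push_cast at h4
    linarith
  have hk2 : (2 : ℝ) ^ k ≤ 2 * X := by
    have h1 := Nat.pow_log_le_self 2 hfl
    have h3 : (⌊X⌋₊ : ℝ) ≤ X := Nat.floor_le (by linarith)
    have h4 : ((2 ^ Nat.log 2 ⌊X⌋₊ : ℕ) : ℝ) ≤ (⌊X⌋₊ : ℝ) := by exact_mod_cast h1
    push_cast at h4
    rw [hk, pow_succ]
    linarith
  have hsub : F ⊆ AS S k := by
    intro x hx
    rw [mem_AS]
    refine ⟨?_, (hF x hx).1⟩
    have : |(x : ℝ)| < 2 ^ k := lt_of_le_of_lt (hF x hx).2 hk1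
    exact_mod_cast this
  have hcard' : (F.card : ℝ) ≤ (AS S k).card := by exact_mod_cast card_le_card hsub
  refine hcard'.trans ((hC S hS k).trans ?_)
  rw [mul_assoc]
  apply mul_le_mul_of_nonneg_left _ hC0.le
  rw [← Real.mul_rpow (by norm_num) (by linarith)]
  calc Real.exp (k * Real.binEntropy θ) ≤ Real.exp (k * (η * Real.log 2)) := by
        apply Real.exp_le_exp.2
        apply mul_le_mul_of_nonneg_left _ (Nat.cast_nonneg _)
        rw [div_lt_iff₀ hl2] at hθc
        exact hθc.le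
    _ = ((2 : ℝ) ^ k) ^ η := by
        rw [← Real.rpow_natCast, ← Real.rpow_mul (by norm_num), Real.rpow_def_of_pos (by norm_num)]
        congr 1; ring
    _ ≤ (2 * X) ^ η := Real.rpow_le_rpow (by positivity) hk2 hηpos.le

/-- **Reciprocal sums.** Uniform bound for the sums of reciprocals over tame sets. -/
theorem recip (η : ℝ) (hη : beta < η) (hη1 : η < 1) : ∃ C : ℝ, 0 < C ∧ ∀ S : Set ℤ, Tame S →
    ∀ N : ℝ, 1 ≤ N → ∀ F : Finset ℤ, (∀ x ∈ F, x ∈ S ∧ N ≤ |(x : ℝ)|) →
      ∑ x ∈ F, 1 / |(x : ℝ)| ≤ C * N ^ (η - 1) := by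
  classical
  obtain ⟨C, hC0, hC⟩ := sparse η hη
  set ρ : ℝ := 2 ^ (η - 1) with hρ
  have hρ0 : 0 < ρ := by positivity
  have hρ1 : ρ < 1 := Real.rpow_lt_one_of_one_lt_of_neg (by norm_num) (by linarith)
  refine ⟨C * 2 ^ η / (1 - ρ), by
    have : 0 < 1 - ρ := by linarith
    positivity, ?_⟩
  intro S hS N hN F hF
  have hN0 : 0 < N := by linarith
  -- dyadic level
  set lev : ℤ → ℕ := fun x => Nat.log 2 ⌊|(x : ℝ)| / N⌋₊ with hlev
  have hlevel : ∀ x ∈ F, 2 ^ (lev x) * N ≤ |(x : ℝ)| ∧ |(x : ℝ)| ≤ 2 ^ (lev x + 1) * N := by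
    intro x hx
    have h1 : 1 ≤ |(x : ℝ)| / N := by rw [one_le_div hN0]; exact (hF x hx).2
    have hfl : ⌊|(x : ℝ)| / N⌋₊ ≠ 0 := by
      have : 1 ≤ ⌊|(x : ℝ)| / N⌋₊ := Nat.one_le_floor_iff _ |>.2 h1
      omega
    constructor
    · have h2 : 2 ^ lev x ≤ ⌊|(x : ℝ)| / N⌋₊ := Nat.pow_log_le_self 2 hfl
      have h3 : (⌊|(x : ℝ)| / N⌋₊ : ℝ) ≤ |(x : ℝ)| / N := Nat.floor_le (by positivity)
      have h4 : ((2 ^ lev x : ℕ) : ℝ) ≤ (⌊|(x : ℝ)| / N⌋₊ : ℝ) := by exact_mod_cast h2
      push_cast at h4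
      have h5 := h4.trans h3
      rwa [le_div_iff₀ hN0] at h5
    · have h2 : ⌊|(x : ℝ)| / N⌋₊ + 1 ≤ 2 ^ (lev x + 1) :=
        Nat.lt_pow_succ_log_self (b := 2) (by norm_num) ⌊|(x : ℝ)| / N⌋₊
      have h3 : |(x : ℝ)| / N < ⌊|(x : ℝ)| / N⌋₊ + 1 := Nat.lt_floor_add_one _
      have h4 : ((⌊|(x : ℝ)| / N⌋₊ + 1 : ℕ) : ℝ) ≤ ((2 ^ (lev x + 1) : ℕ) : ℝ) := by exact_mod_cast h2
      push_cast at h4
      have h5 : |(x : ℝ)| / N ≤ 2 ^ (lev x + 1) := by linarith
      rwa [div_le_iff₀ hN0] at h5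
  set I := F.sup lev + 1 with hI
  have hmaps : ∀ x ∈ F, lev x ∈ range I := by
    intro x hx
    rw [mem_range, hI]
    exact Nat.lt_succ_of_le (le_sup hx)
  rw [← sum_fiberwise_of_maps_to hmaps]
  have hterm : ∀ i ∈ range I, ∑ x ∈ F with lev x = i, 1 / |(x : ℝ)| ≤ C * 2 ^ η * N ^ (η - 1) * ρ ^ i := by
    intro i _
    set G := F.filter (fun x => lev x = i) with hG
    have hGc : (G.card : ℝ) ≤ C * (2 ^ (i + 1) * N) ^ η := by
      apply hC S hS (2 ^ (i + 1) * N)
      · have : (1 : ℝ) ≤ 2 ^ (i + 1) := one_le_pow₀ (by norm_num)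
        nlinarith
      · intro x hx
        rw [hG, mem_filter] at hx
        refine ⟨(hF x hx.1).1, ?_⟩
        have := (hlevel x hx.1).2
        rwa [hx.2] at this
    have hsum : ∑ x ∈ G, 1 / |(x : ℝ)| ≤ G.card * (1 / (2 ^ i * N)) := by
      rw [← nsmul_eq_mul]
      apply sum_le_card_nsmul
      intro x hx
      rw [hG, mem_filter] at hx
      have := (hlevel x hx.1).1
      rw [hx.2] at this
      exact one_div_le_one_div_of_le (by positivity) this
    refine hsum.trans ((mul_le_mul_of_nonneg_right hGc (by positivity)).trans (le_of_eq ?_))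
    have e1 : ((2 : ℝ) ^ (i + 1) * N) ^ η = 2 ^ η * (2 ^ i * N) ^ η := by
      rw [← Real.mul_rpow (by norm_num) (by positivity), pow_succ]; congr 1; ring
    have e2 : ((2 : ℝ) ^ i * N) ^ η * (1 / (2 ^ i * N)) = (2 ^ i * N) ^ (η - 1) := by
      rw [Real.rpow_sub_one (by positivity)]; ring
    have e3 : ((2 : ℝ) ^ i * N) ^ (η - 1) = ρ ^ i * N ^ (η - 1) := by
      rw [Real.mul_rpow (by positivity) hN0.le, hρ, ← Real.rpow_natCast (2 ^ (η - 1)) i,
        ← Real.rpow_mul (by norm_num), ← Real.rpow_natCast 2 i, ← Real.rpow_mul (by norm_num)]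
      congr 2; ring
    calc C * ((2 : ℝ) ^ (i + 1) * N) ^ η * (1 / (2 ^ i * N))
        = C * 2 ^ η * (((2 : ℝ) ^ i * N) ^ η * (1 / (2 ^ i * N))) := by rw [e1]; ring
      _ = C * 2 ^ η * (ρ ^ i * N ^ (η - 1)) := by rw [e2, e3]
      _ = _ := by ring
  refine (sum_le_sum hterm).trans ?_
  rw [← mul_sum]
  have hgeom : ∑ i ∈ range I, ρ ^ i ≤ 1 / (1 - ρ) := by
    have h1 : ∑ i ∈ range I, ρ ^ i = (1 - ρ ^ I) / (1 - ρ) := by
      rw [geom_sum_eq hρ1.ne, ← neg_div_neg_eq]; congr 1 <;> ring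
    rw [h1]
    apply div_le_div_of_nonneg_right _ (by linarith)
    have : 0 < ρ ^ I := by positivity
    linarith
  calc C * 2 ^ η * N ^ (η - 1) * ∑ i ∈ range I, ρ ^ i
      ≤ C * 2 ^ η * N ^ (η - 1) * (1 / (1 - ρ)) :=
        mul_le_mul_of_nonneg_left hgeom (by positivity)
    _ = C * 2 ^ η / (1 - ρ) * N ^ (η - 1) := by ring

end Pool.Agent.H319R2
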