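import Mathlib
import Pool.Agent.H319R2.Measure
import Pool.Agent.H319R2.Sparse

set_option autoImplicit false

/-!
Counting integers `p ≤ P` for which `p log 2` is close to an integer multiple of `log 3`.
-/

namespace Pool.Agent.H319R2

open Finset

/-- one block of `q` consecutive integers -/
theorem block_count (α : ℝ) (q : ℕ) (h : ℤ) (hq : 0 < q) (hcop : IsCoprime h (q : ℤ))
    (hα : |(q : ℝ) * α - h| ≤ 1 / q) (a : ℕ) (r : ℝ) (hr : 0 ≤ r) (F : Finset ℕ)
    (hF : ∀ i ∈ F, i < q ∧ ∃ o : ℤ, |((a : ℝ) + i) * α - o| ≤ r) :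
    (F.card : ℝ) ≤ 2 * r * q + 3 := by
  classical
  have hqr : (0 : ℝ) < q := by exact_mod_cast hq
  have hF2 : ∀ i ∈ F, ∃ o : ℤ, |((a : ℝ) + i) * α - o| ≤ r := fun i hi => (hF i hi).2
  choose! o ho using hF2
  set A : ℝ := -((a : ℝ) * (q * α)) with hA
  set R : ℝ := r * q + 1 with hR
  set f : ℕ → ℤ := fun i => (i : ℤ) * h - q * o i with hf
  have hmem : ∀ i ∈ F, f i ∈ Finset.Icc ⌈A - R⌉ ⌊A + R⌋ := by
    intro i hi
    have h1 := ho i hi
    have hiq : (i : ℝ) < q := by exact_mod_cast (hF i hi).1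
    have hi0 : (0 : ℝ) ≤ i := Nat.cast_nonneg i
    -- `f i - A = q ((a+i) α - o) - i (q α - h)`
    have e : ((f i : ℤ) : ℝ) - A = q * (((a : ℝ) + i) * α - o i) - i * (q * α - h) := by
      rw [hf, hA]; push_cast; ring
    have h2 : |(q : ℝ) * (((a : ℝ) + i) * α - o i)| ≤ q * r := by
      rw [abs_mul, abs_of_pos hqr]
      exact mul_le_mul_of_nonneg_left h1 hqr.le
    have h3 : |(i : ℝ) * (q * α - h)| ≤ 1 := by
      rw [abs_mul, abs_of_nonneg hi0]
      calc (i : ℝ) * |(q : ℝ) * α - h| ≤ q * (1 / q) :=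
            mul_le_mul hiq.le hα (abs_nonneg _) hqr.le
        _ = 1 := by field_simp
    have h4 : |((f i : ℤ) : ℝ) - A| ≤ R := by
      rw [e, hR]
      refine (abs_sub _ _).trans ?_
      linarith
    rw [abs_le] at h4
    rw [Finset.mem_Icc]
    constructor
    · rw [Int.ceil_le]; linarith
    · rw [Int.le_floor]; linarith
  have hinj : Set.InjOn f F := by
    intro i hi j hj hij
    have hi' := (hF i hi).1
    have hj' := (hF j hj).1
    have h1 : (q : ℤ) ∣ ((i : ℤ) - j) * h := by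
      refine ⟨o i - o j, ?_⟩
      have : (i : ℤ) * h - q * o i = (j : ℤ) * h - q * o j := hij
      linear_combination this
    have h2 : (q : ℤ) ∣ (i : ℤ) - j := hcop.symm.dvd_of_dvd_mul_right h1
    obtain ⟨c, hc⟩ := h2
    have hq' : (0 : ℤ) < q := by exact_mod_cast hq
    have hc0 : c = 0 := by
      rcases lt_trichotomy c 0 with hc1 | hc1 | hc1
      · have : (q : ℤ) * c ≤ -q := by nlinarith
        omega
      · exact hc1
      · have : (q : ℤ) ≤ q * c := by nlinarith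
        omega
    rw [hc0, mul_zero] at hc
    omega
  have hcard : F.card ≤ (Finset.Icc ⌈A - R⌉ ⌊A + R⌋).card :=
    card_le_card_of_injOn f hmem hinj
  rw [Int.card_Icc] at hcard
  have hR0 : 0 ≤ R := by positivity
  have h5 : (((⌊A + R⌋ + 1 - ⌈A - R⌉).toNat : ℕ) : ℝ) ≤ 2 * R + 1 := by
    rcases le_or_gt 0 (⌊A + R⌋ + 1 - ⌈A - R⌉) with h6 | h6
    · have h7 : (((⌊A + R⌋ + 1 - ⌈A - R⌉).toNat : ℤ) : ℝ) = ((⌊A + R⌋ + 1 - ⌈A - R⌉ : ℤ) : ℝ) := by
        rw [Int.toNat_of_nonneg h6]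
      have h8 : (((⌊A + R⌋ + 1 - ⌈A - R⌉).toNat : ℕ) : ℝ) = ((⌊A + R⌋ + 1 - ⌈A - R⌉ : ℤ) : ℝ) := by
        rw [← h7]; norm_cast
      rw [h8]; push_cast
      have h9 := Int.floor_le (A + R)
      have h10 := Int.le_ceil (A - R)
      linarith
    · rw [Int.toNat_of_nonpos h6.le]
      norm_num; linarith
  have h11 : (F.card : ℝ) ≤ (((⌊A + R⌋ + 1 - ⌈A - R⌉).toNat : ℕ) : ℝ) := by exact_mod_cast hcard
  rw [hR] at h5
  linarith

/-- counting with a given coprime approximation -/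
theorem interval_count (α : ℝ) (q : ℕ) (h : ℤ) (hq : 0 < q) (hcop : IsCoprime h (q : ℤ))
    (hα : |(q : ℝ) * α - h| ≤ 1 / q) (P : ℕ) (r : ℝ) (hr : 0 ≤ r) (F : Finset ℕ)
    (hF : ∀ p ∈ F, p ≤ P ∧ ∃ o : ℤ, |(p : ℝ) * α - o| ≤ r) :
    (F.card : ℝ) ≤ ((P : ℝ) / q + 1) * (2 * r * q + 3) := by
  classical
  have hqr : (0 : ℝ) < q := by exact_mod_cast hq
  have hmaps : ∀ p ∈ F, p / q ∈ range (P / q + 1) := by
    intro p hp
    rw [mem_range]
    exact Nat.lt_succ_of_le (Nat.div_le_div_right (hF p hp).1)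
  have hc : F.card = ∑ b ∈ range (P / q + 1), (F.filter fun p => p / q = b).card :=
    card_eq_sum_card_fiberwise hmaps
  have hb : ∀ b ∈ range (P / q + 1), (((F.filter fun p => p / q = b).card : ℕ) : ℝ) ≤ 2 * r * q + 3 := by
    intro b _
    have himg : (F.filter fun p => p / q = b).card =
        ((F.filter fun p => p / q = b).image fun p => p % q).card := by
      rw [card_image_of_injOn]
      intro p hp p' hp' hpp
      have hp := (mem_filter.1 hp).2
      have hp' := (mem_filter.1 hp').2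
      have h1 := Nat.div_add_mod p q
      have h2 := Nat.div_add_mod p' q
      rw [hp] at h1
      rw [hp'] at h2
      simp only at hpp
      rw [hpp] at h1
      omega
    rw [himg]
    apply block_count α q h hq hcop hα (q * b) r hr
    intro i hi
    rw [mem_image] at hi
    obtain ⟨p, hp, rfl⟩ := hi
    obtain ⟨hp1, hp2⟩ := mem_filter.1 hp
    refine ⟨Nat.mod_lt _ hq, ?_⟩
    obtain ⟨o, ho⟩ := (hF p hp1).2
    refine ⟨o, ?_⟩
    have h1 := Nat.div_add_mod p q
    rw [hp2] at h1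
    have h2 : ((q * b : ℕ) : ℝ) + ((p % q : ℕ) : ℝ) = (p : ℝ) := by
      have : ((q * b + p % q : ℕ) : ℝ) = (p : ℝ) := by rw [h1]
      push_cast at this ⊢
      exact this
    rw [h2]
    exact ho
  have h3 : (F.card : ℝ) ≤ ∑ b ∈ range (P / q + 1), (2 * r * q + 3) := by
    rw [hc]; push_cast
    exact sum_le_sum hb
  rw [sum_const, card_range, nsmul_eq_mul] at h3
  refine h3.trans (mul_le_mul_of_nonneg_right ?_ (by positivity))
  push_cast
  have : ((P / q : ℕ) : ℝ) ≤ (P : ℝ) / q := Nat.cast_div_le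
  linarith

theorem log3_gt_one : 1 < Real.log 3 := by
  rw [Real.lt_log_iff_exp_lt (by norm_num)]
  have := Real.exp_one_lt_d9
  linarith

/-- **Bohr sets.** -/
theorem bohr_count : ∃ C : ℝ, 0 < C ∧ ∀ P : ℕ, 1 ≤ P → ∀ r : ℝ, 0 ≤ r → ∀ F : Finset ℕ,
    (∀ p ∈ F, p ≤ P ∧ ∃ o : ℤ, |(p : ℝ) * Real.log 2 - o * Real.log 3| ≤ r) →
    (F.card : ℝ) ≤ C * (r * P + (P : ℝ) ^ (12 / 13 : ℝ)) := by
  obtain ⟨c, hc, hm⟩ := measure
  have hl2 : 0 < Real.log 2 := Real.log_pos (by norm_num)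
  have hl3 : 0 < Real.log 3 := Real.log_pos (by norm_num)
  have hl31 := log3_gt_one
  set α : ℝ := Real.log 2 / Real.log 3 with hα
  have hα0 : 0 < α := by positivity
  have hα1 : α < 1 := by
    rw [hα, div_lt_one hl3]; exact Real.log_lt_log (by norm_num) (by norm_num)
  have hl34 : Real.log 3 < 2 := by
    have h : Real.log 3 < Real.log (2 ^ 2) := Real.log_lt_log (by norm_num) (by norm_num)
    rw [Real.log_pow] at h
    have := Real.log_two_lt_d9
    push_cast at h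
    linarith
  set K : ℝ := 2 * 4 ^ 13 / c with hK
  have hK0 : 0 < K := by positivity
  refine ⟨3 * K ^ (1 / 13 : ℝ) + 10, by positivity, ?_⟩
  intro P hP r hr F hF
  have hPr : (1 : ℝ) ≤ P := by exact_mod_cast hP
  obtain ⟨x, hx1, hx2⟩ := Real.exists_rat_abs_sub_le_and_den_le α (n := P) (by omega)
  set q : ℕ := x.den with hq
  set h : ℤ := x.num with hh
  have hq0 : 0 < q := x.den_pos
  have hqr : (0 : ℝ) < q := by exact_mod_cast hq0
  have hq1 : (1 : ℝ) ≤ q := by exact_mod_cast hq0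
  have hqP : (q : ℝ) ≤ P := by exact_mod_cast hx2
  have hxq : (x : ℝ) = (h : ℝ) / q := by
    rw [hh, hq]; exact Rat.cast_def x
  have happ : |(q : ℝ) * α - h| ≤ 1 / ((P : ℝ) + 1) := by
    rw [hxq] at hx1
    have e : (q : ℝ) * α - h = q * (α - h / q) := by field_simp
    rw [e, abs_mul, abs_of_pos hqr]
    calc (q : ℝ) * |α - h / q| ≤ q * (1 / (((P : ℝ) + 1) * q)) :=
          mul_le_mul_of_nonneg_left hx1 hqr.le
      _ = 1 / ((P : ℝ) + 1) := by field_simp
  have hcop : IsCoprime h (q : ℤ) := by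
    rw [Int.isCoprime_iff_gcd_eq_one]
    have := x.reduced
    rw [hh, hq]
    rw [Int.gcd_eq_natAbs]
    simpa using this
  have h1q : |(q : ℝ) * α - h| ≤ 1 / q :=
    happ.trans (one_div_le_one_div_of_le hqr (by linarith))
  have hcnt := interval_count α q h hq0 hcop h1q P r hr F (by
    intro p hp
    obtain ⟨hp1, o, ho⟩ := hF p hp
    refine ⟨hp1, o, ?_⟩
    have e : (p : ℝ) * α - o = (p * Real.log 2 - o * Real.log 3) / Real.log 3 := by
      rw [hα]; field_simp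
    rw [e, abs_div, abs_of_pos hl3, div_le_iff₀ hl3]
    nlinarith)
  -- lower bound for q
  have hmq := hm (q : ℤ) (-h) (Or.inl (by exact_mod_cast hq0.ne'))
  have e2 : ((q : ℤ) : ℝ) * Real.log 2 + ((-h : ℤ) : ℝ) * Real.log 3 = Real.log 3 * (q * α - h) := by
    rw [hα]; push_cast; field_simp; ring
  rw [e2, abs_mul, abs_of_pos hl3] at hmq
  have hh4 : ((|(q : ℤ)| + |-h| : ℤ) : ℝ) ≤ 4 * q := by
    have h5 : |(h : ℝ)| ≤ 3 * q := by
      have h6 : |(h : ℝ)| ≤ |(q : ℝ) * α| + |(q : ℝ) * α - h| := by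
        have e7 : (h : ℝ) = (q : ℝ) * α - ((q : ℝ) * α - h) := by ring
        calc |(h : ℝ)| = |(q : ℝ) * α - ((q : ℝ) * α - h)| := by rw [← e7]
          _ ≤ _ := abs_sub _ _
      have h7 : |(q : ℝ) * α| ≤ q := by
        rw [abs_of_pos (by positivity)]; nlinarith
      have h8 : 1 / ((P : ℝ) + 1) ≤ 1 := by rw [div_le_one (by positivity)]; linarith
      linarith
    push_cast
    rw [abs_neg, abs_of_nonneg hqr.le]
    linarith
  have hh0 : (0 : ℝ) ≤ ((|(q : ℤ)| + |-h| : ℤ) : ℝ) := by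
    have : (0 : ℤ) ≤ |(q : ℤ)| + |-h| := by positivity
    exact_mod_cast this
  have hcq : c * P ≤ 2 * 4 ^ 13 * (q : ℝ) ^ 13 := by
    have h9 : c ≤ (4 * q) ^ 13 * (2 * (1 / P)) := by
      refine hmq.trans ?_
      apply mul_le_mul (pow_le_pow_left₀ hh0 hh4 13) _ (by positivity) (by positivity)
      apply mul_le_mul hl34.le _ (abs_nonneg _) (by norm_num)
      exact happ.trans (one_div_le_one_div_of_le (by linarith) (by linarith))
    calc c * P ≤ (4 * (q : ℝ)) ^ 13 * (2 * (1 / P)) * P :=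
          mul_le_mul_of_nonneg_right h9 (by linarith)
      _ = 2 * 4 ^ 13 * (q : ℝ) ^ 13 := by field_simp
  have hPq : (P : ℝ) / q ≤ K ^ (1 / 13 : ℝ) * (P : ℝ) ^ (12 / 13 : ℝ) := by
    have h10 : (P : ℝ) ≤ K * (q : ℝ) ^ 13 := by
      rw [hK, div_mul_eq_mul_div, le_div_iff₀ hc]; linarith
    have h11 : (P : ℝ) ^ (1 / 13 : ℝ) ≤ K ^ (1 / 13 : ℝ) * q := by
      have h12 := Real.rpow_le_rpow (by linarith) h10 (show (0 : ℝ) ≤ 1 / 13 by norm_num)
      rw [Real.mul_rpow hK0.le (by positivity), ← Real.rpow_natCast, ← Real.rpow_mul hqr.le] at h12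
      norm_num at h12 ⊢
      exact h12
    rw [div_le_iff₀ hqr]
    have e13 : (P : ℝ) = (P : ℝ) ^ (12 / 13 : ℝ) * (P : ℝ) ^ (1 / 13 : ℝ) := by
      rw [← Real.rpow_add (by linarith)]; norm_num
    calc (P : ℝ) = (P : ℝ) ^ (12 / 13 : ℝ) * (P : ℝ) ^ (1 / 13 : ℝ) := e13
      _ ≤ (P : ℝ) ^ (12 / 13 : ℝ) * (K ^ (1 / 13 : ℝ) * q) :=
          mul_le_mul_of_nonneg_left h11 (by positivity)
      _ = _ := by ring
  have hP12 : (1 : ℝ) ≤ (P : ℝ) ^ (12 / 13 : ℝ) := Real.one_le_rpow hPr (by norm_num)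
  have hexp : ((P : ℝ) / q + 1) * (2 * r * q + 3) = 2 * r * P + 2 * r * q + 3 * (P / q) + 3 := by
    field_simp; ring
  rw [hexp] at hcnt
  have hrP : 0 ≤ r * P := by positivity
  have hrq : r * q ≤ r * P := mul_le_mul_of_nonneg_left hqP hr
  have hKp : 0 ≤ K ^ (1 / 13 : ℝ) := by positivity
  have hfin : 0 ≤ K ^ (1 / 13 : ℝ) * (r * P) := by positivity
  nlinarith

/-- a lower bound for the exponent -/
theorem beta_gt : 12 / 13 < beta := by
  unfold beta
  have hl2 : 0 < Real.log 2 := Real.log_pos (by norm_num)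
  have hl3 : 0 < Real.log 3 := Real.log_pos (by norm_num)
  have h1 : Real.log 2 / Real.log 3 < 16 / 25 := by
    rw [div_lt_div_iff₀ hl3 (by norm_num)]
    have h : Real.log ((2 : ℝ) ^ 25) < Real.log ((3 : ℝ) ^ 16) :=
      Real.log_lt_log (by positivity) (by norm_num)
    rw [Real.log_pow, Real.log_pow] at h
    push_cast at h
    linarith
  have h0 : (2 : ℝ)⁻¹ ≤ Real.log 2 / Real.log 3 := by
    rw [inv_eq_one_div, div_le_div_iff₀ (by norm_num) hl3]
    have h : Real.log 3 < Real.log (2 ^ 2) := Real.log_lt_log (by norm_num) (by norm_num)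
    rw [Real.log_pow] at h
    push_cast at h
    linarith
  have hanti := Real.binEntropy_strictAntiOn (a := Real.log 2 / Real.log 3) (b := 16 / 25)
    ⟨h0, by linarith⟩ ⟨by norm_num, by norm_num⟩ h1
  rw [lt_div_iff₀ hl2]
  refine lt_trans ?_ hanti
  rw [Real.binEntropy_eq_negMulLog_add_negMulLog_one_sub]
  unfold Real.negMulLog
  have e1 : Real.log (16 / 25) = 4 * Real.log 2 - 2 * Real.log 5 := by
    rw [show (16 : ℝ) / 25 = 2 ^ 4 / 5 ^ 2 by norm_num, Real.log_div (by norm_num) (by norm_num),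
      Real.log_pow, Real.log_pow]; push_cast; ring
  have e2 : Real.log (1 - 16 / 25) = 2 * Real.log 3 - 2 * Real.log 5 := by
    rw [show (1 : ℝ) - 16 / 25 = 3 ^ 2 / 5 ^ 2 by norm_num, Real.log_div (by norm_num) (by norm_num),
      Real.log_pow, Real.log_pow]; push_cast; ring
  rw [e1, e2]
  have h5 : 65 / 28 * Real.log 2 ≤ Real.log 5 := by
    have h : Real.log ((2 : ℝ) ^ 65) ≤ Real.log ((5 : ℝ) ^ 28) :=
      Real.log_le_log (by positivity) (by norm_num)
    rw [Real.log_pow, Real.log_pow] at h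
    push_cast at h
    linarith
  have h3 : Real.log 3 ≤ 8 / 5 * Real.log 2 := by
    have h : Real.log ((3 : ℝ) ^ 5) ≤ Real.log ((2 : ℝ) ^ 8) :=
      Real.log_le_log (by positivity) (by norm_num)
    rw [Real.log_pow, Real.log_pow] at h
    push_cast at h
    linarith
  linarith

end Pool.Agent.H319R2
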