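import Mathlib

/-!
# The 5x+1 map: integers whose orbit descends quickly have density zero

Elementary lemmas: the affine identity, the exponential moment of the parity vector
(Terras), the bound for the number of integers that make a fast descent and the bound for the
number of backward paths that stay above a level.
-/

set_option autoImplicit false

namespace Pool.Agent.H319R2.Five

open Finset

/-- The 5x+1 map. -/
def T (m : ℕ) : ℕ := if m % 2 = 0 then m / 2 else (5 * m + 1) / 2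

theorem T_even {m : ℕ} (h : m % 2 = 0) : T m = m / 2 := by simp [T, h]

theorem T_odd {m : ℕ} (h : m % 2 = 1) : T m = (5 * m + 1) / 2 := by simp [T, h]

theorem le_two_T (m : ℕ) : m ≤ 2 * T m := by
  rcases Nat.mod_two_eq_zero_or_one m with h | h
  · rw [T_even h]; omega
  · rw [T_odd h]; omega

/-- number of odd terms among the first `j` iterates -/
def oc (n j : ℕ) : ℕ := ∑ i ∈ range j, (T^[i] n) % 2

theorem oc_le (n j : ℕ) : oc n j ≤ j := by
  unfold oc
  calc ∑ i ∈ range j, (T^[i] n) % 2 ≤ ∑ i ∈ range j, 1 :=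
        sum_le_sum fun i _ => by omega
    _ = j := by simp

theorem oc_zero (n : ℕ) : oc n 0 = 0 := by simp [oc]

theorem oc_succ (n j : ℕ) : oc n (j + 1) = oc n j + (T^[j] n) % 2 := by
  simp [oc, sum_range_succ]

theorem oc_succ' (n j : ℕ) : oc n (j + 1) = oc (T n) j + n % 2 := by
  simp [oc, sum_range_succ']

/-- The additive part. -/
def bb (n : ℕ) : ℕ → ℕ
  | 0 => 0
  | j + 1 => if T^[j] n % 2 = 0 then bb n j else 5 * bb n j + 2 ^ j

theorem ident (n j : ℕ) : 2 ^ j * T^[j] n = 5 ^ oc n j * n + bb n j := by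
  induction j with
  | zero => simp [oc_zero, bb]
  | succ j ih =>
    rw [Function.iterate_succ_apply', oc_succ]
    rcases Nat.mod_two_eq_zero_or_one (T^[j] n) with h | h
    · rw [T_even h, h]
      simp only [bb, h, if_true, add_zero]
      rw [← ih, pow_succ, mul_assoc, Nat.mul_div_cancel' (Nat.dvd_of_mod_eq_zero h)]
    · rw [T_odd h, h]
      simp only [bb, h, one_ne_zero, if_false]
      have h2 : 2 * ((5 * T^[j] n + 1) / 2) = 5 * T^[j] n + 1 := by omega
      rw [pow_succ, mul_assoc, h2, mul_add, mul_left_comm, ih]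
      ring

/-- Backward paths above a level: the additive part is small. -/
theorem bb_le {u N n : ℕ} (hu : 0 < u) (hn : n ≤ N) :
    ∀ t : ℕ, t ≤ u → (∀ s < t, u ≤ T^[s] n) → u * bb n t ≤ 5 ^ oc n t * (N * t) := by
  intro t
  induction t with
  | zero => intro _ _; simp [bb]
  | succ t ih =>
    intro htu hs
    have ih' := ih (by omega) (fun s hs' => hs s (by omega))
    rw [oc_succ]
    rcases Nat.mod_two_eq_zero_or_one (T^[t] n) with h | h
    · simp only [bb, h, if_true, add_zero]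
      refine ih'.trans ?_
      gcongr
      omega
    · simp only [bb, h, one_ne_zero, if_false]
      have h1 : bb n t ≤ 5 ^ oc n t * N := by
        have h2 : u * bb n t ≤ u * (5 ^ oc n t * N) := by
          calc u * bb n t ≤ 5 ^ oc n t * (N * t) := ih'
            _ ≤ 5 ^ oc n t * (N * u) := by gcongr; omega
            _ = u * (5 ^ oc n t * N) := by ring
        exact Nat.le_of_mul_le_mul_left h2 hu
      have h3 : u * 2 ^ t ≤ 5 ^ oc n t * N + 5 ^ oc n t * N := by
        calc u * 2 ^ t ≤ T^[t] n * 2 ^ t := by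
              have := hs t (by omega)
              gcongr
          _ = 2 ^ t * T^[t] n := by ring
          _ = 5 ^ oc n t * n + bb n t := ident n t
          _ ≤ 5 ^ oc n t * N + 5 ^ oc n t * N := by gcongr
      calc u * (5 * bb n t + 2 ^ t) = 5 * (u * bb n t) + u * 2 ^ t := by ring
        _ ≤ 5 * (5 ^ oc n t * (N * t)) + (5 ^ oc n t * N + 5 ^ oc n t * N) := by gcongr
        _ ≤ 5 ^ (oc n t + 1) * (N * (t + 1)) := by
            rw [pow_succ]
            have : 0 ≤ 5 ^ oc n t * N := Nat.zero_le _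
            nlinarith [this]

/-- Reconstruction of the start from the end. -/
theorem recon {u N n t z : ℕ} (hu : 0 < u) (hn : n ≤ N) (htu : t ≤ u)
    (hs : ∀ s < t, u ≤ T^[s] n) (hz : T^[t] n = z) :
    n = 2 ^ t * z / 5 ^ oc n t - bb n t / 5 ^ oc n t ∧ bb n t / 5 ^ oc n t ≤ N * t / u := by
  constructor
  · rw [← hz, ident, Nat.mul_add_div (by positivity)]
    omega
  · rw [Nat.le_div_iff_mul_le hu]
    have h1 := bb_le hu hn t htu hs
    have h2 : bb n t / 5 ^ oc n t * 5 ^ oc n t ≤ bb n t := Nat.div_mul_le_self _ _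
    have h5 : 0 < 5 ^ oc n t := by positivity
    have h3 : 5 ^ oc n t * (bb n t / 5 ^ oc n t * u) ≤ 5 ^ oc n t * (N * t) := by
      calc 5 ^ oc n t * (bb n t / 5 ^ oc n t * u) = u * (bb n t / 5 ^ oc n t * 5 ^ oc n t) := by
            ring
        _ ≤ u * bb n t := by gcongr
        _ ≤ _ := h1
    exact Nat.le_of_mul_le_mul_left h3 h5

/-! ### Exponential moment -/

/-- multiplicative weight: `α` for an even term, `β` for an odd term -/
noncomputable def W (α β : ℝ) : ℕ → ℕ → ℝ
  | 0, _ => 1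
  | j + 1, n => (if n % 2 = 0 then α else β) * W α β j (T n)

theorem W_pos {α β : ℝ} (hα : 0 < α) (hβ : 0 < β) (j : ℕ) : ∀ n, 0 < W α β j n := by
  induction j with
  | zero => intro n; simp [W]
  | succ j ih =>
    intro n
    simp only [W]
    split_ifs
    · exact mul_pos hα (ih _)
    · exact mul_pos hβ (ih _)

theorem W_period (α β : ℝ) (j : ℕ) : ∀ n k, W α β j (n + 2 ^ j * k) = W α β j n := by
  induction j with
  | zero => intro n k; simp [W]
  | succ j ih =>
    intro n k
    have hpar : (n + 2 ^ (j + 1) * k) % 2 = n % 2 := by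
      rw [pow_succ, mul_assoc, mul_left_comm, Nat.add_mul_mod_self_left]
    simp only [W, hpar]
    congr 1
    rcases Nat.mod_two_eq_zero_or_one n with h | h
    · have h' : (n + 2 ^ (j + 1) * k) % 2 = 0 := by rw [hpar, h]
      rw [T_even h, T_even h']
      have : (n + 2 ^ (j + 1) * k) / 2 = n / 2 + 2 ^ j * k := by
        rw [pow_succ, mul_assoc, mul_left_comm, Nat.add_mul_div_left _ _ (by norm_num)]
      rw [this, ih]
    · have h' : (n + 2 ^ (j + 1) * k) % 2 = 1 := by rw [hpar, h]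
      rw [T_odd h, T_odd h']
      have : (5 * (n + 2 ^ (j + 1) * k) + 1) / 2 = (5 * n + 1) / 2 + 2 ^ j * (5 * k) := by
        have : 5 * (n + 2 ^ (j + 1) * k) + 1 = 5 * n + 1 + 2 * (2 ^ j * (5 * k)) := by
          rw [pow_succ]; ring
        rw [this, Nat.add_mul_div_left _ _ (by norm_num)]
      rw [this, ih]

theorem W_mod (α β : ℝ) (j n : ℕ) : W α β j (n % 2 ^ j) = W α β j n := by
  conv_rhs => rw [← Nat.mod_add_div n (2 ^ j)]
  rw [W_period]

theorem sum_range_two_mul {M : Type*} [AddCommMonoid M] (f : ℕ → M) (m : ℕ) :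
    ∑ i ∈ range (2 * m), f i = ∑ i ∈ range m, (f (2 * i) + f (2 * i + 1)) := by
  induction m with
  | zero => simp
  | succ m ih =>
    rw [sum_range_succ, ← ih, show 2 * (m + 1) = 2 * m + 1 + 1 by ring, sum_range_succ,
      sum_range_succ, add_assoc]

theorem sum_affine (α β : ℝ) (j : ℕ) :
    ∑ n ∈ range (2 ^ j), W α β j (5 * n + 3) = ∑ n ∈ range (2 ^ j), W α β j n := by
  refine sum_bij (fun n _ => (5 * n + 3) % 2 ^ j) ?_ ?_ ?_ ?_
  · intro n _
    exact mem_range.2 (Nat.mod_lt _ (by positivity))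
  · intro a ha b hb hab
    have h1 : (5 * a + 3) ≡ (5 * b + 3) [MOD 2 ^ j] := hab
    have h2 : 5 * a ≡ 5 * b [MOD 2 ^ j] := Nat.ModEq.add_right_cancel' 3 h1
    have hc : Nat.gcd (2 ^ j) 5 = 1 := by
      have : Nat.Coprime 2 5 := by norm_num
      exact Nat.Coprime.pow_left j this
    have h3 : a ≡ b [MOD 2 ^ j] := Nat.ModEq.cancel_left_of_coprime hc h2
    have ha' := mem_range.1 ha
    have hb' := mem_range.1 hb
    have := h3
    unfold Nat.ModEq at this
    rwa [Nat.mod_eq_of_lt ha', Nat.mod_eq_of_lt hb'] at this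
  · -- surjective: finite injective
    intro b hb
    have hinj : Set.InjOn (fun n => (5 * n + 3) % 2 ^ j) (range (2 ^ j) : Set ℕ) := by
      intro a ha b hb hab
      have h1 : (5 * a + 3) ≡ (5 * b + 3) [MOD 2 ^ j] := hab
      have h2 : 5 * a ≡ 5 * b [MOD 2 ^ j] := Nat.ModEq.add_right_cancel' 3 h1
      have hc : Nat.gcd (2 ^ j) 5 = 1 := by
        have : Nat.Coprime 2 5 := by norm_num
        exact Nat.Coprime.pow_left j this
      have h3 : a ≡ b [MOD 2 ^ j] := Nat.ModEq.cancel_left_of_coprime hc h2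
      have ha' := mem_range.1 (mem_coe.1 ha)
      have hb' := mem_range.1 (mem_coe.1 hb)
      have := h3
      unfold Nat.ModEq at this
      rwa [Nat.mod_eq_of_lt ha', Nat.mod_eq_of_lt hb'] at this
    have hsurj := Finset.surj_on_of_inj_on_of_card_le
      (s := range (2 ^ j)) (t := range (2 ^ j)) (fun n _ => (5 * n + 3) % 2 ^ j)
      (fun n _ => mem_range.2 (Nat.mod_lt _ (by positivity)))
      (fun a b ha hb hab => hinj (mem_coe.2 ha) (mem_coe.2 hb) hab) le_rfl b hb
    obtain ⟨a, ha, hab⟩ := hsurj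
    exact ⟨a, ha, hab.symm⟩
  · intro n _
    exact (W_mod α β j _).symm

theorem W_sum (α β : ℝ) (j : ℕ) : ∑ n ∈ range (2 ^ j), W α β j n = (α + β) ^ j := by
  induction j with
  | zero => simp [W]
  | succ j ih =>
    rw [pow_succ' 2, sum_range_two_mul]
    have h : ∀ i ∈ range (2 ^ j), W α β (j + 1) (2 * i) + W α β (j + 1) (2 * i + 1)
        = α * W α β j i + β * W α β j (5 * i + 3) := by
      intro i _
      have h1 : (2 * i) % 2 = 0 := by omega
      have h2 : (2 * i + 1) % 2 = 1 := by omega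
      have e1 : T (2 * i) = i := by rw [T_even h1]; omega
      have e2 : T (2 * i + 1) = 5 * i + 3 := by rw [T_odd h2]; omega
      simp only [W, h1, h2, e1, e2, if_true, one_ne_zero, if_false]
    rw [sum_congr rfl h, sum_add_distrib, ← mul_sum, ← mul_sum, sum_affine, ih]
    ring

theorem W_sum_mul (α β : ℝ) (j q : ℕ) :
    ∑ n ∈ range (2 ^ j * q), W α β j n = q * (α + β) ^ j := by
  induction q with
  | zero => simp
  | succ q ih =>
    rw [mul_add, mul_one, sum_range_add, ih]
    have : ∑ x ∈ range (2 ^ j), W α β j (2 ^ j * q + x) = (α + β) ^ j := by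
      rw [← W_sum]
      refine sum_congr rfl fun x _ => ?_
      rw [add_comm, W_period]
    rw [this]
    push_cast
    ring

theorem W_sum_le {α β : ℝ} (hα : 0 < α) (hβ : 0 < β) (hab : α + β ≤ 2) {j u : ℕ}
    (hu : 2 ^ j ≤ u) : ∑ n ∈ range u, W α β j n ≤ 2 * u := by
  have hpos : (0:ℝ) < 2 ^ j := by positivity
  set q := u / 2 ^ j + 1 with hq
  have h1 : u ≤ 2 ^ j * q := by
    rw [hq, mul_add, mul_one]
    have := Nat.lt_div_mul_add (a := u) (b := 2 ^ j) (by positivity)
    nlinarith [this]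
  have h2 : 2 ^ j * q ≤ 2 * u := by
    rw [hq, mul_add, mul_one]
    have := Nat.mul_div_le u (2 ^ j)
    omega
  calc ∑ n ∈ range u, W α β j n ≤ ∑ n ∈ range (2 ^ j * q), W α β j n := by
        refine sum_le_sum_of_subset_of_nonneg (range_mono h1) fun i _ _ => (W_pos hα hβ j i).le
    _ = q * (α + β) ^ j := W_sum_mul α β j q
    _ ≤ q * 2 ^ j := by
        have : (α + β) ^ j ≤ 2 ^ j := pow_le_pow_left₀ (by positivity) hab j
        gcongr
    _ = ((2 ^ j * q : ℕ) : ℝ) := by push_cast; ring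
    _ ≤ ((2 * u : ℕ) : ℝ) := by exact_mod_cast h2
    _ = 2 * u := by push_cast; ring

theorem W_pow (α β : ℝ) (hα4 : α ^ 4 = 2) (hβ4 : β ^ 4 = 2 / 5) (j : ℕ) :
    ∀ n, (W α β j n) ^ 4 * 5 ^ oc n j = 2 ^ j := by
  induction j with
  | zero => intro n; simp [W, oc_zero]
  | succ j ih =>
    intro n
    rw [oc_succ']
    rcases Nat.mod_two_eq_zero_or_one n with h | h
    · simp only [W, h, if_true, mul_pow, hα4, add_zero]
      rw [mul_assoc, ih, pow_succ]; ring
    · simp only [W, h, one_ne_zero, if_false, mul_pow, hβ4]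
      rw [pow_succ 5]
      have := ih (T n)
      calc 2 / 5 * W α β j (T n) ^ 4 * (5 ^ oc (T n) j * 5)
          = 2 * (W α β j (T n) ^ 4 * 5 ^ oc (T n) j) := by ring
        _ = 2 ^ (j + 1) := by rw [this, pow_succ]; ring

/-- A fast descent forces a large weight. -/
theorem W_gt {α β : ℝ} (hα : 0 < α) (hβ : 0 < β) (hα4 : α ^ 4 = 2) (hβ4 : β ^ 4 = 2 / 5)
    {z v Q j : ℕ} (h2z : 2 * Q ^ 4 * v ≤ 2 * z) (hTz : T^[j] z < v) :
    (Q : ℝ) < W α β j z := by
  have h1 : 5 ^ oc z j * z ≤ 2 ^ j * T^[j] z := by rw [ident]; omega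
  have h2 : 5 ^ oc z j * z < 2 ^ j * v :=
    lt_of_le_of_lt h1 (Nat.mul_lt_mul_of_pos_left hTz (by positivity))
  have hv : 0 < v := by omega
  have h3 : 5 ^ oc z j * Q ^ 4 < 2 ^ j := by
    have h4 : 5 ^ oc z j * Q ^ 4 * v < 2 ^ j * v := by
      calc 5 ^ oc z j * Q ^ 4 * v = 5 ^ oc z j * (Q ^ 4 * v) := by ring
        _ ≤ 5 ^ oc z j * z := by
            gcongr
            have : 2 * (Q ^ 4 * v) ≤ 2 * z := by rw [← mul_assoc]; exact h2z
            omega
        _ < 2 ^ j * v := h2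
    exact Nat.lt_of_mul_lt_mul_right h4
  have h5 : (Q:ℝ) ^ 4 < W α β j z ^ 4 := by
    have h6 := W_pow α β hα4 hβ4 j z
    have h7 : (5:ℝ) ^ oc z j * (Q:ℝ) ^ 4 < 2 ^ j := by exact_mod_cast h3
    have h8 : (0:ℝ) < 5 ^ oc z j := by positivity
    rw [← h6, mul_comm (W α β j z ^ 4)] at h7
    exact lt_of_mul_lt_mul_left h7 h8.le
  exact lt_of_pow_lt_pow_left₀ 4 (W_pos hα hβ j z).le h5

open Classical in
/-- The set of fast descents. -/
noncomputable def Z (u v J : ℕ) : Finset ℕ :=
  (range u).filter fun z => u ≤ 2 * z ∧ ∃ j ∈ range (J + 1), T^[j] z < v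

theorem card_Z {u v J Q : ℕ} (hQ : 0 < Q) (huv : u = 2 * Q ^ 4 * v) (hJ : 2 ^ J ≤ u) :
    ((Z u v J).card : ℝ) ≤ (J + 1) * (2 * u / Q) := by
  -- the weights
  obtain ⟨α, hα, hα4⟩ : ∃ α : ℝ, 0 < α ∧ α ^ 4 = 2 :=
    ⟨(2:ℝ) ^ (1 / 4 : ℝ), by positivity, by
      rw [← Real.rpow_natCast, ← Real.rpow_mul (by norm_num)]; norm_num⟩
  obtain ⟨β, hβ, hβ4⟩ : ∃ β : ℝ, 0 < β ∧ β ^ 4 = 2 / 5 :=
    ⟨(2 / 5:ℝ) ^ (1 / 4 : ℝ), by positivity, by
      rw [← Real.rpow_natCast, ← Real.rpow_mul (by norm_num)]; norm_num⟩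
  have hab : α + β ≤ 2 := by
    have h1 : α ≤ 1.19 := by
      by_contra hcon
      push Not at hcon
      have : (1.19:ℝ) ^ 4 < α ^ 4 := pow_lt_pow_left₀ hcon (by norm_num) (by norm_num)
      rw [hα4] at this
      norm_num at this
    have h2 : β ≤ 0.8 := by
      by_contra hcon
      push Not at hcon
      have : (0.8:ℝ) ^ 4 < β ^ 4 := pow_lt_pow_left₀ hcon (by norm_num) (by norm_num)
      rw [hβ4] at this
      norm_num at this
    linarith
  have hQ' : (0:ℝ) < Q := by exact_mod_cast hQ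
  -- cover by the weights
  have hcover : Z u v J ⊆ (range (J + 1)).biUnion fun j =>
      (range u).filter fun z => (Q:ℝ) < W α β j z := by
    intro z hz
    simp only [Z, mem_filter, mem_range] at hz
    obtain ⟨hzu, hz2, j, hj, hTz⟩ := hz
    simp only [mem_biUnion, mem_filter, mem_range]
    exact ⟨j, hj, hzu, W_gt hα hβ hα4 hβ4 (by rw [← huv]; exact hz2) hTz⟩
  have hcard : ∀ j ∈ range (J + 1),
      ((((range u).filter fun z => (Q:ℝ) < W α β j z).card : ℕ) : ℝ) ≤ 2 * u / Q := by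
    intro j hj
    rw [le_div_iff₀ hQ']
    have hju : 2 ^ j ≤ u := le_trans (Nat.pow_le_pow_right (by norm_num)
      (by have := mem_range.1 hj; omega)) hJ
    calc ((((range u).filter fun z => (Q:ℝ) < W α β j z).card : ℕ) : ℝ) * Q
        = ∑ z ∈ (range u).filter fun z => (Q:ℝ) < W α β j z, (Q:ℝ) := by
          rw [sum_const, nsmul_eq_mul]
      _ ≤ ∑ z ∈ (range u).filter fun z => (Q:ℝ) < W α β j z, W α β j z :=
          sum_le_sum fun z hz => (mem_filter.1 hz).2.le
      _ ≤ ∑ z ∈ range u, W α β j z :=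
          sum_le_sum_of_subset_of_nonneg (filter_subset _ _) fun i _ _ => (W_pos hα hβ j i).le
      _ ≤ 2 * u := W_sum_le hα hβ hab hju
  calc ((Z u v J).card : ℝ)
      ≤ (((range (J + 1)).biUnion fun j =>
          (range u).filter fun z => (Q:ℝ) < W α β j z).card : ℝ) := by
        exact_mod_cast card_le_card hcover
    _ ≤ ((∑ j ∈ range (J + 1), ((range u).filter fun z => (Q:ℝ) < W α β j z).card : ℕ) : ℝ) := by
        exact_mod_cast card_biUnion_le
    _ = ∑ j ∈ range (J + 1), ((((range u).filter fun z => (Q:ℝ) < W α β j z).card : ℕ) : ℝ) := by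
        push_cast; rfl
    _ ≤ ∑ j ∈ range (J + 1), (2 * u / Q : ℝ) := sum_le_sum hcard
    _ = (J + 1) * (2 * u / Q) := by simp

end Pool.Agent.H319R2.Five
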