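import Pool.Agent.H319R2.Five1

set_option autoImplicit false

namespace Pool.Agent.H319R2.Five

open Finset

/-- The starting values below `N` whose orbit makes a fast descent `u → v` at its first
passage below `u`, at a time `≤ Tm`. -/
theorem card_S {N u v J Q Tm : ℕ} (hQ : 0 < Q) (huv : u = 2 * Q ^ 4 * v) (hu : 0 < u)
    (huN : u ≤ N)
    (hJ : 2 ^ J ≤ u) (hJT : J ≤ Tm) (hTu : Tm ≤ u) (S : Finset ℕ)
    (hS : ∀ n ∈ S, n ≤ N ∧ ∃ t ≤ Tm, (∀ s < t, u ≤ T^[s] n) ∧ T^[t] n ∈ Z u v J) :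
    (S.card : ℝ) ≤ 2 * N * (Tm + 1) ^ 4 / Q := by
  classical
  have hQ' : (0:ℝ) < Q := by exact_mod_cast hQ
  have hu' : (0:ℝ) < u := by exact_mod_cast hu
  set g : ℕ × ℕ × ℕ × ℕ → ℕ := fun p => 2 ^ p.2.1 * p.1 / 5 ^ p.2.2.1 - p.2.2.2 with hg
  have hsub : S ⊆ (Z u v J ×ˢ range (Tm + 1) ×ˢ range (Tm + 1) ×ˢ range (N * Tm / u + 1)).image g := by
    intro n hn
    obtain ⟨hnN, t, ht, hs, hz⟩ := hS n hn
    obtain ⟨h1, h2⟩ := recon hu hnN (ht.trans hTu) hs rfl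
    refine mem_image.2 ⟨(T^[t] n, t, oc n t, bb n t / 5 ^ oc n t), ?_, h1.symm⟩
    simp only [mem_product, mem_range]
    refine ⟨hz, by omega, ?_, ?_⟩
    · have := oc_le n t; omega
    · have : N * t / u ≤ N * Tm / u := Nat.div_le_div_right (by gcongr)
      omega
  have hcard : S.card ≤ (Z u v J).card * ((Tm + 1) * ((Tm + 1) * (N * Tm / u + 1))) := by
    refine (card_le_card hsub).trans (card_image_le.trans ?_)
    simp [card_product]
  have hZ := card_Z hQ huv hJ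
  have h1 : ((N * Tm / u : ℕ) : ℝ) ≤ N * Tm / u := by
    have := @Nat.cast_div_le ℝ _ _ _ (N * Tm) u
    push_cast at this
    exact this
  have h2 : (u:ℝ) ≤ N := by exact_mod_cast huN
  have h3 : (J:ℝ) ≤ Tm := by exact_mod_cast hJT
  calc (S.card : ℝ)
      ≤ (((Z u v J).card * ((Tm + 1) * ((Tm + 1) * (N * Tm / u + 1))) : ℕ) : ℝ) := by
        exact_mod_cast hcard
    _ = (Z u v J).card * ((Tm + 1) * ((Tm + 1) * (((N * Tm / u : ℕ) : ℝ) + 1))) := by
        push_cast; ring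
    _ ≤ ((J + 1) * (2 * u / Q)) * ((Tm + 1) * ((Tm + 1) * (N * Tm / u + 1))) := by
        gcongr
    _ = 2 * (J + 1) * (Tm + 1) ^ 2 * (N * Tm + u) / Q := by
        field_simp
    _ ≤ 2 * (Tm + 1) * (Tm + 1) ^ 2 * (N * Tm + N) / Q := by
        gcongr
    _ = 2 * N * (Tm + 1) ^ 4 / Q := by ring

/-- The pigeonhole step. -/
theorem exists_fast {I J Tm n : ℕ} (u : ℕ → ℕ) (hI : 0 < I) (hJ : Tm / I ≤ J)
    (hanti : ∀ i < I, u (i + 1) ≤ u i) (hn : ∀ i ≤ I, u i ≤ n)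
    (hend : ∃ k ≤ Tm, T^[k] n < u I) :
    ∃ i < I, ∃ t ≤ Tm, (∀ s < t, u i ≤ T^[s] n) ∧ T^[t] n ∈ Z (u i) (u (i + 1)) J := by
  classical
  obtain ⟨k, hk, hkI⟩ := hend
  have hmono : ∀ i ≤ I, u I ≤ u i := by
    intro i hi
    induction hi using Nat.decreasingInduction with
    | self => exact le_rfl
    | of_succ i hi ih => exact ih.trans (hanti i hi)
  have hex : ∀ i, i ≤ I → ∃ t, T^[t] n < u i := fun i hi => ⟨k, lt_of_lt_of_le hkI (hmono i hi)⟩
  set τ : ℕ → ℕ := fun i => if h : i ≤ I then Nat.find (hex i h) else 0 with hτ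
  have hτ1 : ∀ i, i ≤ I → T^[τ i] n < u i := by
    intro i hi
    simp only [hτ, hi, dite_true]
    exact Nat.find_spec (hex i hi)
  have hτ2 : ∀ i, i ≤ I → ∀ s < τ i, u i ≤ T^[s] n := by
    intro i hi s hs
    simp only [hτ, hi, dite_true] at hs
    exact not_lt.1 (Nat.find_min (hex i hi) hs)
  have hτ3 : ∀ i, i ≤ I → τ i ≤ k := by
    intro i hi
    by_contra hcon
    push Not at hcon
    have := hτ2 i hi k hcon
    exact absurd (lt_of_lt_of_le hkI (hmono i hi)) (not_lt.2 this)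
  -- pigeonhole
  have hpig : ∃ i < I, τ (i + 1) ≤ τ i + J := by
    by_contra hcon
    push Not at hcon
    have hgrow : ∀ i, i ≤ I → i * (J + 1) ≤ τ i := by
      intro i
      induction i with
      | zero => intro _; simp
      | succ i ih =>
        intro hi
        have h1 := ih (by omega)
        have h2 := hcon i (by omega)
        rw [Nat.succ_mul]
        omega
    have h1 := hgrow I le_rfl
    have h2 := hτ3 I le_rfl
    have h3 : Tm < I * (Tm / I + 1) := by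
      have := Nat.lt_mul_div_succ Tm hI
      simpa using this
    have h4 : I * (Tm / I + 1) ≤ I * (J + 1) := by gcongr
    omega
  obtain ⟨i, hi, hpi⟩ := hpig
  refine ⟨i, hi, τ i, (hτ3 i hi.le).trans hk, hτ2 i hi.le, ?_⟩
  have hpos : 0 < τ i := by
    by_contra hcon
    have h0 : τ i = 0 := by omega
    have := hτ1 i hi.le
    rw [h0] at this
    exact absurd this (not_lt.2 (hn i hi.le))
  have hle : τ i ≤ τ (i + 1) := by
    by_contra hcon
    push Not at hcon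
    have h1 := hτ2 i hi.le _ hcon
    have h2 := hτ1 (i + 1) hi
    have h3 := hanti i hi
    omega
  simp only [Z, mem_filter, mem_range]
  refine ⟨hτ1 i hi.le, ?_, τ (i + 1) - τ i, by omega, ?_⟩
  · have h1 := hτ2 i hi.le (τ i - 1) (by omega)
    have h2 := le_two_T (T^[τ i - 1] n)
    rw [← Function.iterate_succ_apply' T] at h2
    rw [show (τ i - 1).succ = τ i by omega] at h2
    omega
  · rw [← Function.iterate_add_apply]
    rw [Nat.sub_add_cancel hle]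
    exact hτ1 (i + 1) hi

/-- Main counting bound. -/
theorem count {N I Q Tm : ℕ} (hI : 0 < I) (hQ : 0 < Q)
    (hN : (2 * Q ^ 4) ^ (2 * I + 1) ≤ N) (hJ : 2 ^ (Tm / I) ≤ (2 * Q ^ 4) ^ I)
    (hT : Tm ≤ (2 * Q ^ 4) ^ I) (S : Finset ℕ)
    (hS : ∀ n ∈ S, n < N ∧ ∃ k ≤ Tm, T^[k] n < (2 * Q ^ 4) ^ I) :
    (S.card : ℝ) ≤ N / Q + I * (2 * N * (Tm + 1) ^ 4 / Q) := by
  classical
  set R := 2 * Q ^ 4 with hR
  have hR1 : 0 < R := by positivity
  have hR2 : Q ≤ R := by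
    have := Nat.le_self_pow (show 4 ≠ 0 by norm_num) Q
    rw [hR]
    omega
  have hQ' : (0:ℝ) < Q := by exact_mod_cast hQ
  set u : ℕ → ℕ := fun i => R ^ (2 * I - i) with hu
  have hsub : S ⊆ range (R ^ (2 * I)) ∪ (range I).biUnion fun i =>
      S.filter fun n => n ≤ N ∧ ∃ t ≤ Tm, (∀ s < t, u i ≤ T^[s] n) ∧
        T^[t] n ∈ Z (u i) (u (i + 1)) (Tm / I) := by
    intro n hn
    obtain ⟨hnN, hend⟩ := hS n hn
    rw [mem_union]
    by_cases hlt : n < R ^ (2 * I)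
    · exact Or.inl (mem_range.2 hlt)
    · right
      push Not at hlt
      have hanti : ∀ i < I, u (i + 1) ≤ u i := fun i _ =>
        Nat.pow_le_pow_right hR1 (by omega)
      have hni : ∀ i ≤ I, u i ≤ n := fun i _ =>
        (Nat.pow_le_pow_right hR1 (by omega)).trans hlt
      have hend' : ∃ k ≤ Tm, T^[k] n < u I := by
        obtain ⟨k, hk, hk2⟩ := hend
        refine ⟨k, hk, ?_⟩
        simp only [hu]
        rwa [show 2 * I - I = I by omega]
      obtain ⟨i, hi, h⟩ := exists_fast u hI le_rfl hanti hni hend'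
      exact mem_biUnion.2 ⟨i, mem_range.2 hi, mem_filter.2 ⟨hn, hnN.le, h⟩⟩
  have hpart : ∀ i ∈ range I, (((S.filter fun n => n ≤ N ∧ ∃ t ≤ Tm, (∀ s < t, u i ≤ T^[s] n) ∧
        T^[t] n ∈ Z (u i) (u (i + 1)) (Tm / I)).card : ℕ) : ℝ) ≤ 2 * N * (Tm + 1) ^ 4 / Q := by
    intro i hi
    have hi' := mem_range.1 hi
    have hui : R ^ I ≤ u i := Nat.pow_le_pow_right hR1 (by omega)
    have huN : u i ≤ N := (Nat.pow_le_pow_right hR1 (by omega)).trans hN
    refine card_S (u := u i) (v := u (i + 1)) (J := Tm / I) hQ ?_ (by positivity) huN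
      (hJ.trans hui) (Nat.div_le_self _ _) (hT.trans hui) _ fun n hn => (mem_filter.1 hn).2
    simp only [hu]
    rw [← hR, ← pow_succ']
    congr 1
    omega
  have h0 : ((R ^ (2 * I) : ℕ) : ℝ) ≤ N / Q := by
    rw [le_div_iff₀ hQ']
    calc ((R ^ (2 * I) : ℕ) : ℝ) * Q ≤ ((R ^ (2 * I) : ℕ) : ℝ) * R := by
          have : (Q:ℝ) ≤ R := by exact_mod_cast hR2
          gcongr
      _ = ((R ^ (2 * I + 1) : ℕ) : ℝ) := by push_cast; ring
      _ ≤ N := by exact_mod_cast hN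
  calc (S.card : ℝ) ≤ ((range (R ^ (2 * I)) ∪ (range I).biUnion fun i =>
      S.filter fun n => n ≤ N ∧ ∃ t ≤ Tm, (∀ s < t, u i ≤ T^[s] n) ∧
        T^[t] n ∈ Z (u i) (u (i + 1)) (Tm / I)).card : ℝ) := by
        exact_mod_cast card_le_card hsub
    _ ≤ ((R ^ (2 * I) + ∑ i ∈ range I, (S.filter fun n => n ≤ N ∧ ∃ t ≤ Tm,
        (∀ s < t, u i ≤ T^[s] n) ∧ T^[t] n ∈ Z (u i) (u (i + 1)) (Tm / I)).card : ℕ) : ℝ) := by
        norm_cast
        refine (card_union_le _ _).trans ?_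
        rw [card_range]
        exact Nat.add_le_add_left card_biUnion_le _
    _ = ((R ^ (2 * I) : ℕ) : ℝ) + ∑ i ∈ range I, (((S.filter fun n => n ≤ N ∧ ∃ t ≤ Tm,
        (∀ s < t, u i ≤ T^[s] n) ∧ T^[t] n ∈ Z (u i) (u (i + 1)) (Tm / I)).card : ℕ) : ℝ) := by
        push_cast; ring
    _ ≤ N / Q + ∑ i ∈ range I, (2 * N * (Tm + 1) ^ 4 / Q : ℝ) :=
        add_le_add h0 (sum_le_sum hpart)
    _ = N / Q + I * (2 * N * (Tm + 1) ^ 4 / Q) := by simp

end Pool.Agent.H319R2.Five
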