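import Pool.Agent.H319R2.Five2

set_option autoImplicit false

namespace Pool.Agent.H319R2.Five

open Finset Filter

/-- Quantitative statement in terms of `Q`. -/
theorem ratio_le {c : ℝ} (hc : 0 < c) {I : ℕ} (hI : 0 < I) (hIc : 6 * c ≤ I) {Q N : ℕ}
    (hQ2 : 2 ≤ Q) (hQA : 66 * c * (2 * I + 1) + 1 ≤ Real.sqrt Q)
    (hN1 : (2 * Q ^ 4) ^ (2 * I + 1) ≤ N) (hN2 : N < (2 * (Q + 1) ^ 4) ^ (2 * I + 1))
    (S : Finset ℕ)
    (hS : ∀ n ∈ S, n < N ∧ ∃ k : ℕ, (k : ℝ) ≤ c * Real.log N ∧ T^[k] n < (2 * Q ^ 4) ^ I) :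
    (S.card : ℝ) ≤
      (1 + 2 * I * (66 * c * (2 * I + 1) + 1) ^ 4) / Real.sqrt Q * N := by
  have hQ0 : (0:ℝ) < Q := by positivity
  have hQ1 : (1:ℝ) ≤ Q := by exact_mod_cast (by omega : 1 ≤ Q)
  set R := 2 * Q ^ 4 with hR
  have hR1 : (1:ℝ) ≤ R := by
    have : 1 ≤ R := by rw [hR]; have := Nat.one_le_pow 4 Q (by omega); omega
    exact_mod_cast this
  have hR0 : (0:ℝ) < R := by linarith
  have hNpos : 0 < N := lt_of_lt_of_le (by positivity) hN1
  have hN0 : (0:ℝ) < N := by exact_mod_cast hNpos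
  set A : ℝ := 66 * c * (2 * I + 1) + 1 with hA
  have hI0 : (0:ℝ) < I := by exact_mod_cast hI
  have hA1 : 1 ≤ A := by rw [hA]; have : 0 ≤ 66 * c * (2 * I + 1) := by positivity
                         linarith
  -- log N ≤ 2 K log R
  have hlogN : Real.log N ≤ 2 * (2 * I + 1) * Real.log R := by
    have h1 : N ≤ (R ^ 2) ^ (2 * I + 1) := by
      refine hN2.le.trans (Nat.pow_le_pow_left ?_ _)
      have h2 : Q + 1 ≤ Q ^ 2 := by nlinarith
      have h3 : (Q + 1) ^ 4 ≤ (Q ^ 2) ^ 4 := Nat.pow_le_pow_left h2 4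
      calc 2 * (Q + 1) ^ 4 ≤ 2 * (Q ^ 2) ^ 4 := by omega
        _ ≤ 4 * (Q ^ 2) ^ 4 := by omega
        _ = R ^ 2 := by rw [hR]; ring
    have h2 : (N:ℝ) ≤ ((R:ℝ) ^ 2) ^ (2 * I + 1) := by exact_mod_cast h1
    calc Real.log N ≤ Real.log (((R:ℝ) ^ 2) ^ (2 * I + 1)) := Real.log_le_log hN0 h2
      _ = 2 * (2 * I + 1) * Real.log R := by
          rw [Real.log_pow, Real.log_pow]; push_cast; ring
  have hlogR0 : 0 ≤ Real.log R := Real.log_nonneg hR1
  -- log R ≤ 33 Q^(1/8)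
  have hlogR : Real.log R ≤ 33 * (Q:ℝ) ^ (1 / 8 : ℝ) := by
    have h1 : Real.log Q ≤ (Q:ℝ) ^ (1 / 8 : ℝ) / (1 / 8) := Real.log_le_rpow_div hQ0.le (by norm_num)
    have h2 : (1:ℝ) ≤ (Q:ℝ) ^ (1 / 8 : ℝ) := Real.one_le_rpow hQ1 (by norm_num)
    have h3 : Real.log R = Real.log 2 + 4 * Real.log Q := by
      rw [hR]; push_cast
      rw [Real.log_mul (by norm_num) (by positivity), Real.log_pow]; push_cast; ring
    have h4 : Real.log 2 < 0.6931471808 := Real.log_two_lt_d9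
    rw [h3]
    linarith
  set Tm : ℕ := ⌊c * Real.log N⌋₊ with hTm
  have hlogN0 : 0 ≤ Real.log N := Real.log_nonneg (by exact_mod_cast hNpos)
  have hTm1 : (Tm : ℝ) ≤ c * Real.log N := Nat.floor_le (by positivity)
  have hTm2 : (Tm : ℝ) ≤ 2 * c * (2 * I + 1) * Real.log R := by
    calc (Tm : ℝ) ≤ c * Real.log N := hTm1
      _ ≤ c * (2 * (2 * I + 1) * Real.log R) := by gcongr
      _ = _ := by ring
  have hTm3 : (Tm : ℝ) + 1 ≤ A * (Q:ℝ) ^ (1 / 8 : ℝ) := by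
    have h2 : (1:ℝ) ≤ (Q:ℝ) ^ (1 / 8 : ℝ) := Real.one_le_rpow hQ1 (by norm_num)
    calc (Tm : ℝ) + 1 ≤ 2 * c * (2 * I + 1) * Real.log R + 1 := by linarith
      _ ≤ 2 * c * (2 * I + 1) * (33 * (Q:ℝ) ^ (1 / 8 : ℝ)) + (Q:ℝ) ^ (1 / 8 : ℝ) := by gcongr
      _ = A * (Q:ℝ) ^ (1 / 8 : ℝ) := by rw [hA]; ring
  -- condition 1
  have hcond1 : 2 ^ (Tm / I) ≤ R ^ I := by
    have h1 : ((Tm / I : ℕ) : ℝ) ≤ I * Real.log R := by
      calc ((Tm / I : ℕ) : ℝ) ≤ Tm / I := Nat.cast_div_le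
        _ ≤ (2 * c * (2 * I + 1) * Real.log R) / I := by gcongr
        _ ≤ I * Real.log R := by
            rw [div_le_iff₀ hI0]
            have h3 : (1:ℝ) ≤ I := by exact_mod_cast hI
            have h4 : 2 * c * (2 * I + 1) ≤ I * I := by nlinarith
            calc 2 * c * (2 * I + 1) * Real.log R ≤ (I * I) * Real.log R := by gcongr
              _ = _ := by ring
    have h2 : (2:ℝ) ^ (Tm / I) ≤ (R:ℝ) ^ I := by
      have e1 : (2:ℝ) ^ (Tm / I) = Real.exp (((Tm / I : ℕ) : ℝ) * Real.log 2) := by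
        rw [mul_comm, Real.exp_mul, Real.exp_log (by norm_num), Real.rpow_natCast]
      have e2 : (R:ℝ) ^ I = Real.exp (I * Real.log R) := by
        rw [mul_comm, Real.exp_mul, Real.exp_log hR0, Real.rpow_natCast]
      rw [e1, e2]
      apply Real.exp_le_exp.2
      have h4 : Real.log 2 < 0.6931471808 := Real.log_two_lt_d9
      have h5 : 0 < Real.log 2 := Real.log_pos (by norm_num)
      have h6 : (0:ℝ) ≤ ((Tm / I : ℕ) : ℝ) := by positivity
      nlinarith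
    exact_mod_cast h2
  -- condition 2
  have hcond2 : Tm ≤ R ^ I := by
    have h1 : (Tm : ℝ) ≤ Q := by
      have h2 : (Q:ℝ) ^ (1 / 8 : ℝ) ≤ (Q:ℝ) ^ (1 / 2 : ℝ) :=
        Real.rpow_le_rpow_of_exponent_le hQ1 (by norm_num)
      rw [← Real.sqrt_eq_rpow] at h2
      have h3 : 0 ≤ (Q:ℝ) ^ (1 / 8 : ℝ) := by positivity
      calc (Tm : ℝ) ≤ A * (Q:ℝ) ^ (1 / 8 : ℝ) := by linarith
        _ ≤ Real.sqrt Q * Real.sqrt Q := by gcongr
        _ = Q := Real.mul_self_sqrt hQ0.le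
    have h2 : Tm ≤ Q := by exact_mod_cast h1
    have h3 : Q ≤ R := by
      have := Nat.le_self_pow (show 4 ≠ 0 by norm_num) Q
      rw [hR]; omega
    exact h2.trans (h3.trans (Nat.le_self_pow (by omega) R))
  have hmain := count (N := N) hI (by omega : 0 < Q) hN1 hcond1 hcond2 S fun n hn => by
    obtain ⟨h1, k, hk, h2⟩ := hS n hn
    exact ⟨h1, k, Nat.le_floor hk, h2⟩
  have hsq : Real.sqrt Q * Real.sqrt Q = Q := Real.mul_self_sqrt hQ0.le
  have hsq1 : 1 ≤ Real.sqrt Q := by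
    rw [show (1:ℝ) = Real.sqrt 1 by simp]
    exact Real.sqrt_le_sqrt hQ1
  have h4 : ((Tm : ℝ) + 1) ^ 4 ≤ A ^ 4 * Real.sqrt Q := by
    calc ((Tm : ℝ) + 1) ^ 4 ≤ (A * (Q:ℝ) ^ (1 / 8 : ℝ)) ^ 4 := by gcongr
      _ = A ^ 4 * Real.sqrt Q := by
          rw [mul_pow, Real.sqrt_eq_rpow, ← Real.rpow_natCast ((Q:ℝ) ^ (1 / 8 : ℝ)),
            ← Real.rpow_mul hQ0.le]
          norm_num
  calc (S.card : ℝ) ≤ N / Q + I * (2 * N * (Tm + 1) ^ 4 / Q) := hmain
    _ ≤ N / Real.sqrt Q + I * (2 * N * (A ^ 4 * Real.sqrt Q) / Q) := by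
        gcongr
        nlinarith
    _ = (1 + 2 * I * A ^ 4) / Real.sqrt Q * N := by
        have hs0 : Real.sqrt Q ≠ 0 := by positivity
        have : (2 * N * (A ^ 4 * Real.sqrt Q) / Q) = 2 * N * A ^ 4 / Real.sqrt Q := by
          rw [div_eq_div_iff hQ0.ne' hs0]
          calc 2 * N * (A ^ 4 * Real.sqrt Q) * Real.sqrt Q
              = 2 * N * A ^ 4 * (Real.sqrt Q * Real.sqrt Q) := by ring
            _ = 2 * N * A ^ 4 * Q := by rw [hsq]
        rw [this]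
        field_simp

/-- **Main theorem**: for every `c`, the integers whose orbit reaches 1 in fewer than `c log n`
steps have density zero. -/
theorem density_zero (c : ℝ) (hc : 0 < c) :
    Tendsto (fun N : ℕ => (({n : ℕ | n < N ∧ ∃ k : ℕ, 1 ≤ k ∧ T^[k] n = 1 ∧
      (k : ℝ) < c * Real.log n}.ncard : ℝ) / (N : ℝ))) atTop (nhds 0) := by
  obtain ⟨I, hIc⟩ := exists_nat_ge (6 * c)
  have hI0' : (0:ℝ) < I := lt_of_lt_of_le (by positivity) hIc
  have hI : 0 < I := by exact_mod_cast hI0'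
  set A : ℝ := 66 * c * (2 * I + 1) + 1 with hA
  set B : ℝ := 1 + 2 * I * A ^ 4 with hB
  have hB0 : 0 < B := by positivity
  rw [Metric.tendsto_atTop]
  intro ε hε
  -- threshold
  obtain ⟨Q0, hQ0⟩ : ∃ Q0 : ℕ, ∀ Q : ℕ, Q0 ≤ Q → 2 ≤ Q ∧ A ≤ Real.sqrt Q ∧ B / Real.sqrt Q < ε := by
    obtain ⟨q, hq⟩ := exists_nat_ge ((A + B / ε + 1) ^ 2)
    refine ⟨q + 2, fun Q hQ => ⟨by omega, ?_, ?_⟩⟩
    · have h1 : (A + B / ε + 1) ≤ Real.sqrt Q := by
        apply Real.le_sqrt_of_sq_le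
        refine hq.trans ?_
        exact_mod_cast (by omega : q ≤ Q)
      have : 0 ≤ B / ε := by positivity
      linarith
    · have h1 : (A + B / ε + 1) ≤ Real.sqrt Q := by
        apply Real.le_sqrt_of_sq_le
        refine hq.trans ?_
        exact_mod_cast (by omega : q ≤ Q)
      have hA0 : 0 ≤ A := by rw [hA]; positivity
      have h2 : B / ε < Real.sqrt Q := by linarith
      have h3 : 0 < Real.sqrt Q := lt_of_le_of_lt (by positivity) h2
      rw [div_lt_iff₀ hε] at h2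
      rw [div_lt_iff₀ h3]
      linarith
  refine ⟨(2 * Q0 ^ 4) ^ (2 * I + 1) + 1, fun N hN => ?_⟩
  have hNpos : 0 < N := by omega
  have hN0 : (0:ℝ) < N := by exact_mod_cast hNpos
  -- choose Q
  have hex : ∃ q : ℕ, N < (2 * (q + 1) ^ 4) ^ (2 * I + 1) := by
    refine ⟨N, ?_⟩
    calc N < N + 1 := by omega
      _ ≤ (N + 1) ^ 4 := Nat.le_self_pow (by norm_num) _
      _ ≤ 2 * (N + 1) ^ 4 := by omega
      _ ≤ _ := Nat.le_self_pow (by omega) _
  classical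
  set Q := Nat.find hex with hQdef
  have hQ2 : N < (2 * (Q + 1) ^ 4) ^ (2 * I + 1) := Nat.find_spec hex
  have hQ0Q : Q0 ≤ Q := by
    by_contra hcon
    push Not at hcon
    have h1 : (2 * (Q + 1) ^ 4) ^ (2 * I + 1) ≤ (2 * Q0 ^ 4) ^ (2 * I + 1) := by
      gcongr
      omega
    omega
  obtain ⟨hQge, hQA, hQε⟩ := hQ0 Q hQ0Q
  have hQ1 : (2 * Q ^ 4) ^ (2 * I + 1) ≤ N := by
    have := Nat.find_min hex (show Q - 1 < Nat.find hex by omega)
    push Not at this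
    rwa [show Q - 1 + 1 = Q by omega] at this
  set P : Set ℕ := {n : ℕ | n < N ∧ ∃ k : ℕ, 1 ≤ k ∧ T^[k] n = 1 ∧
      (k : ℝ) < c * Real.log n} with hP
  have hfin : P.Finite := (Set.finite_lt_nat N).subset fun n hn => hn.1
  have hcard : (P.ncard : ℝ) ≤ B / Real.sqrt Q * N := by
    rw [Set.ncard_eq_toFinset_card P hfin]
    refine ratio_le hc hI hIc hQge hQA hQ1 hQ2 _ fun n hn => ?_
    obtain ⟨hnN, k, _, hT, hk⟩ := hfin.mem_toFinset.1 hn
    refine ⟨hnN, k, ?_, ?_⟩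
    · have hn0 : 0 < n := by
        rcases Nat.eq_zero_or_pos n with h | h
        · subst h
          simp only [Nat.cast_zero, Real.log_zero, mul_zero] at hk
          exact absurd hk (not_lt.2 (Nat.cast_nonneg k))
        · exact h
      have : Real.log n ≤ Real.log N :=
        Real.log_le_log (by exact_mod_cast hn0) (by exact_mod_cast hnN.le)
      exact hk.le.trans (by gcongr)
    · rw [hT]
      have h1 : 1 < 2 * Q ^ 4 := by
        have := Nat.one_le_pow 4 Q (by omega)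
        omega
      exact Nat.one_lt_pow (by omega) h1
  have hnn : 0 ≤ (P.ncard : ℝ) / N := by positivity
  rw [Real.dist_eq, sub_zero, abs_of_nonneg hnn, div_lt_iff₀ hN0]
  exact lt_of_le_of_lt hcard (by gcongr)

end Pool.Agent.H319R2.Five
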