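import Mathlib
import Pool.Agent.H319R2.GCount

set_option autoImplicit false

/-!
Rigidity of orbits of generalised Collatz maps of coprime type, asymptotics of divergent orbits, and
the lengths of cycles.
-/

namespace Pool.Agent.H319R2.G

open Finset Filter

namespace GC

variable (g : GC)

/-- every orbit has a power-saving counting function, uniformly -/
theorem orbit_sparse (s η : ℝ) (hs : 0 ≤ s) (hη : 1 / 2 < η)
    (hφ : ∑ i ∈ range g.d, g.a i ^ s < (g.d : ℝ) ^ η) :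
    ∃ C : ℝ, 0 < C ∧ ∀ (x : ℤ) (X : ℝ), 1 ≤ X →
      ∀ F : Finset ℤ, (∀ y ∈ F, (∃ i, g.T^[i] x = y) ∧ |(y : ℝ)| ≤ X) →
        (F.card : ℝ) ≤ C * X ^ η := by
  obtain ⟨C, hC0, hC⟩ := g.sparse s η hs hη hφ
  refine ⟨C, hC0, ?_⟩
  intro x X hX F hF
  obtain ⟨r, hinj, hr⟩ := finite_subset_path g.T x F (fun y hy => (hF y hy).1)
  apply hC _ (tame_path g.T x r hinj) X hX F
  intro y hy
  obtain ⟨i, hi, he⟩ := hr y hy
  exact ⟨⟨i, hi, he⟩, (hF y hy).2⟩

theorem log_one_sub (t : ℝ) (ht : |t| ≤ 1 / 2) : |Real.log (1 - t)| ≤ 2 * |t| := by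
  have h := abs_le.1 ht
  have h1 : 0 < 1 - t := by linarith
  have a := Real.log_le_sub_one_of_pos h1
  have b := Real.one_sub_inv_le_log_of_pos h1
  have c1 : t ≤ |t| := le_abs_self _
  have c2 : -t ≤ |t| := neg_le_abs _
  have c3 : 0 ≤ |t| := abs_nonneg _
  rw [abs_le]
  constructor
  · have : (1 - t)⁻¹ ≤ 1 + 2 * |t| := by
      rw [inv_le_comm₀ h1 (by linarith)]
      rw [inv_eq_one_div, div_le_iff₀ (by linarith)]
      nlinarith
    linarith
  · linarith

theorem T_ne (z : ℤ) (h : 2 * g.R ≤ |(z : ℝ)|) (hz : z ≠ 0) : g.T z ≠ 0 := by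
  intro h0
  have h1 := g.T_mul z
  rw [h0, mul_zero] at h1
  have h2 : g.m (z % g.d) * z = g.r (z % g.d) := by linarith
  have h3 : (g.m (z % g.d) : ℝ) * z = g.r (z % g.d) := by exact_mod_cast h2
  have h4 := g.r_le z
  rw [← h3, abs_mul] at h4
  have h5 : (1 : ℝ) ≤ |(g.m (z % g.d) : ℝ)| := by
    have : (1 : ℤ) ≤ |g.m (z % g.d)| := Int.one_le_abs (g.m_ne z)
    exact_mod_cast this
  have h6 : (1 : ℝ) ≤ |(z : ℝ)| := by
    have : (1 : ℤ) ≤ |z| := Int.one_le_abs hz
    exact_mod_cast this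
  nlinarith [g.R_nonneg]

theorem log_step (z : ℤ) (h : 2 * g.R ≤ |(z : ℝ)|) (hz : z ≠ 0) :
    |Real.log |(g.T z : ℝ)| - Real.log |(z : ℝ)| - Real.log (g.a (z % g.d))| ≤
      2 * g.R / |(z : ℝ)| := by
  have hd := g.dr
  have h1 := g.T_mul z
  have h1' : (g.d : ℝ) * (g.T z : ℝ) = (g.m (z % g.d) : ℝ) * z - (g.r (z % g.d) : ℝ) := by
    exact_mod_cast h1
  set M : ℝ := (g.m (z % g.d) : ℝ) with hM
  set r : ℝ := (g.r (z % g.d) : ℝ) with hr
  have hM1 : (1 : ℝ) ≤ |M| := by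
    have : (1 : ℤ) ≤ |g.m (z % g.d)| := Int.one_le_abs (g.m_ne z)
    rw [hM]; exact_mod_cast this
  have hM0 : M ≠ 0 := by intro h0; rw [h0, abs_zero] at hM1; linarith
  have hz1 : (1 : ℝ) ≤ |(z : ℝ)| := by
    have : (1 : ℤ) ≤ |z| := Int.one_le_abs hz
    exact_mod_cast this
  have hz0 : (z : ℝ) ≠ 0 := by exact_mod_cast hz
  have hrR : |r| ≤ g.R := g.r_le z
  set t : ℝ := r / (M * z) with ht
  have htb : |t| ≤ g.R / |(z : ℝ)| := by
    rw [ht, abs_div, abs_mul, div_le_div_iff₀ (by positivity) (by positivity)]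
    have h2 : |r| * |(z : ℝ)| ≤ g.R * |(z : ℝ)| := mul_le_mul_of_nonneg_right hrR (by positivity)
    have h3 : g.R * |(z : ℝ)| ≤ g.R * (|M| * |(z : ℝ)|) := by
      apply mul_le_mul_of_nonneg_left _ g.R_nonneg
      nlinarith
    linarith
  have htb2 : |t| ≤ 1 / 2 := by
    refine htb.trans ?_
    rw [div_le_iff₀ (by positivity)]
    linarith
  have h1t : 0 < 1 - t := by have := abs_le.1 htb2; linarith
  have hTz : (g.T z : ℝ) ≠ 0 := by exact_mod_cast g.T_ne z h hz
  have h4 : Real.log |(g.T z : ℝ)| + Real.log g.d =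
      Real.log |M| + Real.log |(z : ℝ)| + Real.log (1 - t) := by
    have e1 : (g.d : ℝ) * (g.T z : ℝ) = M * z * (1 - t) := by
      rw [h1', ht]; field_simp
    have e2 : (g.d : ℝ) * |(g.T z : ℝ)| = |M| * |(z : ℝ)| * (1 - t) := by
      rw [← abs_of_pos (show (0 : ℝ) < g.d by linarith), ← abs_mul, e1, abs_mul, abs_mul,
        abs_of_pos h1t]
    have e3 := congrArg Real.log e2
    rw [Real.log_mul (by positivity) (abs_ne_zero.2 hTz), Real.log_mul (by positivity) h1t.ne',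
      Real.log_mul (abs_ne_zero.2 hM0) (abs_ne_zero.2 hz0)] at e3
    linarith
  have h5 : Real.log (g.a (z % g.d)) = Real.log |M| - Real.log g.d := by
    unfold a
    rw [Real.log_div (abs_ne_zero.2 hM0) (by positivity)]
  have h6 : Real.log |(g.T z : ℝ)| - Real.log |(z : ℝ)| - Real.log (g.a (z % g.d)) =
      Real.log (1 - t) := by rw [h5]; linarith
  rw [h6]
  refine (log_one_sub t htb2).trans ?_
  rw [mul_div_assoc]
  linarith

/-- sum of the logarithms of the multipliers along the orbit -/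
noncomputable def lg (k : ℕ) (x : ℤ) : ℝ := ∑ j ∈ range k, Real.log (g.a ((g.T^[j] x) % g.d))

theorem log_prod (k : ℕ) (x : ℤ) : Real.log (g.prod k x) = g.lg k x := by
  unfold GC.prod GC.lg
  exact Real.log_prod (fun j _ => (g.a_pos _).ne')

theorem lg_add (k l : ℕ) (x : ℤ) : g.lg (k + l) x = g.lg k x + g.lg l (g.T^[k] x) := by
  unfold GC.lg
  rw [sum_range_add]
  congr 1
  apply sum_congr rfl
  intro i _
  rw [add_comm, Function.iterate_add_apply]

theorem log_iter_sum (x : ℤ) (k : ℕ)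
    (h : ∀ j < k, 2 * g.R + 1 ≤ |((g.T^[j] x : ℤ) : ℝ)|) :
    |Real.log |((g.T^[k] x : ℤ) : ℝ)| - Real.log |(x : ℝ)| - g.lg k x| ≤
      2 * g.R * ∑ j ∈ range k, 1 / |((g.T^[j] x : ℤ) : ℝ)| := by
  induction k with
  | zero => simp [GC.lg]
  | succ k ih =>
    have ih' := ih (fun j hj => h j (by omega))
    have hk := h k (by omega)
    rw [Function.iterate_succ_apply']
    have e1 : g.lg (k + 1) x = g.lg k x + Real.log (g.a ((g.T^[k] x) % g.d)) := by
      unfold GC.lg; rw [sum_range_succ]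
    rw [e1, sum_range_succ, mul_add]
    set z := g.T^[k] x with hz
    have hR := g.R_nonneg
    have hz0 : z ≠ 0 := by
      intro h0; rw [h0] at hk; simp at hk; linarith
    have h2 := g.log_step z (by linarith) hz0
    have e2 : Real.log |(g.T z : ℝ)| - Real.log |(x : ℝ)| -
        (g.lg k x + Real.log (g.a (z % g.d))) =
        (Real.log |(z : ℝ)| - Real.log |(x : ℝ)| - g.lg k x) +
        (Real.log |(g.T z : ℝ)| - Real.log |(z : ℝ)| - Real.log (g.a (z % g.d))) := by ring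
    rw [e2]
    refine (abs_add_le _ _).trans ?_
    have e3 : 2 * g.R * (1 / |(z : ℝ)|) = 2 * g.R / |(z : ℝ)| := by ring
    rw [e3]
    exact add_le_add ih' h2

/-- **Rigidity.** -/
theorem rigid (s η : ℝ) (hs : 0 ≤ s) (hη : 1 / 2 < η) (hη1 : η < 1)
    (hφ : ∑ i ∈ range g.d, g.a i ^ s < (g.d : ℝ) ^ η) :
    ∃ C : ℝ, 0 < C ∧ ∀ (x : ℤ) (k : ℕ), Set.InjOn (fun i => g.T^[i] x) (Set.Iio k) → ∀ N : ℝ,
      2 * g.R + 1 ≤ N → (∀ j < k, N ≤ |((g.T^[j] x : ℤ) : ℝ)|) →
      |Real.log |((g.T^[k] x : ℤ) : ℝ)| - Real.log |(x : ℝ)| - g.lg k x| ≤ C * N ^ (η - 1) := by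
  classical
  obtain ⟨C, hC0, hC⟩ := g.sparse s η hs hη hφ
  have hρ1 : (2 : ℝ) ^ (η - 1) < 1 := Real.rpow_lt_one_of_one_lt_of_neg (by norm_num) (by linarith)
  have hρ0 : (0 : ℝ) < 1 - 2 ^ (η - 1) := by linarith
  have hR := g.R_nonneg
  refine ⟨2 * g.R * (C * 2 ^ η / (1 - 2 ^ (η - 1))) + 1, by positivity, ?_⟩
  intro x k hinj N hN hmin
  have hN1 : 1 ≤ N := by linarith
  have hN0 : 0 < N := by linarith
  have h1 := g.log_iter_sum x k (fun j hj => hN.trans (hmin j hj))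
  have h2 := recip_of_sparse η C (by linarith) hη1 hC0.le _ (hC _ (tame_path g.T x k hinj)) N hN1
    ((range k).image fun i => g.T^[i] x) (by
      intro y hy
      rw [mem_image] at hy
      obtain ⟨i, hi, rfl⟩ := hy
      rw [mem_range] at hi
      exact ⟨⟨i, hi, rfl⟩, hmin i hi⟩)
  rw [sum_image (by
    intro i hi j hj hij
    exact hinj (by simpa using hi) (by simpa using hj) hij)] at h2
  have h3 := mul_le_mul_of_nonneg_left h2 (by positivity : 0 ≤ 2 * g.R)
  have h4 : 0 < N ^ (η - 1) := Real.rpow_pos_of_pos hN0 _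
  calc _ ≤ 2 * g.R * ∑ j ∈ range k, 1 / |((g.T^[j] x : ℤ) : ℝ)| := h1
    _ ≤ 2 * g.R * (C * 2 ^ η / (1 - 2 ^ (η - 1)) * N ^ (η - 1)) := h3
    _ ≤ _ := by rw [add_mul]; linarith

/-- periodic points -/
theorem cycle_rigid (s η : ℝ) (hs : 0 ≤ s) (hη : 1 / 2 < η) (hη1 : η < 1)
    (hφ : ∑ i ∈ range g.d, g.a i ^ s < (g.d : ℝ) ^ η) :
    ∃ C : ℝ, 0 < C ∧ ∀ (x : ℤ) (p : ℕ), p = Function.minimalPeriod g.T x → 0 < p → ∀ N : ℝ,
      2 * g.R + 1 ≤ N → (∀ j, N ≤ |((g.T^[j] x : ℤ) : ℝ)|) → |g.lg p x| ≤ C * N ^ (η - 1) := by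
  obtain ⟨C, hC0, hC⟩ := g.rigid s η hs hη hη1 hφ
  refine ⟨C, hC0, ?_⟩
  intro x p hp hp0 N hN hmin
  have hinj : Set.InjOn (fun i => g.T^[i] x) (Set.Iio p) := by
    rw [hp]; exact Function.iterate_injOn_Iio_minimalPeriod
  have h := hC x p hinj N hN (fun j _ => hmin j)
  have hper : g.T^[p] x = x := by
    rw [hp]; exact Function.iterate_minimalPeriod
  rw [hper, sub_self, zero_sub, abs_neg] at h
  exact h

/-- a sequence tending to infinity in absolute value along an orbit is injective -/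
theorem injective_of_tendsto {x : ℤ} (h : Tendsto (fun k => |g.T^[k] x|) atTop atTop) :
    Function.Injective (fun k => g.T^[k] x) := by
  have key : ∀ i j : ℕ, i < j → g.T^[i] x = g.T^[j] x → False := by
    intro i j hij he
    have hper : ∀ m : ℕ, g.T^[i + m * (j - i)] x = g.T^[i] x := by
      intro m
      induction m with
      | zero => simp
      | succ m ih =>
        have e : i + (m + 1) * (j - i) = (j - i) + (i + m * (j - i)) := by ring
        rw [e, Function.iterate_add_apply, ih, ← Function.iterate_add_apply,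
          Nat.sub_add_cancel hij.le, ← he]
    have h1 := (tendsto_atTop.1 h) (|g.T^[i] x| + 1)
    obtain ⟨K, hK⟩ := eventually_atTop.1 h1
    have h2 := hK (i + K * (j - i)) (by
      have : 1 ≤ j - i := by omega
      nlinarith)
    rw [hper K] at h2
    linarith
  intro i j he
  by_contra hne
  rcases lt_or_gt_of_ne hne with h1 | h1
  · exact key i j h1 he
  · exact key j i h1 he.symm

/-- **Divergent orbits**: `|T^k x| / ∏ |m|/d` converges to a positive limit. -/
theorem divergent (s η : ℝ) (hs : 0 ≤ s) (hη : 1 / 2 < η) (hη1 : η < 1)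
    (hφ : ∑ i ∈ range g.d, g.a i ^ s < (g.d : ℝ) ^ η) :
    ∃ C : ℝ, ∀ x : ℤ, Tendsto (fun k => |g.T^[k] x|) atTop atTop →
      ∃ w : ℝ, 0 < w ∧
        Tendsto (fun k => |((g.T^[k] x : ℤ) : ℝ)| / g.prod k x) atTop (nhds w) ∧
        ∀ (k : ℕ) (N : ℝ), 2 * g.R + 1 ≤ N → (∀ j, k ≤ j → N ≤ |((g.T^[j] x : ℤ) : ℝ)|) →
          abs (Real.log w - Real.log (|((g.T^[k] x : ℤ) : ℝ)| / g.prod k x)) ≤ C * N ^ (η - 1) := by
  obtain ⟨C, hC0, hC⟩ := g.rigid s η hs hη hη1 hφ
  refine ⟨C, ?_⟩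
  intro x hdiv
  have hinj := g.injective_of_tendsto hdiv
  have hR := g.R_nonneg
  -- eventually large
  have hlarge : ∀ N : ℝ, ∃ K : ℕ, ∀ k, K ≤ k → N ≤ |((g.T^[k] x : ℤ) : ℝ)| := by
    intro N
    have h4 := (tendsto_atTop.1 hdiv) ⌈N⌉
    obtain ⟨K, hK⟩ := eventually_atTop.1 h4
    refine ⟨K, fun k hk => ?_⟩
    have h6 : (⌈N⌉ : ℝ) ≤ |((g.T^[k] x : ℤ) : ℝ)| := by exact_mod_cast hK k hk
    exact (Int.le_ceil N).trans h6
  set L : ℕ → ℝ := fun k => Real.log |((g.T^[k] x : ℤ) : ℝ)| - g.lg k x with hL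
  have hdist : ∀ (k l : ℕ) (N : ℝ), 2 * g.R + 1 ≤ N →
      (∀ j, k ≤ j → N ≤ |((g.T^[j] x : ℤ) : ℝ)|) → |L (k + l) - L k| ≤ C * N ^ (η - 1) := by
    intro k l N hN hmin
    have hinj' : Set.InjOn (fun i => g.T^[i] (g.T^[k] x)) (Set.Iio l) := by
      intro i _ j _ hij
      have e : (fun k => g.T^[k] x) (i + k) = (fun k => g.T^[k] x) (j + k) := by
        simp only at hij ⊢
        rw [Function.iterate_add_apply, Function.iterate_add_apply]
        exact hij
      have := hinj e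
      omega
    have h := hC (g.T^[k] x) l hinj' N hN (by
      intro j _
      rw [← Function.iterate_add_apply]
      exact hmin (j + k) (by omega))
    have e2 : L (k + l) - L k = Real.log |((g.T^[l] (g.T^[k] x) : ℤ) : ℝ)| -
        Real.log |((g.T^[k] x : ℤ) : ℝ)| - g.lg l (g.T^[k] x) := by
      rw [hL]; simp only
      rw [g.lg_add, add_comm k l, Function.iterate_add_apply]; ring
    rw [e2]
    exact h
  have hlim0 : Tendsto (fun N : ℝ => C * N ^ (η - 1)) atTop (nhds 0) := by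
    have h1 : Tendsto (fun N : ℝ => N ^ (-(1 - η))) atTop (nhds 0) :=
      tendsto_rpow_neg_atTop (by linarith)
    have h2 := h1.const_mul C
    rw [mul_zero] at h2
    refine h2.congr fun N => ?_
    congr 2; ring
  have hcauchy : CauchySeq L := by
    rw [Metric.cauchySeq_iff']
    intro ε hε
    obtain ⟨N0, hN0⟩ := eventually_atTop.1 (hlim0.eventually (gt_mem_nhds hε))
    set N : ℝ := max N0 (2 * g.R + 1) with hNdef
    obtain ⟨K, hK⟩ := hlarge N
    refine ⟨K, fun k hk => ?_⟩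
    obtain ⟨l, rfl⟩ := Nat.exists_eq_add_of_le hk
    rw [Real.dist_eq]
    exact lt_of_le_of_lt (hdist K l N (le_max_right _ _) hK) (hN0 N (le_max_left _ _))
  obtain ⟨ℓ, hℓ⟩ := cauchySeq_tendsto_of_complete hcauchy
  obtain ⟨K1, hK1⟩ := hlarge 1
  have hLk : ∀ k, K1 ≤ k → Real.log (|((g.T^[k] x : ℤ) : ℝ)| / g.prod k x) = L k := by
    intro k hk
    have h1 := hK1 k hk
    rw [Real.log_div (by positivity) (g.prod_pos' k x).ne', g.log_prod]
  refine ⟨Real.exp ℓ, Real.exp_pos _, ?_, ?_⟩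
  · have h1 : Tendsto (fun k => Real.exp (L k)) atTop (nhds (Real.exp ℓ)) :=
      (Real.continuous_exp.tendsto ℓ).comp hℓ
    refine h1.congr' ?_
    filter_upwards [eventually_ge_atTop K1] with k hk
    rw [← hLk k hk, Real.exp_log]
    have h1 := hK1 k hk
    have := g.prod_pos' k x
    positivity
  · intro k N hN hmin
    have h1k : (1 : ℝ) ≤ |((g.T^[k] x : ℤ) : ℝ)| := by
      have := hmin k le_rfl; linarith
    have h2 : Real.log (|((g.T^[k] x : ℤ) : ℝ)| / g.prod k x) = L k := by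
      rw [Real.log_div (by positivity) (g.prod_pos' k x).ne', g.log_prod]
    rw [Real.log_exp, h2]
    have h1 : Tendsto (fun l => |L (k + l) - L k|) atTop (nhds |ℓ - L k|) := by
      have h2 : Tendsto (fun l => L (k + l)) atTop (nhds ℓ) := by
        have := hℓ.comp (tendsto_add_atTop_nat k)
        refine this.congr fun l => ?_
        simp only [Function.comp]
        rw [add_comm]
      exact (h2.sub_const (L k)).abs
    exact le_of_tendsto h1 (Eventually.of_forall fun l => hdist k l N hN hmin)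

end GC

/-! ### Bohr sets -/

/-- Bohr sets of an irrational number have small density -/
theorem bohr (θ : ℝ) (hθ : Irrational θ) (K : ℕ) (hK : 1 ≤ K) : ∃ ε : ℝ, 0 < ε ∧
    ∀ (P : ℕ) (F : Finset ℕ), (∀ p ∈ F, p ≤ P ∧ ∃ o : ℤ, |(p : ℝ) * θ - o| ≤ ε) →
      F.card ≤ P / K + 1 := by
  classical
  -- distance to the nearest integer
  have hpos : ∀ j : ℕ, 1 ≤ j → 0 < |(j : ℝ) * θ - round ((j : ℝ) * θ)| := by
    intro j hj
    rw [abs_pos, sub_ne_zero]
    have h1 : Irrational ((j : ℝ) * θ) := by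
      have := hθ.natCast_mul (by omega : j ≠ 0)
      exact this
    exact h1.ne_int _
  have hne : (Finset.Icc 1 K).Nonempty := Finset.nonempty_Icc.2 hK
  set δ : ℝ := (Finset.Icc 1 K).inf' hne
    (fun j : ℕ => |(j : ℝ) * θ - round ((j : ℝ) * θ)|) with hδ
  have hδ0 : 0 < δ := (Finset.lt_inf'_iff hne).2 fun j hj => hpos j (mem_Icc.1 hj).1
  refine ⟨δ / 3, by positivity, ?_⟩
  intro P F hF
  have hsep : ∀ p ∈ F, ∀ q ∈ F, p < q → K < q - p := by
    intro p hp q hq hpq
    by_contra hcon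
    obtain ⟨_, o1, h1⟩ := hF p hp
    obtain ⟨_, o2, h2⟩ := hF q hq
    have hmem : q - p ∈ Finset.Icc 1 K := by rw [mem_Icc]; omega
    have h3 : δ ≤ |((q - p : ℕ) : ℝ) * θ - round (((q - p : ℕ) : ℝ) * θ)| := by
      rw [hδ]; exact Finset.inf'_le _ hmem
    have h4 := round_le (((q - p : ℕ) : ℝ) * θ) (o2 - o1)
    have h5 : |((q - p : ℕ) : ℝ) * θ - ((o2 - o1 : ℤ) : ℝ)| ≤ 2 * (δ / 3) := by
      rw [Nat.cast_sub hpq.le]
      push_cast
      have e : ((q : ℝ) - p) * θ - (o2 - o1) = ((q : ℝ) * θ - o2) - ((p : ℝ) * θ - o1) := by ring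
      rw [e]
      refine (abs_sub _ _).trans ?_
      linarith
    linarith
  have hinj : Set.InjOn (fun p : ℕ => p / K) F := by
    intro p hp q hq hpq
    simp only at hpq
    by_contra hne
    have hdiv : ∀ a b : ℕ, a < b → a / K = b / K → b - a < K := by
      intro a b hab he
      have h1 := Nat.div_add_mod a K
      have h2 := Nat.div_add_mod b K
      have h3 := Nat.mod_lt a hK
      have h4 := Nat.mod_lt b hK
      rw [he] at h1
      omega
    rcases lt_or_gt_of_ne hne with h | h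
    · have := hsep p hp q hq h
      have := hdiv p q h hpq
      omega
    · have := hsep q hq p hp h
      have := hdiv q p h hpq.symm
      omega
  rw [← card_image_of_injOn hinj]
  have hsub : F.image (fun p : ℕ => p / K) ⊆ range (P / K + 1) := by
    intro y hy
    rw [mem_image] at hy
    obtain ⟨p, hp, rfl⟩ := hy
    rw [mem_range]
    have := Nat.div_le_div_right (c := K) (hF p hp).1
    omega
  have := card_le_card hsub
  rwa [card_range] at this

end Pool.Agent.H319R2.G
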