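import Mathlib
import Pool.Agent.H319R2.GRigid

set_option autoImplicit false

/-!
Contracting maps of coprime type: existence of the exponents; irrationality of `log d / log m`.
-/

namespace Pool.Agent.H319R2.G

open Finset Filter

namespace GC

variable (g : GC)

theorem a_pos' {i : ℕ} (hi : i ∈ range g.d) : 0 < g.a i := by
  have h2 := mem_range.1 hi
  have h3 : ((i : ℕ) : ℤ) % g.d = i := Int.emod_eq_of_lt (by positivity) (by exact_mod_cast h2)
  rw [← h3]; exact g.a_pos _

/-- contraction on average gives admissible exponents -/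
theorem exists_exp (h : ∑ i ∈ range g.d, Real.log (g.a i) < 0) :
    ∃ s η : ℝ, 0 ≤ s ∧ 1 / 2 < η ∧ η < 1 ∧ ∑ i ∈ range g.d, g.a i ^ s < (g.d : ℝ) ^ η := by
  have hd := g.dr
  have hd0 : (0 : ℝ) < g.d := by linarith
  set A := ∑ i ∈ range g.d, Real.log (g.a i) with hA
  set B := ∑ i ∈ range g.d, Real.log (g.a i) ^ 2 with hB
  set M := ∑ i ∈ range g.d, |Real.log (g.a i)| with hM
  have hB0 : 0 ≤ B := sum_nonneg fun _ _ => sq_nonneg _
  have hM0 : 0 ≤ M := sum_nonneg fun _ _ => abs_nonneg _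
  -- choose s
  obtain ⟨s, hs0, hs1, hs2⟩ : ∃ s : ℝ, 0 < s ∧ s * M ≤ 1 ∧ s * B < -A := by
    refine ⟨min (1 / (M + 1)) (-A / (B + 1) / 2), lt_min (by positivity) (by
      have : 0 < -A := by linarith
      positivity), ?_, ?_⟩
    · have h1 := min_le_left (1 / (M + 1)) (-A / (B + 1) / 2)
      calc min (1 / (M + 1)) (-A / (B + 1) / 2) * M ≤ 1 / (M + 1) * M :=
            mul_le_mul_of_nonneg_right h1 hM0
        _ ≤ 1 := by rw [one_div, inv_mul_le_one₀ (by linarith)]; linarith
    · have h1 := min_le_right (1 / (M + 1)) (-A / (B + 1) / 2)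
      have hA0 : 0 < -A := by linarith
      calc min (1 / (M + 1)) (-A / (B + 1) / 2) * B ≤ -A / (B + 1) / 2 * B :=
            mul_le_mul_of_nonneg_right h1 hB0
        _ < -A := by
            rw [div_div, div_mul_eq_mul_div, div_lt_iff₀ (by positivity)]
            nlinarith
  have hsum : ∑ i ∈ range g.d, g.a i ^ s < g.d := by
    have h1 : ∀ i ∈ range g.d, g.a i ^ s ≤ 1 + s * Real.log (g.a i) + s ^ 2 * Real.log (g.a i) ^ 2 := by
      intro i hi
      rw [Real.rpow_def_of_pos (g.a_pos' hi)]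
      have h2 : |Real.log (g.a i) * s| ≤ 1 := by
        rw [abs_mul, abs_of_pos hs0]
        have h3 : |Real.log (g.a i)| ≤ M :=
          single_le_sum (f := fun i : ℕ => |Real.log (g.a i)|) (fun _ _ => abs_nonneg _) hi
        calc |Real.log (g.a i)| * s ≤ M * s := mul_le_mul_of_nonneg_right h3 hs0.le
          _ ≤ 1 := by linarith
      have h4 := (abs_le.1 (Real.abs_exp_sub_one_sub_id_le h2)).2
      nlinarith
    refine (sum_le_sum h1).trans_lt ?_
    rw [sum_add_distrib, sum_add_distrib, ← mul_sum, ← mul_sum, sum_const, card_range,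
      nsmul_eq_mul, mul_one, ← hA, ← hB]
    nlinarith
  -- choose η
  have hsum0 : 0 < ∑ i ∈ range g.d, g.a i ^ s := by
    apply sum_pos
    · intro i hi; exact Real.rpow_pos_of_pos (g.a_pos' hi) s
    · rw [nonempty_range_iff]; have := g.two_le; omega
  have hlogd : 0 < Real.log g.d := Real.log_pos (by linarith)
  set t := Real.log (∑ i ∈ range g.d, g.a i ^ s) / Real.log g.d with ht
  have ht1 : t < 1 := by
    rw [ht, div_lt_one hlogd]; exact Real.log_lt_log hsum0 hsum
  obtain ⟨η, hη1, hη2⟩ := exists_between (max_lt ht1 (by norm_num : (1 / 2 : ℝ) < 1))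
  refine ⟨s, η, hs0.le, (le_max_right _ _).trans_lt hη1, hη2, ?_⟩
  have h5 : t < η := (le_max_left _ _).trans_lt hη1
  rw [ht, div_lt_iff₀ hlogd] at h5
  rw [Real.rpow_def_of_pos hd0, ← Real.exp_log hsum0]
  apply Real.exp_lt_exp.2
  linarith

end GC

/-- logarithms of coprime integers are incommensurable -/
theorem irr_log {d m : ℕ} (hd : 2 ≤ d) (hm : 2 ≤ m) (hc : Nat.Coprime m d) :
    Irrational (Real.log d / Real.log m) := by
  have hld : 0 < Real.log d := Real.log_pos (by exact_mod_cast hd)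
  have hlm : 0 < Real.log m := Real.log_pos (by exact_mod_cast hm)
  rintro ⟨q, hq⟩
  have hqpos : 0 < q := by
    have : (0 : ℝ) < q := by rw [hq]; positivity
    exact_mod_cast this
  have hnum : 0 < q.num := Rat.num_pos.2 hqpos
  obtain ⟨n, hn⟩ := Int.eq_ofNat_of_zero_le hnum.le
  have hqe : (q : ℝ) = n / q.den := by
    have h1 : (q : ℝ) = ((q.num : ℤ) : ℝ) / q.den := by
      conv_lhs => rw [← Rat.num_div_den q]
      push_cast; rfl
    rw [h1, hn]; push_cast; rfl
  have hden : (0 : ℝ) < q.den := by exact_mod_cast q.den_pos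
  have h2 : (n : ℝ) * Real.log m = q.den * Real.log d := by
    rw [hqe] at hq
    rw [div_eq_div_iff hden.ne' hlm.ne'] at hq
    linarith
  have h3 : (m : ℝ) ^ n = (d : ℝ) ^ q.den := by
    rw [← Real.exp_log (show (0 : ℝ) < (m : ℝ) ^ n by positivity),
      ← Real.exp_log (show (0 : ℝ) < (d : ℝ) ^ q.den by positivity), Real.log_pow, Real.log_pow, h2]
  have h4 : m ^ n = d ^ q.den := by exact_mod_cast h3
  have h5 : Nat.Coprime (m ^ n) (d ^ q.den) := Nat.Coprime.pow _ _ hc
  rw [h4, Nat.coprime_self] at h5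
  have h6 : 1 < d ^ q.den := Nat.one_lt_pow q.den_pos.ne' (by omega)
  omega

end Pool.Agent.H319R2.G
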