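import Mathlib
import Pool.Agent.H319R2.GContr

set_option autoImplicit false

/-!
Möller's generalised Hasse–Syracuse maps `T(n) = n/d` (`d ∣ n`), `(m n - r_j)/d` (`n ≡ j`).
-/

namespace Pool.Agent.H319R2.Moller

open Finset Filter Pool.Agent.H319R2.G

/-- the map `T` on the integers -/
def T (d m : ℕ) (r : ℕ → ℤ) (n : ℤ) : ℤ :=
  if (d : ℤ) ∣ n then n / d else (m * n - r (n % d).toNat) / d

/-- number of elements not divisible by `d` among the first `k` elements of the orbit of `n` -/
def od (d m : ℕ) (r : ℕ → ℤ) (k : ℕ) (n : ℤ) : ℕ :=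
  ((range k).filter fun j => ¬ (d : ℤ) ∣ (T d m r)^[j] n).card

variable {d m : ℕ} {r : ℕ → ℤ}

/-- the map as a generalised Collatz map of coprime type -/
def gc (d m : ℕ) (r : ℕ → ℤ) (hd : 2 ≤ d) (hc : Nat.Coprime m d)
    (hr : ∀ j : ℕ, 1 ≤ j → j < d → (d : ℤ) ∣ m * j - r j) : GC where
  d := d
  m := fun i => if i = 0 then 1 else m
  r := fun i => if i = 0 then 0 else r i.toNat
  two_le := hd
  cop := by
    intro i _ _
    split_ifs
    · exact isCoprime_one_left
    · exact Nat.isCoprime_iff_coprime.2 hc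
  dvd := by
    intro i h0 h1
    split_ifs with h
    · rw [h]; simp
    · have h2 := hr i.toNat (by omega) (by omega)
      have h3 : ((i.toNat : ℕ) : ℤ) = i := Int.toNat_of_nonneg h0
      rwa [h3] at h2

section

variable (hd : 2 ≤ d) (hc : Nat.Coprime m d)
  (hr : ∀ j : ℕ, 1 ≤ j → j < d → (d : ℤ) ∣ m * j - r j)

theorem gc_T : (gc d m r hd hc hr).T = T d m r := by
  funext n
  unfold GC.T T
  have e : (gc d m r hd hc hr).d = d := rfl
  rw [e]
  by_cases h : (d : ℤ) ∣ n
  · have h0 : n % d = 0 := Int.emod_eq_zero_of_dvd h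
    rw [if_pos h, h0]
    simp [gc]
  · have h0 : n % d ≠ 0 := fun h0 => h (Int.dvd_of_emod_eq_zero h0)
    rw [if_neg h]
    simp only [gc, if_neg h0]

theorem gc_a_zero : (gc d m r hd hc hr).a 0 = 1 / d := by
  unfold GC.a
  simp [gc]

theorem gc_a_ne {i : ℤ} (hi : i ≠ 0) : (gc d m r hd hc hr).a i = m / d := by
  unfold GC.a
  simp only [gc, if_neg hi]
  congr 1
  rw [abs_of_nonneg]
  · push_cast; rfl
  · positivity

theorem gc_lg (hm : 1 ≤ m) (k : ℕ) (n : ℤ) : (gc d m r hd hc hr).lg k n =
    od d m r k n * Real.log m - k * Real.log d := by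
  have hd0 : (0 : ℝ) < d := by have : 0 < d := by omega
                               exact_mod_cast this
  have hm0 : (0 : ℝ) < m := by exact_mod_cast hm
  induction k with
  | zero => simp [GC.lg, od]
  | succ k ih =>
    have e1 : (gc d m r hd hc hr).lg (k + 1) n = (gc d m r hd hc hr).lg k n +
        Real.log ((gc d m r hd hc hr).a (((gc d m r hd hc hr).T^[k] n) % d)) := by
      unfold GC.lg; rw [sum_range_succ]; rfl
    rw [e1, ih, gc_T]
    unfold od
    rw [range_add_one, filter_insert]
    by_cases h : (d : ℤ) ∣ (T d m r)^[k] n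
    · rw [if_neg (not_not.2 h), Int.emod_eq_zero_of_dvd h, gc_a_zero,
        Real.log_div one_ne_zero hd0.ne', Real.log_one]
      push_cast; ring
    · rw [if_pos h, card_insert_of_notMem (by simp),
        gc_a_ne hd hc hr (fun h0 => h (Int.dvd_of_emod_eq_zero h0)),
        Real.log_div hm0.ne' hd0.ne']
      push_cast; ring

/-- Möller's condition is a contraction condition -/
theorem gc_contr (hm : 1 ≤ m) (hle : m ^ (d - 1) ≤ d ^ d) :
    ∑ i ∈ range (gc d m r hd hc hr).d, Real.log ((gc d m r hd hc hr).a i) < 0 := by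
  have hd0 : (0 : ℝ) < d := by have : 0 < d := by omega
                               exact_mod_cast this
  have hm0 : (0 : ℝ) < m := by exact_mod_cast hm
  have hlt : m ^ (d - 1) < d ^ d := by
    refine lt_of_le_of_ne hle fun he => ?_
    have h5 : Nat.Coprime (m ^ (d - 1)) (d ^ d) := Nat.Coprime.pow _ _ hc
    rw [he, Nat.coprime_self] at h5
    have h6 : 1 < d ^ d := Nat.one_lt_pow (by omega) (by omega)
    omega
  have e : (gc d m r hd hc hr).d = d := rfl
  rw [e]
  obtain ⟨f, rfl⟩ : ∃ f, d = f + 1 := ⟨d - 1, by omega⟩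
  rw [sum_range_succ']
  have h1 : ∀ i ∈ range f, Real.log ((gc (f + 1) m r hd hc hr).a ((i + 1 : ℕ) : ℤ)) =
      Real.log m - Real.log (f + 1 : ℕ) := by
    intro i _
    rw [gc_a_ne hd hc hr (by positivity), Real.log_div hm0.ne' hd0.ne']
  rw [sum_congr rfl h1, sum_const, card_range, nsmul_eq_mul]
  have h2 : Real.log ((gc (f + 1) m r hd hc hr).a ((0 : ℕ) : ℤ)) = - Real.log (f + 1 : ℕ) := by
    rw [Nat.cast_zero, gc_a_zero, Real.log_div one_ne_zero hd0.ne', Real.log_one]; ring
  rw [h2]
  have h3 : ((m : ℝ)) ^ f < ((f + 1 : ℕ) : ℝ) ^ (f + 1) := by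
    rw [Nat.add_sub_cancel] at hlt
    exact_mod_cast hlt
  have h4 := Real.log_lt_log (by positivity) h3
  rw [Real.log_pow, Real.log_pow] at h4
  push_cast at h4 ⊢
  linarith

end

/-- the minimal period is constant along a periodic orbit -/
theorem minimalPeriod_iter {f : ℤ → ℤ} {x : ℤ} (hx : 0 < Function.minimalPeriod f x) (j : ℕ) :
    Function.minimalPeriod f (f^[j] x) = Function.minimalPeriod f x :=
  Function.minimalPeriod_apply_iterate (Function.minimalPeriod_pos_iff_mem_periodicPts.1 hx) j

/-- uniform bound for the number of lengths of cycles, and of numbers of elements not divisible by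
`d` in a cycle -/
theorem lengths_bound (hd : 2 ≤ d) (hm : 1 ≤ m) (hc : Nat.Coprime m d) (hle : m ^ (d - 1) ≤ d ^ d)
    (hr : ∀ j : ℕ, 1 ≤ j → j < d → (d : ℤ) ∣ m * j - r j) (K : ℕ) (hK : 1 ≤ K) :
    ∃ D : ℕ, ∀ (P : ℕ) (F : Finset ℕ),
      ((∀ p ∈ F, p ≤ P ∧ 0 < p ∧ ∃ x : ℤ, Function.minimalPeriod (T d m r) x = p) ∨
       (∀ o ∈ F, o ≤ P ∧ ∃ (x : ℤ) (p : ℕ), 0 < p ∧ Function.minimalPeriod (T d m r) x = p ∧
          od d m r p x = o)) →
      F.card ≤ P / K + D := by
  classical
  set g := gc d m r hd hc hr with hg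
  have hgT : g.T = T d m r := gc_T hd hc hr
  have hlg : ∀ (k : ℕ) (n : ℤ), g.lg k n = od d m r k n * Real.log m - k * Real.log d :=
    fun k n => gc_lg hd hc hr hm k n
  obtain ⟨s, η, hs, hη, hη1, hφ⟩ := g.exists_exp (gc_contr hd hc hr hm hle)
  obtain ⟨C, hC0, hC⟩ := g.cycle_rigid s η hs hη hη1 hφ
  have hlogd : 0 < Real.log d := Real.log_pos (by exact_mod_cast hd)
  -- a threshold `δ` for the defect
  obtain ⟨δ, hδ0, D1, hδ⟩ : ∃ δ : ℝ, 0 < δ ∧ ∃ D1 : ℕ, ∀ (P : ℕ) (F : Finset ℕ),
      ((∀ p ∈ F, p ≤ P ∧ 0 < p ∧ ∃ o : ℕ, |(o : ℝ) * Real.log m - p * Real.log d| ≤ δ) ∨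
        (∀ o ∈ F, o ≤ P ∧ ∃ p : ℕ, 0 < p ∧ |(o : ℝ) * Real.log m - p * Real.log d| ≤ δ)) →
      F.card ≤ P / K + D1 := by
    rcases Nat.lt_or_ge 1 m with hm1 | hm1
    · have hlogm : 0 < Real.log m := Real.log_pos (by exact_mod_cast hm1)
      obtain ⟨ε1, hε1, hB1⟩ := bohr (Real.log d / Real.log m) (irr_log hd hm1 hc) K hK
      obtain ⟨ε2, hε2, hB2⟩ := bohr (Real.log m / Real.log d) (irr_log hm1 hd hc.symm) K hK
      refine ⟨min (ε1 * Real.log m) (ε2 * Real.log d), lt_min (by positivity) (by positivity), 1, ?_⟩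
      rintro P F (hF | hF)
      · apply hB1
        intro p hp
        obtain ⟨h1, h2, o, h3⟩ := hF p hp
        refine ⟨h1, o, ?_⟩
        have h4 := h3.trans (min_le_left _ _)
        have e : (p : ℝ) * (Real.log d / Real.log m) - ((o : ℤ) : ℝ) =
            -(((o : ℝ) * Real.log m - p * Real.log d) / Real.log m) := by
          push_cast; field_simp; ring
        rw [e, abs_neg, abs_div, abs_of_pos hlogm, div_le_iff₀ hlogm]
        exact h4
      · apply hB2
        intro o ho
        obtain ⟨h1, p, h2, h3⟩ := hF o ho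
        refine ⟨h1, p, ?_⟩
        have h4 := h3.trans (min_le_right _ _)
        have e : (o : ℝ) * (Real.log m / Real.log d) - ((p : ℤ) : ℝ) =
            ((o : ℝ) * Real.log m - p * Real.log d) / Real.log d := by
          push_cast; field_simp
        rw [e, abs_div, abs_of_pos hlogd, div_le_iff₀ hlogd]
        exact h4
    · have hm1 : m = 1 := by omega
      refine ⟨Real.log d / 2, by positivity, 0, ?_⟩
      have key : ∀ (o p : ℕ), 0 < p → ¬ |(o : ℝ) * Real.log m - p * Real.log d| ≤ Real.log d / 2 := by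
        intro o p hp h
        rw [hm1, Nat.cast_one, Real.log_one, mul_zero, zero_sub, abs_neg,
          abs_of_nonneg (by positivity)] at h
        have : (1 : ℝ) ≤ p := by exact_mod_cast hp
        nlinarith
      rintro P F (hF | hF)
      · have : F = ∅ := by
          rw [Finset.eq_empty_iff_forall_notMem]
          intro p hp
          obtain ⟨_, h2, o, h3⟩ := hF p hp
          exact key o p h2 h3
        rw [this]; simp
      · have : F = ∅ := by
          rw [Finset.eq_empty_iff_forall_notMem]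
          intro o ho
          obtain ⟨_, p, h2, h3⟩ := hF o ho
          exact key o p h2 h3
        rw [this]; simp
  -- a size beyond which the defect is at most `δ`
  have hlim0 : Tendsto (fun N : ℝ => C * N ^ (η - 1)) atTop (nhds 0) := by
    have h1 : Tendsto (fun N : ℝ => N ^ (-(1 - η))) atTop (nhds 0) :=
      tendsto_rpow_neg_atTop (by linarith)
    have h2 := h1.const_mul C
    rw [mul_zero] at h2
    refine h2.congr fun N => ?_
    congr 2; ring
  obtain ⟨N0, hN0⟩ := eventually_atTop.1 (hlim0.eventually (gt_mem_nhds hδ0))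
  obtain ⟨N, hN⟩ := exists_nat_ge (max N0 (2 * g.R + 1))
  have hNa : 2 * g.R + 1 ≤ N := (le_max_right _ _).trans hN
  have hNb : C * (N : ℝ) ^ (η - 1) < δ := hN0 N ((le_max_left _ _).trans hN)
  -- large cycles
  have hbig : ∀ (x : ℤ) (p : ℕ), 0 < p → Function.minimalPeriod (T d m r) x = p →
      (∀ j, (N : ℝ) ≤ |(((T d m r)^[j] x : ℤ) : ℝ)|) →
      |(od d m r p x : ℝ) * Real.log m - p * Real.log d| ≤ δ := by
    intro x p hp hx hmin
    have h := hC x p (by rw [hgT]; exact hx.symm) hp N hNa (by rw [hgT]; exact hmin)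
    rw [hlg] at h
    exact h.trans hNb.le
  -- small cycles
  have hodc : ∀ (x : ℤ) (p j : ℕ), 0 < p → Function.minimalPeriod (T d m r) x = p →
      od d m r p ((T d m r)^[j] x) = od d m r p x := by
    intro x p j hp hx
    have hper : (T d m r)^[p] x = x := by rw [← hx]; exact Function.iterate_minimalPeriod
    induction j with
    | zero => rfl
    | succ j ih =>
      rw [← ih, Function.iterate_succ_apply']
      set y := (T d m r)^[j] x with hy
      have hpery : (T d m r)^[p] y = y := by
        rw [hy, ← Function.iterate_add_apply, add_comm, Function.iterate_add_apply, hper]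
      unfold od
      -- compare the two sums
      have h1 : ∀ z : ℤ, ((range p).filter fun j => ¬ (d : ℤ) ∣ (T d m r)^[j] z).card =
          ∑ j ∈ range p, if (d : ℤ) ∣ (T d m r)^[j] z then 0 else 1 := by
        intro z
        rw [card_filter]
        apply sum_congr rfl
        intro j _
        by_cases h : (d : ℤ) ∣ (T d m r)^[j] z <;> simp [h]
      rw [h1, h1]
      obtain ⟨q, rfl⟩ : ∃ q, p = q + 1 := ⟨p - 1, by omega⟩
      rw [sum_range_succ, sum_range_succ']
      have h2 : (T d m r)^[q] (T d m r y) = y := by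
        rw [← Function.iterate_succ_apply]; exact hpery
      rw [h2]
      rfl
  refine ⟨D1 + (2 * N + 1), ?_⟩
  intro P F hF
  set small : Finset ℤ := Finset.Icc (-(N : ℤ)) N with hsmall
  have hsc : small.card = 2 * N + 1 := by
    rw [hsmall, Int.card_Icc]; omega
  have hmemsmall : ∀ y : ℤ, ¬ (N : ℝ) ≤ |(y : ℝ)| → y ∈ small := by
    intro y hy
    rw [hsmall, mem_Icc]
    have h1 : |(y : ℝ)| < N := not_le.1 hy
    have h2 : |y| < N := by exact_mod_cast h1
    rw [abs_lt] at h2
    constructor <;> linarith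
  rcases hF with hF | hF
  · set F2 := F ∩ small.image (fun y => Function.minimalPeriod (T d m r) y) with hF2
    set F1 := F \ small.image (fun y => Function.minimalPeriod (T d m r) y) with hF1
    have h1 : F1.card ≤ P / K + D1 := by
      apply hδ
      left
      intro p hp
      rw [hF1, Finset.mem_sdiff] at hp
      obtain ⟨a1, a2, x, a3⟩ := hF p hp.1
      refine ⟨a1, a2, od d m r p x, ?_⟩
      apply hbig x p a2 a3
      intro j
      by_contra hcon
      apply hp.2
      rw [mem_image]
      exact ⟨(T d m r)^[j] x, hmemsmall _ hcon, by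
        rw [minimalPeriod_iter (by omega), a3]⟩
    have h2 : F2.card ≤ 2 * N + 1 := by
      refine (card_le_card inter_subset_right).trans ?_
      rw [← hsc]; exact card_image_le
    have h3 : F.card = F1.card + F2.card := by
      rw [hF1, hF2, add_comm, card_inter_add_card_sdiff]
    omega
  · set F2 := F ∩ small.image (fun y => od d m r (Function.minimalPeriod (T d m r) y) y) with hF2
    set F1 := F \ small.image (fun y => od d m r (Function.minimalPeriod (T d m r) y) y) with hF1
    have h1 : F1.card ≤ P / K + D1 := by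
      apply hδ
      right
      intro o ho
      rw [hF1, Finset.mem_sdiff] at ho
      obtain ⟨a1, x, p, a2, a3, a4⟩ := hF o ho.1
      refine ⟨a1, p, a2, ?_⟩
      rw [← a4]
      apply hbig x p a2 a3
      intro j
      by_contra hcon
      apply ho.2
      rw [mem_image]
      exact ⟨(T d m r)^[j] x, hmemsmall _ hcon, by
        rw [minimalPeriod_iter (by omega), a3, hodc x p j a2 a3, a4]⟩
    have h2 : F2.card ≤ 2 * N + 1 := by
      refine (card_le_card inter_subset_right).trans ?_
      rw [← hsc]; exact card_image_le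
    have h3 : F.card = F1.card + F2.card := by
      rw [hF1, hF2, add_comm, card_inter_add_card_sdiff]
    omega

end Pool.Agent.H319R2.Moller
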