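import Mathlib
import Pool.Agent.H319R2.GMoller

set_option autoImplicit false

/-!
Explicit exponents for Möller's maps.
-/

namespace Pool.Agent.H319R2.Moller

open Finset Filter Pool.Agent.H319R2.G

variable {d m : ℕ} {r : ℕ → ℤ}

theorem gc_sum (hd : 2 ≤ d) (hc : Nat.Coprime m d)
    (hr : ∀ j : ℕ, 1 ≤ j → j < d → (d : ℤ) ∣ m * j - r j) (s : ℝ) :
    ∑ i ∈ range (gc d m r hd hc hr).d, (gc d m r hd hc hr).a i ^ s =
      (1 + ((d : ℝ) - 1) * (m : ℝ) ^ s) / (d : ℝ) ^ s := by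
  have e : (gc d m r hd hc hr).d = d := rfl
  rw [e]
  obtain ⟨f, rfl⟩ : ∃ f, d = f + 1 := ⟨d - 1, by omega⟩
  rw [sum_range_succ']
  have h1 : ∀ i ∈ range f, (gc (f + 1) m r hd hc hr).a ((i + 1 : ℕ) : ℤ) ^ s =
      (m : ℝ) ^ s / ((f + 1 : ℕ) : ℝ) ^ s := by
    intro i _
    rw [gc_a_ne hd hc hr (by positivity), Real.div_rpow (by positivity) (by positivity)]
  rw [sum_congr rfl h1, sum_const, card_range, nsmul_eq_mul, Nat.cast_zero, gc_a_zero,
    Real.div_rpow (by positivity) (by positivity), Real.one_rpow]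
  push_cast
  ring

/-- the condition on the exponents -/
theorem gc_cond (hd : 2 ≤ d) (hc : Nat.Coprime m d)
    (hr : ∀ j : ℕ, 1 ≤ j → j < d → (d : ℤ) ∣ m * j - r j) (s η : ℝ)
    (h : 1 + ((d : ℝ) - 1) * (m : ℝ) ^ s < (d : ℝ) ^ (s + η)) :
    ∑ i ∈ range (gc d m r hd hc hr).d, (gc d m r hd hc hr).a i ^ s <
      ((gc d m r hd hc hr).d : ℝ) ^ η := by
  have hd0 : (0 : ℝ) < d := by have : 0 < d := by omega
                               exact_mod_cast this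
  rw [gc_sum]
  have e : (gc d m r hd hc hr).d = d := rfl
  rw [e, div_lt_iff₀ (by positivity), ← Real.rpow_add hd0, add_comm η s]
  exact h

theorem pow_le_of_rpow (hd : 2 ≤ d) (hle : (m : ℝ) ≤ (d : ℝ) ^ ((d : ℝ) / ((d : ℝ) - 1))) :
    m ^ (d - 1) ≤ d ^ d := by
  have hd0 : (0 : ℝ) < d := by have : 0 < d := by omega
                               exact_mod_cast this
  have hd1 : (0 : ℝ) < (d : ℝ) - 1 := by
    have : (2 : ℝ) ≤ d := by exact_mod_cast hd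
    linarith
  have h1 : (m : ℝ) ^ (d - 1) ≤ ((d : ℝ) ^ ((d : ℝ) / ((d : ℝ) - 1))) ^ (d - 1) :=
    pow_le_pow_left₀ (by positivity) hle _
  have h2 : ((d : ℝ) ^ ((d : ℝ) / ((d : ℝ) - 1))) ^ (d - 1) = (d : ℝ) ^ d := by
    rw [← Real.rpow_natCast, ← Real.rpow_mul hd0.le]
    have h3 : (d : ℝ) / ((d : ℝ) - 1) * ((d - 1 : ℕ) : ℝ) = (d : ℝ) := by
      rw [Nat.cast_sub (by omega), Nat.cast_one]
      field_simp
    rw [h3, Real.rpow_natCast]
  rw [h2] at h1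
  exact_mod_cast h1

/-- in Möller's range there are exponents `η < 1` -/
theorem exists_exps (hd : 2 ≤ d) (hm : 1 ≤ m) (hc : Nat.Coprime m d)
    (hle : (m : ℝ) ≤ (d : ℝ) ^ ((d : ℝ) / ((d : ℝ) - 1))) :
    ∃ s η : ℝ, 0 ≤ s ∧ 1 / 2 < η ∧ η < 1 ∧ 1 + ((d : ℝ) - 1) * (m : ℝ) ^ s < (d : ℝ) ^ (s + η) := by
  have hd0 : (0 : ℝ) < d := by have : 0 < d := by omega
                               exact_mod_cast this
  have hr : ∀ j : ℕ, 1 ≤ j → j < d → (d : ℤ) ∣ m * j - (fun j : ℕ => ((m * j : ℕ) : ℤ)) j := by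
    intro j _ _
    simp
  obtain ⟨s, η, h1, h2, h3, h4⟩ := (gc d m (fun j : ℕ => ((m * j : ℕ) : ℤ)) hd hc hr).exists_exp
    (gc_contr hd hc hr hm (pow_le_of_rpow hd hle))
  refine ⟨s, η, h1, h2, h3, ?_⟩
  rw [gc_sum] at h4
  have e : (gc d m (fun j : ℕ => ((m * j : ℕ) : ℤ)) hd hc hr).d = d := rfl
  rw [e, div_lt_iff₀ (by positivity), ← Real.rpow_add hd0, add_comm η s] at h4
  exact h4

end Pool.Agent.H319R2.Moller
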