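import Mathlib
import Pool.Agent.H319R2.GRigid

set_option autoImplicit false

/-!
Generalised Collatz maps with arbitrary nonzero multipliers: basic estimates.
-/

namespace Pool.Agent.H319R2.M

open Finset Filter Pool.Agent.H319R2.G

/-- data of a generalised Collatz map: `x ↦ (m_i x - r_i) / d` for `x ≡ i (mod d)` -/
structure GM where
  /-- the modulus -/
  d : ℕ
  /-- the multipliers -/
  m : ℤ → ℤ
  /-- the remainders -/
  r : ℤ → ℤ
  two_le : 2 ≤ d
  ne : ∀ i : ℤ, 0 ≤ i → i < d → m i ≠ 0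
  dvd : ∀ i : ℤ, 0 ≤ i → i < d → (d : ℤ) ∣ m i * i - r i

namespace GM

variable (g : GM)

/-- the map -/
def T (x : ℤ) : ℤ := (g.m (x % g.d) * x - g.r (x % g.d)) / g.d

theorem d_pos : (0 : ℤ) < g.d := by have := g.two_le; omega

theorem res_nonneg (x : ℤ) : 0 ≤ x % g.d := Int.emod_nonneg _ g.d_pos.ne'

theorem res_lt (x : ℤ) : x % g.d < g.d := Int.emod_lt_of_pos _ g.d_pos

theorem T_mul (x : ℤ) : (g.d : ℤ) * g.T x = g.m (x % g.d) * x - g.r (x % g.d) := by
  unfold T
  apply Int.mul_ediv_cancel'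
  have h1 := g.dvd (x % g.d) (g.res_nonneg x) (g.res_lt x)
  have h2 : g.m (x % g.d) * x - g.r (x % g.d) =
      (g.m (x % g.d) * (x % g.d) - g.r (x % g.d)) + g.m (x % g.d) * (x - x % g.d) := by ring
  rw [h2]
  exact dvd_add h1 (Dvd.dvd.mul_left (Int.dvd_self_sub_emod) _)

theorem m_ne (x : ℤ) : g.m (x % g.d) ≠ 0 := g.ne _ (g.res_nonneg x) (g.res_lt x)

/-- size of the multiplier -/
noncomputable def a (i : ℤ) : ℝ := |(g.m i : ℝ)| / g.d

theorem dr : (2 : ℝ) ≤ g.d := by exact_mod_cast g.two_le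

theorem a_ge (x : ℤ) : 1 / (g.d : ℝ) ≤ g.a (x % g.d) := by
  unfold a
  have h1 : (1 : ℝ) ≤ |(g.m (x % g.d) : ℝ)| := by
    have : (1 : ℤ) ≤ |g.m (x % g.d)| := Int.one_le_abs (g.m_ne x)
    exact_mod_cast this
  have := g.dr
  exact div_le_div_of_nonneg_right h1 (by linarith)

theorem a_pos (x : ℤ) : 0 < g.a (x % g.d) := by
  have := g.a_ge x
  have h : 0 < 1 / (g.d : ℝ) := by have := g.dr; positivity
  linarith

/-- a bound for the remainders -/
noncomputable def R : ℝ := ∑ i ∈ range g.d, |(g.r i : ℝ)|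

theorem R_nonneg : 0 ≤ g.R := sum_nonneg fun _ _ => abs_nonneg _

theorem r_le (x : ℤ) : |(g.r (x % g.d) : ℝ)| ≤ g.R := by
  have h0 := g.res_nonneg x
  have h1 := g.res_lt x
  obtain ⟨i, hi⟩ := Int.eq_ofNat_of_zero_le h0
  rw [hi]
  have hi2 : i ∈ range g.d := by
    rw [mem_range]; omega
  exact single_le_sum (f := fun i : ℕ => |(g.r (i : ℤ) : ℝ)|) (fun _ _ => abs_nonneg _) hi2

/-- one step upper bound -/
theorem step_le (x : ℤ) : |(g.T x : ℝ)| ≤ g.a (x % g.d) * |(x : ℝ)| + g.R := by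
  have h := g.T_mul x
  have h' : (g.d : ℝ) * (g.T x : ℝ) = (g.m (x % g.d) : ℝ) * x - (g.r (x % g.d) : ℝ) := by
    exact_mod_cast h
  have hd := g.dr
  have h2 : (g.d : ℝ) * |(g.T x : ℝ)| ≤ |(g.m (x % g.d) : ℝ)| * |(x : ℝ)| + g.R := by
    rw [← abs_of_pos (show (0 : ℝ) < g.d by linarith), ← abs_mul, h']
    refine (abs_sub _ _).trans ?_
    rw [abs_mul]
    have := g.r_le x
    linarith
  have hR := g.R_nonneg
  unfold a
  have h3 : |(g.T x : ℝ)| ≤ (|(g.m (x % g.d) : ℝ)| * |(x : ℝ)| + g.R) / g.d := by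
    rw [le_div_iff₀ (by linarith)]; linarith
  refine h3.trans ?_
  rw [add_div, mul_div_right_comm]
  have : g.R / g.d ≤ g.R := div_le_self hR (by linarith)
  linarith

/-- product of the multipliers along the orbit -/
noncomputable def prod (k : ℕ) (x : ℤ) : ℝ := ∏ j ∈ range k, g.a ((g.T^[j] x) % g.d)

theorem prod_pos' (k : ℕ) (x : ℤ) : 0 < g.prod k x :=
  Finset.prod_pos fun _ _ => g.a_pos _

theorem prod_zero' (x : ℤ) : g.prod 0 x = 1 := by simp [GM.prod]

theorem prod_succ_left (k : ℕ) (x : ℤ) :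
    g.prod (k + 1) x = g.a (x % g.d) * g.prod k (g.T x) := by
  unfold GM.prod
  rw [prod_range_succ', mul_comm]
  rfl

/-- the iterates as long as they stay away from the origin -/
theorem iter_le (Y : ℝ) (hY : 0 < Y) (k : ℕ) (x : ℤ) (h : ∀ j < k, Y ≤ |((g.T^[j] x : ℤ) : ℝ)|) :
    |((g.T^[k] x : ℤ) : ℝ)| ≤ g.prod k x * |(x : ℝ)| * Real.exp (k * (g.R * g.d / Y)) := by
  induction k with
  | zero => simp [GM.prod]
  | succ k ih =>
    have ih' := ih (fun j hj => h j (by omega))
    rw [Function.iterate_succ_apply']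
    set z := g.T^[k] x with hz
    have hzY : Y ≤ |(z : ℝ)| := h k (by omega)
    have h1 := g.step_le z
    have ha := g.a_ge z
    have ha0 := g.a_pos z
    have hd := g.dr
    have hR := g.R_nonneg
    have h2 : g.R ≤ g.a (z % g.d) * |(z : ℝ)| * (g.R * g.d / Y) := by
      have h3 : 1 / (g.d : ℝ) * Y ≤ g.a (z % g.d) * |(z : ℝ)| :=
        mul_le_mul ha hzY hY.le ha0.le
      have h4 : 0 ≤ g.R * g.d / Y := by positivity
      calc g.R = 1 / (g.d : ℝ) * Y * (g.R * g.d / Y) := by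
            field_simp
        _ ≤ _ := mul_le_mul_of_nonneg_right h3 h4
    have h5 : |(g.T z : ℝ)| ≤ g.a (z % g.d) * |(z : ℝ)| * Real.exp (g.R * g.d / Y) := by
      have h6 := Real.add_one_le_exp (g.R * g.d / Y)
      have h7 : 0 ≤ g.a (z % g.d) * |(z : ℝ)| := by positivity
      nlinarith
    refine h5.trans ?_
    have e : g.prod (k + 1) x = g.prod k x * g.a (z % g.d) := by
      unfold GM.prod; rw [prod_range_succ]
    rw [e]
    have e2 : Real.exp (((k + 1 : ℕ) : ℝ) * (g.R * g.d / Y)) =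
        Real.exp (k * (g.R * g.d / Y)) * Real.exp (g.R * g.d / Y) := by
      rw [← Real.exp_add]; congr 1; push_cast; ring
    rw [e2]
    calc g.a (z % g.d) * |(z : ℝ)| * Real.exp (g.R * g.d / Y)
        ≤ g.a (z % g.d) * (g.prod k x * |(x : ℝ)| * Real.exp (k * (g.R * g.d / Y))) *
            Real.exp (g.R * g.d / Y) := by
          apply mul_le_mul_of_nonneg_right _ (Real.exp_pos _).le
          exact mul_le_mul_of_nonneg_left ih' ha0.le
      _ = _ := by ring

/-- lower bound for the iterates as long as they stay away from the origin -/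
theorem iter_ge (Y : ℝ) (hY : 0 < Y) (k : ℕ) (hk : (k : ℝ) * (g.R / Y) ≤ 1 / 2) :
    ∀ x : ℤ, (∀ j < k, Y ≤ |((g.T^[j] x : ℤ) : ℝ)|) →
      g.prod k x * |(x : ℝ)| ≤ 2 * |((g.T^[k] x : ℤ) : ℝ)| := by
  have hR := g.R_nonneg
  have hq : 0 ≤ g.R / Y := by positivity
  have hd := g.dr
  have key : ∀ n ≤ k, ∀ x : ℤ, (∀ j < n, Y ≤ |((g.T^[j] x : ℤ) : ℝ)|) →
      g.prod n x * |(x : ℝ)| * (1 - n * (g.R / Y)) ≤ |((g.T^[n] x : ℤ) : ℝ)| := by
    intro n
    induction n with
    | zero => intro _ x _; simp [GM.prod]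
    | succ n ih =>
      intro hn x h
      have h0 : Y ≤ |(x : ℝ)| := h 0 (by omega)
      have ih' := ih (by omega) (g.T x) (fun j hj => by
        have := h (j + 1) (by omega)
        rwa [Function.iterate_succ_apply] at this)
      rw [Function.iterate_succ_apply, g.prod_succ_left]
      have ha := g.a_ge x
      have ha0 := g.a_pos x
      have hm := g.T_mul x
      have h' : (g.d : ℝ) * (g.T x : ℝ) = (g.m (x % g.d) : ℝ) * x - (g.r (x % g.d) : ℝ) := by
        exact_mod_cast hm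
      -- one step lower bound
      have h1 : g.a (x % g.d) * |(x : ℝ)| * (1 - g.R / Y) ≤ |(g.T x : ℝ)| := by
        have h2 : |(g.m (x % g.d) : ℝ)| * |(x : ℝ)| - g.R ≤ (g.d : ℝ) * |(g.T x : ℝ)| := by
          rw [← abs_of_pos (show (0 : ℝ) < g.d by linarith), ← abs_mul, ← abs_mul, h']
          have h3 := abs_sub_abs_le_abs_sub ((g.m (x % g.d) : ℝ) * x) (g.r (x % g.d) : ℝ)
          have h4 := g.r_le x
          linarith
        have h3 : |(g.m (x % g.d) : ℝ)| = g.a (x % g.d) * g.d := by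
          unfold a; field_simp
        have h4 : g.R ≤ g.a (x % g.d) * g.d * |(x : ℝ)| * (g.R / Y) := by
          have h5 : Y ≤ g.a (x % g.d) * g.d * |(x : ℝ)| := by
            have h6 : 1 ≤ g.a (x % g.d) * g.d := by
              rw [div_le_iff₀ (by linarith)] at ha; exact ha
            nlinarith [abs_nonneg (x : ℝ)]
          calc g.R = Y * (g.R / Y) := by field_simp
            _ ≤ _ := mul_le_mul_of_nonneg_right h5 hq
        rw [h3] at h2
        have h6 : (g.d : ℝ) * (g.a (x % g.d) * |(x : ℝ)| * (1 - g.R / Y)) ≤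
            (g.d : ℝ) * |(g.T x : ℝ)| := by nlinarith
        exact le_of_mul_le_mul_left h6 (by linarith)
      have hnn : (((n + 1 : ℕ) : ℝ)) * (g.R / Y) ≤ 1 / 2 := by
        refine le_trans (mul_le_mul_of_nonneg_right ?_ hq) hk
        exact_mod_cast hn
      push_cast at hnn
      have hpos : 0 ≤ 1 - n * (g.R / Y) := by nlinarith
      have hp := g.prod_pos' n (g.T x)
      calc g.a (x % g.d) * g.prod n (g.T x) * |(x : ℝ)| * (1 - ((n + 1 : ℕ) : ℝ) * (g.R / Y))
          ≤ g.a (x % g.d) * g.prod n (g.T x) * |(x : ℝ)| * ((1 - g.R / Y) * (1 - n * (g.R / Y))) := by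
            apply mul_le_mul_of_nonneg_left _ (by positivity)
            push_cast
            have : 0 ≤ (n : ℝ) * (g.R / Y) * (g.R / Y) := by positivity
            nlinarith
        _ = g.prod n (g.T x) * (g.a (x % g.d) * |(x : ℝ)| * (1 - g.R / Y)) * (1 - n * (g.R / Y)) := by
            ring
        _ ≤ g.prod n (g.T x) * |(g.T x : ℝ)| * (1 - n * (g.R / Y)) := by
            apply mul_le_mul_of_nonneg_right _ hpos
            exact mul_le_mul_of_nonneg_left h1 hp.le
        _ ≤ _ := ih'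
  intro x h
  have h1 := key k le_rfl x h
  have hp := g.prod_pos' k x
  have h2 : 0 ≤ g.prod k x * |(x : ℝ)| := by positivity
  nlinarith

/-- the signed product of the multipliers -/
noncomputable def sp (k : ℕ) (x : ℤ) : ℝ :=
  ∏ j ∈ range k, (g.m ((g.T^[j] x) % g.d) : ℝ) / g.d

theorem sp_succ_left (k : ℕ) (x : ℤ) :
    g.sp (k + 1) x = (g.m (x % g.d) : ℝ) / g.d * g.sp k (g.T x) := by
  unfold GM.sp
  rw [prod_range_succ', mul_comm]
  rfl

theorem abs_sp (k : ℕ) (x : ℤ) : |g.sp k x| = g.prod k x := by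
  unfold GM.sp GM.prod
  rw [abs_prod]
  apply prod_congr rfl
  intro j _
  have := g.dr
  unfold a
  rw [abs_div, abs_of_pos (show (0 : ℝ) < g.d by linarith)]

/-- the additive error at a first passage is small -/
theorem err (B : ℝ) (hB : 0 < B) (k : ℕ) (hk : (k : ℝ) * (g.R / B) ≤ 1 / 2) :
    ∀ n ≤ k, ∀ x : ℤ, (∀ j < n, B ≤ |((g.T^[j] x : ℤ) : ℝ)|) → |((g.T^[n] x : ℤ) : ℝ)| ≤ B →
      |((g.T^[n] x : ℤ) : ℝ) - g.sp n x * x| ≤ n * g.R := by
  have hR := g.R_nonneg
  have hd := g.dr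
  intro n
  induction n with
  | zero => intro _ x _ _; simp [GM.sp]
  | succ n ih =>
    intro hn x h hlt
    rw [Function.iterate_succ_apply] at hlt ⊢
    have h' : ∀ j < n, B ≤ |((g.T^[j] (g.T x) : ℤ) : ℝ)| := fun j hj => by
      have := h (j + 1) (by omega)
      rwa [Function.iterate_succ_apply] at this
    have ih' := ih (by omega) (g.T x) h' hlt
    -- the product is at most two
    have hp2 : g.prod n (g.T x) ≤ 2 := by
      rcases Nat.eq_zero_or_pos n with h0 | h0
      · subst h0; rw [g.prod_zero']; norm_num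
      · have h1 := g.iter_ge B hB n (by
          refine le_trans (mul_le_mul_of_nonneg_right ?_ (by positivity)) hk
          have : n ≤ k := by omega
          exact_mod_cast this) (g.T x) h'
        have h2 : B ≤ |((g.T x : ℤ) : ℝ)| := h' 0 h0
        have h3 : g.prod n (g.T x) * B ≤ 2 * B := by
          calc g.prod n (g.T x) * B ≤ g.prod n (g.T x) * |((g.T x : ℤ) : ℝ)| :=
                mul_le_mul_of_nonneg_left h2 (g.prod_pos' _ _).le
            _ ≤ 2 * |((g.T^[n] (g.T x) : ℤ) : ℝ)| := h1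
            _ ≤ 2 * B := by linarith
        exact le_of_mul_le_mul_right h3 hB
    have hm := g.T_mul x
    have hm' : (g.d : ℝ) * (g.T x : ℝ) = (g.m (x % g.d) : ℝ) * x - (g.r (x % g.d) : ℝ) := by
      exact_mod_cast hm
    have e : g.sp n (g.T x) * (g.T x : ℝ) - g.sp (n + 1) x * x =
        - (g.sp n (g.T x) * (g.r (x % g.d) / g.d)) := by
      rw [g.sp_succ_left]
      have : (g.T x : ℝ) = (g.m (x % g.d) : ℝ) / g.d * x - g.r (x % g.d) / g.d := by
        field_simp; linarith
      rw [this]; ring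
    have h4 : |g.sp n (g.T x) * (g.T x : ℝ) - g.sp (n + 1) x * x| ≤ g.R := by
      rw [e, abs_neg, abs_mul, g.abs_sp, abs_div, abs_of_pos (show (0 : ℝ) < g.d by linarith)]
      have h5 := g.r_le x
      calc g.prod n (g.T x) * (|(g.r (x % g.d) : ℝ)| / g.d) ≤ 2 * (g.R / 2) := by
            apply mul_le_mul hp2 _ (by positivity) (by norm_num)
            apply div_le_div₀ hR h5 (by norm_num) hd
        _ = g.R := by ring
    have e2 : ((g.T^[n] (g.T x) : ℤ) : ℝ) - g.sp (n + 1) x * x =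
        (((g.T^[n] (g.T x) : ℤ) : ℝ) - g.sp n (g.T x) * (g.T x : ℝ)) +
        (g.sp n (g.T x) * (g.T x : ℝ) - g.sp (n + 1) x * x) := by ring
    rw [e2]
    refine (abs_add_le _ _).trans ?_
    push_cast
    linarith

/-- number of visits of the residue `i` among the first `k` elements of the orbit -/
def cnt (k : ℕ) (x : ℤ) (i : ℕ) : ℕ :=
  ((range k).filter fun j => ((g.T^[j] x) % g.d).toNat = i).card

theorem cnt_le (k : ℕ) (x : ℤ) (i : ℕ) : g.cnt k x i ≤ k := by
  unfold cnt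
  refine (card_filter_le _ _).trans ?_
  rw [card_range]

/-- the signed product depends on the numbers of visits only -/
theorem sp_eq (k : ℕ) (x : ℤ) :
    g.sp k x = ∏ i ∈ range g.d, ((g.m (i : ℤ) : ℝ) / g.d) ^ g.cnt k x i := by
  unfold GM.sp
  rw [← prod_fiberwise_of_maps_to (s := range k) (t := range g.d)
    (g := fun j => ((g.T^[j] x) % g.d).toNat)]
  · apply prod_congr rfl
    intro i _
    unfold cnt
    rw [← prod_const]
    apply prod_congr rfl
    intro j hj
    rw [mem_filter] at hj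
    have h0 := g.res_nonneg (g.T^[j] x)
    have : (g.T^[j] x) % g.d = i := by
      rw [← hj.2, Int.toNat_of_nonneg h0]
    rw [this]
  · intro j _
    rw [mem_range]
    have h0 := g.res_nonneg (g.T^[j] x)
    have h1 := g.res_lt (g.T^[j] x)
    omega

/-- integers in a short interval -/
theorem card_of_close (F : Finset ℤ) (L : ℝ) (hL : 0 ≤ L)
    (h : ∀ x ∈ F, ∀ y ∈ F, |(x : ℝ) - y| ≤ L) : (F.card : ℝ) ≤ L + 1 := by
  rcases F.eq_empty_or_nonempty with h0 | h0
  · rw [h0]; simp; linarith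
  · set a := F.min' h0 with ha
    have ha' : a ∈ F := F.min'_mem h0
    have hsub : F ⊆ Finset.Icc a (a + ⌊L⌋) := by
      intro x hx
      have h1 : a ≤ x := F.min'_le x hx
      have h2 := h x hx a ha'
      rw [mem_Icc]
      refine ⟨h1, ?_⟩
      have h3 : ((x - a : ℤ) : ℝ) ≤ L := by
        push_cast
        exact (le_abs_self _).trans h2
      have := Int.le_floor.2 h3
      linarith
    have h4 := card_le_card hsub
    rw [Int.card_Icc] at h4
    have h5 : (0 : ℤ) ≤ ⌊L⌋ := Int.floor_nonneg.2 hL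
    have h6 : ((a + ⌊L⌋ + 1 - a).toNat : ℤ) = ⌊L⌋ + 1 := by
      rw [Int.toNat_of_nonneg (by linarith)]; ring
    have h7 : (F.card : ℝ) ≤ ((a + ⌊L⌋ + 1 - a).toNat : ℝ) := by exact_mod_cast h4
    have h8 : ((a + ⌊L⌋ + 1 - a).toNat : ℝ) = ⌊L⌋ + 1 := by exact_mod_cast h6
    rw [h8] at h7
    have := Int.floor_le L
    linarith

/-- **Fibres of the first passage.** -/
theorem card_fiber (B b X : ℝ) (hX : 0 ≤ X) (hb : 0 < b) (hbB : b ≤ B) (n : ℕ)
    (hk : (n : ℝ) * (g.R / B) ≤ 1 / 2) (hk2 : (n : ℝ) * (g.R * g.d / B) ≤ Real.log 2)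
    (y : ℤ) (hy : b ≤ |(y : ℝ)|) (hyB : |(y : ℝ)| ≤ B) (v : ℕ → ℕ) (F : Finset ℤ)
    (hF : ∀ x ∈ F, |(x : ℝ)| ≤ X ∧ (∀ j < n, B ≤ |((g.T^[j] x : ℤ) : ℝ)|) ∧ g.T^[n] x = y ∧
      ∀ i ∈ range g.d, g.cnt n x i = v i) :
    (F.card : ℝ) ≤ 4 * n * g.R * X / b + 1 := by
  have hR := g.R_nonneg
  have hB : 0 < B := lt_of_lt_of_le hb hbB
  have hd := g.dr
  set P : ℝ := ∏ i ∈ range g.d, ((g.m (i : ℤ) : ℝ) / g.d) ^ v i with hP
  have hsp : ∀ x ∈ F, g.sp n x = P := by
    intro x hx
    rw [g.sp_eq, hP]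
    apply prod_congr rfl
    intro i hi
    rw [(hF x hx).2.2.2 i hi]
  · apply card_of_close F _ (by positivity)
    intro x hx x' hx'
    obtain ⟨h1, h2, h3, h4⟩ := hF x hx
    obtain ⟨h1', h2', h3', h4'⟩ := hF x' hx'
    have e1 := g.err B hB n hk n le_rfl x h2 (by rw [h3]; exact hyB)
    have e2 := g.err B hB n hk n le_rfl x' h2' (by rw [h3']; exact hyB)
    rw [h3, hsp x hx] at e1
    rw [h3', hsp x' hx'] at e2
    have e3 : |P| * |(x : ℝ) - x'| ≤ 2 * n * g.R := by
      rw [← abs_mul]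
      have e : P * ((x : ℝ) - x') = ((y : ℝ) - P * x') - ((y : ℝ) - P * x) := by ring
      rw [e]
      refine (abs_sub _ _).trans ?_
      linarith
    have e4 : b / (2 * X) ≤ |P| ∨ X = 0 := by
      rcases hX.eq_or_lt with h | h
      · right; exact h.symm
      · left
        have e5 := g.iter_le B hB n x h2
        rw [h3] at e5
        have e6 : Real.exp (n * (g.R * g.d / B)) ≤ 2 := by
          calc Real.exp (n * (g.R * g.d / B)) ≤ Real.exp (Real.log 2) := Real.exp_le_exp.2 hk2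
            _ = 2 := Real.exp_log (by norm_num)
        have e7 : g.prod n x = |P| := by rw [← hsp x hx, g.abs_sp]
        rw [e7] at e5
        rw [div_le_iff₀ (by positivity)]
        calc b ≤ |(y : ℝ)| := hy
          _ ≤ |P| * |(x : ℝ)| * Real.exp (n * (g.R * g.d / B)) := e5
          _ ≤ |P| * X * 2 := by
              apply mul_le_mul _ e6 (Real.exp_pos _).le (by positivity)
              exact mul_le_mul_of_nonneg_left h1 (abs_nonneg _)
          _ = |P| * (2 * X) := by ring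
    rcases e4 with e4 | e4
    · rcases hX.eq_or_lt with h | h
      · have a1 : (x : ℝ) = 0 := by
          rw [← h] at h1; exact abs_eq_zero.1 (le_antisymm h1 (abs_nonneg _))
        have a2 : (x' : ℝ) = 0 := by
          rw [← h] at h1'; exact abs_eq_zero.1 (le_antisymm h1' (abs_nonneg _))
        rw [a1, a2, sub_zero, abs_zero]; positivity
      · have e8 : b / (2 * X) * |(x : ℝ) - x'| ≤ 2 * n * g.R :=
          (mul_le_mul_of_nonneg_right e4 (abs_nonneg _)).trans e3
        rw [div_mul_eq_mul_div, div_le_iff₀ (by positivity)] at e8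
        rw [le_div_iff₀ hb]
        linarith
    · have a1 : (x : ℝ) = 0 := by
        rw [e4] at h1; exact abs_eq_zero.1 (le_antisymm h1 (abs_nonneg _))
      have a2 : (x' : ℝ) = 0 := by
        rw [e4] at h1'; exact abs_eq_zero.1 (le_antisymm h1' (abs_nonneg _))
      rw [a1, a2, sub_zero, abs_zero]; positivity

end GM

end Pool.Agent.H319R2.M
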