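import Mathlib
import Pool.Agent.H319R2.MBasic

set_option autoImplicit false

/-!
First passages for generalised Collatz maps which contract on average on an invariant set.
-/

namespace Pool.Agent.H319R2.M

open Finset Filter Pool.Agent.H319R2.G

namespace GM

variable (g : GM)

/-- contraction on average on the set `S0`: few elements of a long interval have a large
multiplier -/
def Small (S0 : Set ℤ) (η : ℝ) : Prop :=
  ∃ C : ℝ, 0 < C ∧ ∀ k : ℕ, ∃ s ≤ k, ∀ F : Finset ℤ,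
    (∀ x ∈ F, x ∈ S0 ∧ |x| ≤ (g.d : ℤ) ^ k ∧ 1 / (2 * (g.d : ℝ)) < g.prod s x) →
      (F.card : ℝ) ≤ C * ((g.d : ℝ) ^ η) ^ k

/-- first passage below level `i` at time `n` -/
def FP (i n : ℕ) (x : ℤ) : Prop :=
  (∀ j < n, (g.d : ℤ) ^ i ≤ |g.T^[j] x|) ∧ |g.T^[n] x| < (g.d : ℤ) ^ i

/-- stuck at level `i` for `s` steps -/
def Stuck (i s : ℕ) (y : ℤ) : Prop :=
  |y| < (g.d : ℤ) ^ i ∧ ∀ j ≤ s, (g.d : ℤ) ^ (i - 1) ≤ |g.T^[j] y|

theorem fp_step {i s n : ℕ} {x : ℤ} (hi : 1 ≤ i) (h : g.FP i n x)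
    (hns : ¬ g.Stuck i s (g.T^[n] x)) : ∃ n' ≤ n + s, g.FP (i - 1) n' x := by
  classical
  unfold Stuck at hns
  push Not at hns
  obtain ⟨j, hj, hlt⟩ := hns h.2
  have hex : ∃ r, |g.T^[r] (g.T^[n] x)| < (g.d : ℤ) ^ (i - 1) := ⟨j, hlt⟩
  refine ⟨n + Nat.find hex, Nat.add_le_add_left ((Nat.find_min' hex hlt).trans hj) _, ?_, ?_⟩
  · intro j' hj'
    have hpow : (g.d : ℤ) ^ (i - 1) ≤ (g.d : ℤ) ^ i :=
      pow_le_pow_right₀ (by have := g.two_le; omega) (by omega)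
    rcases Nat.lt_or_ge j' n with h3 | h3
    · exact hpow.trans (h.1 j' h3)
    · obtain ⟨r, rfl⟩ := Nat.exists_eq_add_of_le h3
      have := Nat.find_min hex (m := r) (by omega)
      rw [← Function.iterate_add_apply, add_comm r n] at this
      exact not_lt.1 this
  · have := Nat.find_spec hex
    rwa [← Function.iterate_add_apply, add_comm _ n] at this

theorem descend (s : ℕ → ℕ) (hs : ∀ i, s i ≤ i) {k l : ℕ} {x : ℤ} (hx : |x| < (g.d : ℤ) ^ k)
    (h : ∀ i, l < i → i ≤ k → ∀ n ≤ k ^ 2, g.FP i n x → ¬ g.Stuck i (s i) (g.T^[n] x)) :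
    ∀ e, l + e ≤ k → ∃ n ≤ e * k, g.FP (k - e) n x := by
  intro e
  induction e with
  | zero => intro _; exact ⟨0, by simp, by intro j hj; omega, by simpa using hx⟩
  | succ e ih =>
    intro he
    obtain ⟨n, hn, hfp⟩ := ih (by omega)
    have hnk : n ≤ k ^ 2 := by
      refine hn.trans ?_
      rw [pow_two]
      exact Nat.mul_le_mul_right _ (by omega)
    obtain ⟨n', h1, h2⟩ := g.fp_step (by omega) hfp (h (k - e) (by omega) (by omega) n hnk hfp)
    refine ⟨n', ?_, by rwa [Nat.sub_sub] at h2⟩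
    have := hs (k - e)
    have : s (k - e) ≤ k := by omega
    rw [add_mul, one_mul]
    omega

/-- the stuck elements of `S0` -/
noncomputable def St (S0 : Set ℤ) (i s : ℕ) : Finset ℤ := by
  classical
  exact (Finset.Icc (-((g.d : ℤ) ^ i)) ((g.d : ℤ) ^ i)).filter fun y => y ∈ S0 ∧ g.Stuck i s y

theorem mem_St {S0 : Set ℤ} {i s : ℕ} {y : ℤ} : y ∈ g.St S0 i s ↔ y ∈ S0 ∧ g.Stuck i s y := by
  classical
  unfold St
  rw [mem_filter, mem_Icc]
  constructor
  · exact fun h => h.2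
  · intro h
    have := abs_lt.1 h.2.1
    exact ⟨⟨by linarith, by linarith⟩, h⟩

theorem prod_of_stuck {i s : ℕ} {y : ℤ} (hi : 1 ≤ i) (h : g.Stuck i s y)
    (hc : (s : ℝ) * (g.R * g.d / (g.d : ℝ) ^ (i - 1)) ≤ Real.log 2) :
    1 / (2 * (g.d : ℝ)) < g.prod s y := by
  have hd := g.dr
  have hd0 : (0 : ℝ) < g.d := by linarith
  have h1 : ∀ j ≤ s, (g.d : ℝ) ^ (i - 1) ≤ |((g.T^[j] y : ℤ) : ℝ)| := by
    intro j hj
    have := h.2 j hj
    exact_mod_cast this
  have h2 := g.iter_le ((g.d : ℝ) ^ (i - 1)) (by positivity) s y (fun j hj => h1 j hj.le)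
  have h3 : Real.exp (s * (g.R * g.d / (g.d : ℝ) ^ (i - 1))) ≤ 2 := by
    calc _ ≤ Real.exp (Real.log 2) := Real.exp_le_exp.2 hc
      _ = 2 := Real.exp_log (by norm_num)
  have h4 : |(y : ℝ)| < (g.d : ℝ) ^ i := by
    have := h.1
    exact_mod_cast this
  have h5 := h1 s le_rfl
  have hp := g.prod_pos' s y
  have h6 : (g.d : ℝ) ^ (i - 1) < g.prod s y * (g.d : ℝ) ^ i * 2 := by
    calc (g.d : ℝ) ^ (i - 1) ≤ |((g.T^[s] y : ℤ) : ℝ)| := h5
      _ ≤ g.prod s y * |(y : ℝ)| * Real.exp (s * (g.R * g.d / (g.d : ℝ) ^ (i - 1))) := h2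
      _ ≤ g.prod s y * |(y : ℝ)| * 2 := mul_le_mul_of_nonneg_left h3 (by positivity)
      _ < g.prod s y * (g.d : ℝ) ^ i * 2 := by
          apply mul_lt_mul_of_pos_right _ (by norm_num)
          exact mul_lt_mul_of_pos_left h4 hp
  have h7 : (g.d : ℝ) ^ i = g.d ^ (i - 1) * g.d := by
    rw [← pow_succ]; congr 1; omega
  rw [h7] at h6
  rw [div_lt_iff₀ (by positivity)]
  have h8 : (0 : ℝ) < (g.d : ℝ) ^ (i - 1) := by positivity
  have h9 : (g.d : ℝ) ^ (i - 1) * 1 < (g.d : ℝ) ^ (i - 1) * (g.prod s y * (2 * g.d)) := by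
    rw [mul_one]
    calc _ < _ := h6
      _ = _ := by ring
  exact lt_of_mul_lt_mul_left h9 h8.le

/-- **The multiplicity bound.** -/
theorem card_passage (S0 : Set ℤ) (hinv : ∀ x ∈ S0, g.T x ∈ S0) (X : ℝ) (hX : 0 ≤ X) (i s n : ℕ)
    (hi : 1 ≤ i) (hk : (n : ℝ) * (g.R / (g.d : ℝ) ^ i) ≤ 1 / 2)
    (hk2 : (n : ℝ) * (g.R * g.d / (g.d : ℝ) ^ i) ≤ Real.log 2) (F : Finset ℤ)
    (hF : ∀ x ∈ F, x ∈ S0 ∧ |(x : ℝ)| ≤ X ∧ g.FP i n x ∧ g.Stuck i s (g.T^[n] x)) :
    (F.card : ℝ) ≤ (g.St S0 i s).card * ((n + 1) ^ g.d *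
      (4 * n * g.R * X / (g.d : ℝ) ^ (i - 1) + 1)) := by
  classical
  have hd := g.dr
  have hd0 : (0 : ℝ) < g.d := by linarith
  have hinv' : ∀ (j : ℕ) (x : ℤ), x ∈ S0 → g.T^[j] x ∈ S0 := by
    intro j
    induction j with
    | zero => intro x hx; exact hx
    | succ j ih => intro x hx; rw [Function.iterate_succ_apply']; exact hinv _ (ih x hx)
  set V := Fintype.piFinset (fun _ : Fin g.d => range (n + 1)) with hV
  set fib : ℤ → (Fin g.d → ℕ) → Finset ℤ := fun y v =>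
    F.filter (fun x => g.T^[n] x = y ∧ ∀ i : Fin g.d, g.cnt n x i = v i) with hfib
  have hsub : F ⊆ (g.St S0 i s).biUnion (fun y => V.biUnion (fun v => fib y v)) := by
    intro x hx
    obtain ⟨h1, h2, h3, h4⟩ := hF x hx
    rw [mem_biUnion]
    refine ⟨g.T^[n] x, g.mem_St.2 ⟨hinv' n x h1, h4⟩, ?_⟩
    rw [mem_biUnion]
    refine ⟨fun i => g.cnt n x i, ?_, ?_⟩
    · rw [hV, Fintype.mem_piFinset]
      intro i
      rw [mem_range]
      have := g.cnt_le n x i
      omega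
    · rw [hfib, mem_filter]
      exact ⟨hx, rfl, fun _ => rfl⟩
  have hone : ∀ y ∈ g.St S0 i s, ∀ v ∈ V, ((fib y v).card : ℝ) ≤
      4 * n * g.R * X / (g.d : ℝ) ^ (i - 1) + 1 := by
    intro y hy v _
    have hy' := (g.mem_St.1 hy).2
    apply g.card_fiber ((g.d : ℝ) ^ i) ((g.d : ℝ) ^ (i - 1)) X hX (by positivity)
      (pow_le_pow_right₀ (by linarith) (by omega)) n hk hk2 y
      (by have := hy'.2 0 (Nat.zero_le _); exact_mod_cast this)
      (by have := hy'.1.le; exact_mod_cast this)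
      (fun i => if h : i < g.d then v ⟨i, h⟩ else 0)
    intro x hx
    rw [hfib, mem_filter] at hx
    obtain ⟨hxF, hx1, hx2⟩ := hx
    obtain ⟨h1, h2, h3, h4⟩ := hF x hxF
    refine ⟨h2, ?_, hx1, ?_⟩
    · intro j hj
      have := h3.1 j hj
      exact_mod_cast this
    · intro i hi
      rw [mem_range] at hi
      simp only [hi, dif_pos]
      exact hx2 ⟨i, hi⟩
  have h1 := (card_le_card hsub).trans card_biUnion_le
  have h2 : (F.card : ℝ) ≤ ∑ y ∈ g.St S0 i s, (((V.biUnion (fun v => fib y v)).card : ℕ) : ℝ) := by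
    exact_mod_cast h1
  refine h2.trans ?_
  rw [← nsmul_eq_mul]
  apply sum_le_card_nsmul
  intro y hy
  have h3 : (((V.biUnion (fun v => fib y v)).card : ℕ) : ℝ) ≤ ∑ v ∈ V, ((fib y v).card : ℝ) := by
    exact_mod_cast card_biUnion_le
  refine h3.trans ((sum_le_sum (hone y hy)).trans ?_)
  rw [sum_const, nsmul_eq_mul, hV, Fintype.card_piFinset_const, card_range]
  push_cast
  exact le_rfl

/-- **Descent.** Almost all elements of `S0` come close to the origin. -/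
theorem descent (S0 : Set ℤ) (hinv : ∀ x ∈ S0, g.T x ∈ S0) (η : ℝ) (hη0 : 0 < η) (hη1 : η < 1)
    (hsm : g.Small S0 η) : ∃ C : ℝ, 0 < C ∧ ∀ X Y : ℝ, 2 ≤ X → 1 ≤ Y → ∀ F : Finset ℤ,
      (∀ x ∈ F, x ∈ S0 ∧ |(x : ℝ)| ≤ X ∧ ∀ n, Y ≤ |((g.T^[n] x : ℤ) : ℝ)|) →
      (F.card : ℝ) ≤ C * X * Real.log X ^ (2 * g.d + 4) * Y ^ (η - 1) := by
  classical
  obtain ⟨C0, hC0, hsm⟩ := hsm
  choose s hs hsF using hsm
  have hd := g.dr
  have hd0 : (0 : ℝ) < g.d := by linarith
  have hR := g.R_nonneg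
  have hl2 : 0 < Real.log 2 := Real.log_pos (by norm_num)
  have hl2' : 1 / 2 < Real.log 2 := by have := Real.log_two_gt_d9; linarith
  set D : ℕ := 2 * g.d + 4 with hD
  set q : ℝ := (g.d : ℝ) ^ (η - 1) with hq
  have hq0 : 0 < q := by positivity
  have hq1 : q < 1 := Real.rpow_lt_one_of_one_lt_of_neg (by linarith) (by linarith)
  -- constants
  set E : ℝ := (5 / Real.log 2 ^ 2) with hE
  have hE0 : 0 < E := by positivity
  set C1 : ℝ := C0 * (4 * g.R + 1) * g.d ^ 2 * E ^ (g.d + 2) / (1 - q) with hC1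
  have hC10 : 0 < C1 := by
    rw [hC1]
    have : 0 < 1 - q := by linarith
    positivity
  set C2 : ℝ := 3 * (1 + 2 * g.R * g.d ^ 2 * E) * (1 + 1 / Real.log 2 ^ 2) / Real.log 2 ^ (2 * g.d + 2)
    with hC2
  have hC20 : 0 < C2 := by positivity
  refine ⟨C1 + C2, by positivity, ?_⟩
  intro X Y hX hY F hF
  have hX0 : 0 < X := by linarith
  have hY0 : 0 < Y := by linarith
  have hlX : Real.log 2 ≤ Real.log X := Real.log_le_log (by norm_num) hX
  have hlX0 : 0 < Real.log X := by linarith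
  have hYp : 0 < Y ^ (η - 1) := by positivity
  -- the levels
  have hd2 : 1 < g.d := g.two_le
  obtain ⟨k, hk⟩ : ∃ k, k = Nat.log g.d ⌊X⌋₊ + 1 := ⟨_, rfl⟩
  have hflX : ⌊X⌋₊ ≠ 0 := by
    have : 1 ≤ ⌊X⌋₊ := Nat.one_le_floor_iff _ |>.2 (by linarith)
    omega
  have hk1 : X < (g.d : ℝ) ^ k := by
    have h1 := Nat.lt_pow_succ_log_self (b := g.d) hd2 ⌊X⌋₊
    have h2 : ⌊X⌋₊ + 1 ≤ g.d ^ k := by rw [hk]; exact h1
    have h3 : X < ⌊X⌋₊ + 1 := Nat.lt_floor_add_one X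
    have h4 : ((⌊X⌋₊ + 1 : ℕ) : ℝ) ≤ ((g.d ^ k : ℕ) : ℝ) := by exact_mod_cast h2
    push_cast at h4
    linarith
  have hk2 : (g.d : ℝ) ^ k ≤ g.d * X := by
    have h1 := Nat.pow_log_le_self g.d hflX
    have h3 : (⌊X⌋₊ : ℝ) ≤ X := Nat.floor_le (by linarith)
    have h4 : ((g.d ^ Nat.log g.d ⌊X⌋₊ : ℕ) : ℝ) ≤ (⌊X⌋₊ : ℝ) := by exact_mod_cast h1
    push_cast at h4
    rw [hk, pow_succ, mul_comm]
    exact mul_le_mul_of_nonneg_left (h4.trans h3) hd0.le
  obtain ⟨l, hl⟩ : ∃ l, l = Nat.log g.d ⌊Y⌋₊ := ⟨_, rfl⟩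
  have hflY : ⌊Y⌋₊ ≠ 0 := by
    have : 1 ≤ ⌊Y⌋₊ := Nat.one_le_floor_iff _ |>.2 (by linarith)
    omega
  have hl1 : Y < (g.d : ℝ) ^ (l + 1) := by
    have h1 := Nat.lt_pow_succ_log_self (b := g.d) hd2 ⌊Y⌋₊
    have h2 : ⌊Y⌋₊ + 1 ≤ g.d ^ (l + 1) := by rw [hl]; exact h1
    have h3 : Y < ⌊Y⌋₊ + 1 := Nat.lt_floor_add_one Y
    have h4 : ((⌊Y⌋₊ + 1 : ℕ) : ℝ) ≤ ((g.d ^ (l + 1) : ℕ) : ℝ) := by exact_mod_cast h2
    push_cast at h4
    linarith
  have hl3 : (g.d : ℝ) ^ l ≤ Y := by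
    have h1 := Nat.pow_log_le_self g.d hflY
    have h3 : (⌊Y⌋₊ : ℝ) ≤ Y := Nat.floor_le (by linarith)
    have h4 : ((g.d ^ Nat.log g.d ⌊Y⌋₊ : ℕ) : ℝ) ≤ (⌊Y⌋₊ : ℝ) := by exact_mod_cast h1
    push_cast at h4
    rw [hl]
    exact h4.trans h3
  -- the size of `k`
  have hkk : ((k : ℝ) ^ 2 + 1) ≤ E * Real.log X ^ 2 := by
    have h1 : (k : ℝ) - 1 ≤ Real.log X / Real.log 2 := by
      have h2 : (g.d : ℝ) ^ (k - 1) ≤ X := by
        have h3 := Nat.pow_log_le_self g.d hflX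
        have h4 : (⌊X⌋₊ : ℝ) ≤ X := Nat.floor_le (by linarith)
        have h5 : ((g.d ^ Nat.log g.d ⌊X⌋₊ : ℕ) : ℝ) ≤ (⌊X⌋₊ : ℝ) := by exact_mod_cast h3
        push_cast at h5
        rw [hk, Nat.add_sub_cancel]; exact h5.trans h4
      have h3 : (2 : ℝ) ^ (k - 1) ≤ X := (pow_le_pow_left₀ (by norm_num) hd _).trans h2
      have h4 := Real.log_le_log (by positivity) h3
      rw [Real.log_pow] at h4
      rw [le_div_iff₀ hl2]
      have h5 : ((k - 1 : ℕ) : ℝ) = (k : ℝ) - 1 := by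
        rw [Nat.cast_sub (by omega), Nat.cast_one]
      rw [h5] at h4
      exact h4
    have h2 : 1 ≤ Real.log X / Real.log 2 := by rw [le_div_iff₀ hl2]; linarith
    set z := Real.log X / Real.log 2 with hz
    have h3 : (k : ℝ) ≤ 2 * z := by linarith
    have h4 : (k : ℝ) ^ 2 ≤ (2 * z) ^ 2 := pow_le_pow_left₀ (by positivity) h3 2
    have h5 : E * Real.log X ^ 2 = 5 * z ^ 2 := by rw [hE, hz, div_pow]; ring
    rw [h5]
    nlinarith
  -- trivial case
  have hFX : (F.card : ℝ) ≤ 3 * X := by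
    have h1 : (F.card : ℝ) ≤ 2 * X + 1 := by
      have hsub : F ⊆ Finset.Icc (-⌊X⌋) ⌊X⌋ := by
        intro y hy
        have h := abs_le.1 (hF y hy).2.1
        rw [mem_Icc]
        constructor
        · rw [neg_le]
          apply Int.le_floor.2
          push_cast; linarith
        · apply Int.le_floor.2; linarith
      have h1 := card_le_card hsub
      rw [Int.card_Icc] at h1
      have h2 : (0 : ℤ) ≤ ⌊X⌋ := Int.floor_nonneg.2 hX0.le
      have h3 : ((⌊X⌋ + 1 - -⌊X⌋).toNat : ℝ) = 2 * ⌊X⌋ + 1 := by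
        have : ((⌊X⌋ + 1 - -⌊X⌋).toNat : ℤ) = 2 * ⌊X⌋ + 1 := by
          rw [Int.toNat_of_nonneg (by linarith)]; ring
        exact_mod_cast this
      have h4 : (F.card : ℝ) ≤ ((⌊X⌋ + 1 - -⌊X⌋).toNat : ℝ) := by exact_mod_cast h1
      rw [h3] at h4
      have := Int.floor_le X
      linarith
    linarith
  rcases le_or_gt k l with hkl | hkl
  · -- no elements
    have : F = ∅ := by
      rw [Finset.eq_empty_iff_forall_notMem]
      intro x hx
      obtain ⟨_, h2, h3⟩ := hF x hx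
      have h4 := h3 0
      simp only [Function.iterate_zero, id_eq] at h4
      have h5 : (g.d : ℝ) ^ k ≤ (g.d : ℝ) ^ l := pow_le_pow_right₀ (by linarith) hkl
      linarith
    rw [this]
    simp only [card_empty, Nat.cast_zero]
    positivity
  rcases lt_or_ge (1 / 2 : ℝ) ((k : ℝ) ^ 2 * (g.R * g.d / (g.d : ℝ) ^ l)) with hbig | hsmall
  · -- `Y` is small
    have h1 : (g.d : ℝ) ^ l < 2 * g.R * g.d * (k : ℝ) ^ 2 := by
      rw [← mul_div_assoc, lt_div_iff₀ (by positivity)] at hbig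
      linarith
    have h2 : Y ≤ 2 * g.R * g.d ^ 2 * (E * Real.log X ^ 2) := by
      have h3 : (g.d : ℝ) ^ (l + 1) = g.d ^ l * g.d := pow_succ _ _
      have h4 : (k : ℝ) ^ 2 ≤ E * Real.log X ^ 2 := by linarith
      calc Y ≤ (g.d : ℝ) ^ l * g.d := by rw [← h3]; exact hl1.le
        _ ≤ (2 * g.R * g.d * (k : ℝ) ^ 2) * g.d := mul_le_mul_of_nonneg_right h1.le hd0.le
        _ = 2 * g.R * g.d ^ 2 * (k : ℝ) ^ 2 := by ring
        _ ≤ _ := mul_le_mul_of_nonneg_left h4 (by positivity)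
    have h3 : Y ^ (1 - η) ≤ (1 + 2 * g.R * g.d ^ 2 * E) * (1 + Real.log X ^ 2) := by
      calc Y ^ (1 - η) ≤ Y ^ (1 : ℝ) := Real.rpow_le_rpow_of_exponent_le hY (by linarith)
        _ = Y := Real.rpow_one _
        _ ≤ 2 * g.R * g.d ^ 2 * (E * Real.log X ^ 2) := h2
        _ ≤ _ := by
            have : 0 ≤ 2 * g.R * (g.d : ℝ) ^ 2 * E := by positivity
            have : 0 ≤ Real.log X ^ 2 := by positivity
            nlinarith
    have h4 : 1 + Real.log X ^ 2 ≤ (1 + 1 / Real.log 2 ^ 2) / Real.log 2 ^ (2 * g.d + 2) *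
        Real.log X ^ D := by
      have h5 : Real.log 2 ^ (2 * g.d + 2) ≤ Real.log X ^ (2 * g.d + 2) :=
        pow_le_pow_left₀ hl2.le hlX _
      have h6 : 1 ≤ 1 / Real.log 2 ^ 2 * Real.log X ^ 2 := by
        rw [one_div, inv_mul_eq_div, le_div_iff₀ (by positivity), one_mul]
        exact pow_le_pow_left₀ hl2.le hlX 2
      have h7 : 1 + Real.log X ^ 2 ≤ (1 + 1 / Real.log 2 ^ 2) * Real.log X ^ 2 := by linarith
      refine h7.trans ?_
      rw [div_mul_eq_mul_div, le_div_iff₀ (by positivity)]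
      have e : Real.log X ^ D = Real.log X ^ 2 * Real.log X ^ (2 * g.d + 2) := by
        rw [← pow_add]; congr 1; omega
      rw [e]
      have h8 := mul_le_mul_of_nonneg_left h5
        (by positivity : 0 ≤ (1 + 1 / Real.log 2 ^ 2) * Real.log X ^ 2)
      linarith
    have h5 : 1 = Y ^ (1 - η) * Y ^ (η - 1) := by
      rw [← Real.rpow_add hY0]; simp
    have h6 : 3 * X ≤ C2 * X * Real.log X ^ D * Y ^ (η - 1) := by
      calc 3 * X = 3 * X * (Y ^ (1 - η) * Y ^ (η - 1)) := by rw [← h5, mul_one]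
        _ ≤ 3 * X * (((1 + 2 * g.R * g.d ^ 2 * E) * ((1 + 1 / Real.log 2 ^ 2) /
              Real.log 2 ^ (2 * g.d + 2) * Real.log X ^ D)) * Y ^ (η - 1)) := by
            apply mul_le_mul_of_nonneg_left _ (by positivity)
            apply mul_le_mul_of_nonneg_right _ hYp.le
            refine h3.trans ?_
            exact mul_le_mul_of_nonneg_left h4 (by positivity)
        _ = C2 * X * Real.log X ^ D * Y ^ (η - 1) := by rw [hC2]; ring
    have h7 : C2 * X * Real.log X ^ D * Y ^ (η - 1) ≤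
        (C1 + C2) * X * Real.log X ^ D * Y ^ (η - 1) := by
      apply mul_le_mul_of_nonneg_right _ hYp.le
      apply mul_le_mul_of_nonneg_right _ (by positivity)
      apply mul_le_mul_of_nonneg_right _ hX0.le
      linarith
    linarith
  · -- the main case
    have hcov : F ⊆ (Ioc l k).biUnion (fun i => (range (k ^ 2 + 1)).biUnion (fun n =>
        F.filter (fun x => g.FP i n x ∧ g.Stuck i (s i) (g.T^[n] x)))) := by
      intro x hx
      obtain ⟨h1, h2, h3⟩ := hF x hx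
      by_contra hcon
      simp only [mem_biUnion, mem_Ioc, mem_range, mem_filter, not_exists, not_and] at hcon
      have hxk : |x| < (g.d : ℤ) ^ k := by
        have : |(x : ℝ)| < (g.d : ℝ) ^ k := by linarith
        exact_mod_cast this
      obtain ⟨n, -, hfp⟩ := g.descend s hs (k := k) (l := l) (x := x) hxk (by
        intro i hi1 hi2 n hn hfp
        exact hcon i ⟨hi1, hi2⟩ n (by omega) hx hfp) (k - l) (by omega)
      have h4 := hfp.2
      have e : k - (k - l) = l := by omega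
      rw [e] at h4
      have h5 : |((g.T^[n] x : ℤ) : ℝ)| < (g.d : ℝ) ^ l := by exact_mod_cast h4
      have := h3 n
      linarith
    have hlevel : ∀ i ∈ Ioc l k, ∀ n ∈ range (k ^ 2 + 1),
        (((F.filter (fun x => g.FP i n x ∧ g.Stuck i (s i) (g.T^[n] x))).card : ℕ) : ℝ) ≤
          (C0 * ((g.d : ℝ) ^ η) ^ i) * (((k : ℝ) ^ 2 + 1) ^ g.d *
            ((4 * g.R + 1) * ((k : ℝ) ^ 2 + 1) * (X * g.d ^ 2 / (g.d : ℝ) ^ i))) := by
      intro i hi n hn
      rw [mem_Ioc] at hi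
      rw [mem_range] at hn
      have hi1 : 1 ≤ i := by omega
      have hn1 : (n : ℝ) ≤ (k : ℝ) ^ 2 := by
        have : n ≤ k ^ 2 := by omega
        exact_mod_cast this
      have hpow : (g.d : ℝ) ^ l ≤ (g.d : ℝ) ^ (i - 1) := pow_le_pow_right₀ (by linarith) (by omega)
      have hpow2 : (g.d : ℝ) ^ (i - 1) ≤ (g.d : ℝ) ^ i := pow_le_pow_right₀ (by linarith) (by omega)
      have hpl : (0 : ℝ) < (g.d : ℝ) ^ l := by positivity
      have hc0 : ∀ B : ℝ, (g.d : ℝ) ^ l ≤ B → ∀ a : ℝ, 0 ≤ a → a ≤ (k : ℝ) ^ 2 →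
          a * (g.R * g.d / B) ≤ 1 / 2 := by
        intro B hB a ha0 ha
        refine le_trans ?_ hsmall
        have hB0 : 0 < B := lt_of_lt_of_le hpl hB
        apply mul_le_mul ha _ (by positivity) (by positivity)
        exact div_le_div_of_nonneg_left (by positivity) hpl hB
      have hcn := hc0 _ (hpow.trans hpow2) n (by positivity) hn1
      have hsi : (s i : ℝ) ≤ (k : ℝ) ^ 2 := by
        have h1 : s i ≤ k := (hs i).trans hi.2
        have h2 : s i ≤ k ^ 2 := h1.trans (Nat.le_self_pow (by norm_num) k)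
        exact_mod_cast h2
      have hcs := hc0 _ hpow (s i) (by positivity) hsi
      have h1 := g.card_passage S0 hinv X hX0.le i (s i) n hi1 (by
        refine le_trans ?_ hcn
        apply mul_le_mul_of_nonneg_left _ (by positivity)
        apply div_le_div_of_nonneg_right _ (by positivity)
        nlinarith) (by linarith)
        (F.filter (fun x => g.FP i n x ∧ g.Stuck i (s i) (g.T^[n] x))) (by
          intro x hx
          rw [mem_filter] at hx
          obtain ⟨h1, h2, -⟩ := hF x hx.1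
          exact ⟨h1, h2, hx.2.1, hx.2.2⟩)
      have h2 : ((g.St S0 i (s i)).card : ℝ) ≤ C0 * ((g.d : ℝ) ^ η) ^ i := by
        apply hsF i
        intro y hy
        rw [g.mem_St] at hy
        exact ⟨hy.1, hy.2.1.le, g.prod_of_stuck hi1 hy.2 (by linarith)⟩
      refine h1.trans ?_
      apply mul_le_mul h2 _ (by positivity) (by positivity)
      apply mul_le_mul _ _ (by positivity) (by positivity)
      · exact pow_le_pow_left₀ (by positivity) (by linarith) _
      · -- the last factor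
        have e1 : (g.d : ℝ) ^ i = g.d ^ (i - 1) * g.d := by
          rw [← pow_succ]; congr 1; omega
        have e2 : X * (g.d : ℝ) ^ 2 / (g.d : ℝ) ^ i = X * g.d / (g.d : ℝ) ^ (i - 1) := by
          rw [e1]; field_simp
        have h3 : 1 ≤ X * g.d / (g.d : ℝ) ^ (i - 1) := by
          rw [le_div_iff₀ (by positivity), one_mul]
          calc (g.d : ℝ) ^ (i - 1) ≤ (g.d : ℝ) ^ k := pow_le_pow_right₀ (by linarith) (by omega)
            _ ≤ g.d * X := hk2
            _ = X * g.d := by ring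
        have h4 : 4 * n * g.R * X / (g.d : ℝ) ^ (i - 1) ≤
            4 * g.R * (k : ℝ) ^ 2 * (X * g.d / (g.d : ℝ) ^ (i - 1)) := by
          rw [mul_div_assoc' _ (X * (g.d : ℝ))]
          apply div_le_div_of_nonneg_right _ (by positivity)
          have h5 : 4 * (n : ℝ) * g.R * X ≤ 4 * g.R * (k : ℝ) ^ 2 * X := by
            have := mul_le_mul_of_nonneg_left hn1 (by positivity : 0 ≤ 4 * g.R * X)
            linarith
          have h6 : 4 * g.R * (k : ℝ) ^ 2 * X ≤ 4 * g.R * (k : ℝ) ^ 2 * (X * g.d) := by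
            apply mul_le_mul_of_nonneg_left _ (by positivity)
            nlinarith
          linarith
        rw [e2]
        set W := X * g.d / (g.d : ℝ) ^ (i - 1) with hW
        have hW0 : 0 ≤ W := by linarith
        have hk20 : 0 ≤ (k : ℝ) ^ 2 := by positivity
        have h7 : (4 * g.R + 1) * ((k : ℝ) ^ 2 + 1) * W =
            4 * g.R * (k : ℝ) ^ 2 * W + W + (4 * g.R + (k : ℝ) ^ 2) * W := by ring
        rw [h7]
        have h8 : 0 ≤ (4 * g.R + (k : ℝ) ^ 2) * W := by positivity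
        linarith
    have h1 : (F.card : ℝ) ≤ ∑ i ∈ Ioc l k, ∑ n ∈ range (k ^ 2 + 1),
        (((F.filter (fun x => g.FP i n x ∧ g.Stuck i (s i) (g.T^[n] x))).card : ℕ) : ℝ) := by
      have h2 := (card_le_card hcov).trans card_biUnion_le
      have h3 : (F.card : ℝ) ≤ ∑ i ∈ Ioc l k, ((((range (k ^ 2 + 1)).biUnion (fun n =>
        F.filter (fun x => g.FP i n x ∧ g.Stuck i (s i) (g.T^[n] x)))).card : ℕ) : ℝ) := by
        exact_mod_cast h2
      refine h3.trans (sum_le_sum fun i _ => ?_)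
      exact_mod_cast card_biUnion_le
    have h2 : ∀ i ∈ Ioc l k, ∑ n ∈ range (k ^ 2 + 1),
        (((F.filter (fun x => g.FP i n x ∧ g.Stuck i (s i) (g.T^[n] x))).card : ℕ) : ℝ) ≤
          (C0 * (4 * g.R + 1) * g.d ^ 2 * X * ((k : ℝ) ^ 2 + 1) ^ (g.d + 2)) * q ^ i := by
      intro i hi
      refine (sum_le_sum (hlevel i hi)).trans (le_of_eq ?_)
      rw [sum_const, card_range, nsmul_eq_mul]
      have e1 : q ^ i = ((g.d : ℝ) ^ η) ^ i / (g.d : ℝ) ^ i := by
        rw [hq, Real.rpow_sub_one hd0.ne', div_pow]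
      rw [e1]
      push_cast
      ring
    have h3 : (F.card : ℝ) ≤ ∑ i ∈ Ioc l k,
        (C0 * (4 * g.R + 1) * g.d ^ 2 * X * ((k : ℝ) ^ 2 + 1) ^ (g.d + 2)) * q ^ i :=
      h1.trans (sum_le_sum h2)
    rw [← mul_sum] at h3
    have h4 : ∑ i ∈ Ioc l k, q ^ i ≤ q ^ (l + 1) / (1 - q) := by
      have h5 : Ioc l k = Finset.Ico (l + 1) (k + 1) := by
        ext i; rw [mem_Ioc, mem_Ico]; omega
      rw [h5]
      have h6 := geom_sum_Ico_le_of_lt_one (m := l + 1) (n := k + 1) hq0.le hq1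
      exact h6
    have h5 : q ^ (l + 1) ≤ Y ^ (η - 1) := by
      rw [hq, ← Real.rpow_natCast, ← Real.rpow_mul hd0.le, mul_comm, Real.rpow_mul hd0.le,
        Real.rpow_natCast]
      apply Real.rpow_le_rpow_of_nonpos hY0 hl1.le (by linarith)
    have h6 : ((k : ℝ) ^ 2 + 1) ^ (g.d + 2) ≤ E ^ (g.d + 2) * Real.log X ^ D := by
      have e : Real.log X ^ D = (Real.log X ^ 2) ^ (g.d + 2) := by
        rw [← pow_mul, show D = 2 * (g.d + 2) by omega]
      rw [e, ← mul_pow]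
      exact pow_le_pow_left₀ (by positivity) hkk _
    have h1q : 0 < 1 - q := by linarith
    have h7 : ∑ i ∈ Ioc l k, q ^ i ≤ Y ^ (η - 1) / (1 - q) :=
      h4.trans (div_le_div_of_nonneg_right h5 h1q.le)
    calc (F.card : ℝ)
        ≤ (C0 * (4 * g.R + 1) * g.d ^ 2 * X * ((k : ℝ) ^ 2 + 1) ^ (g.d + 2)) *
            ∑ i ∈ Ioc l k, q ^ i := h3
      _ ≤ (C0 * (4 * g.R + 1) * g.d ^ 2 * X * (E ^ (g.d + 2) * Real.log X ^ D)) *
            (Y ^ (η - 1) / (1 - q)) := by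
          apply mul_le_mul _ h7 (sum_nonneg fun _ _ => by positivity) (by positivity)
          exact mul_le_mul_of_nonneg_left h6 (by positivity)
      _ = C1 * X * Real.log X ^ D * Y ^ (η - 1) := by rw [hC1]; ring
      _ ≤ (C1 + C2) * X * Real.log X ^ D * Y ^ (η - 1) := by
          apply mul_le_mul_of_nonneg_right _ hYp.le
          apply mul_le_mul_of_nonneg_right _ (by positivity)
          apply mul_le_mul_of_nonneg_right _ hX0.le
          linarith

end GM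

end Pool.Agent.H319R2.M
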