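import Mathlib
import Pool.Agent.H319R2.MPass

set_option autoImplicit false

/-!
Leigh's Markov chain: contraction on average on a finite closed communicating class.
-/

namespace Pool.Agent.H319R2.M

open Finset Filter Pool.Agent.H319R2.G

/-! ### Periodic sums -/

theorem sum_perm {M : ℕ} (hM : 0 < M) (h : ℤ → ℝ) (hper : ∀ z w : ℤ, z ≡ w [ZMOD M] → h z = h w)
    (σ : ℤ → ℤ) (hσ : ∀ z ∈ range M, ∀ w ∈ range M, σ z ≡ σ w [ZMOD M] → z = w) :
    ∑ z ∈ range M, h (σ z) = ∑ z ∈ range M, h z := by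
  classical
  set τ : ℕ → ℕ := fun z => (σ z % M).toNat with hτ
  have hM' : (0 : ℤ) < M := by exact_mod_cast hM
  have hτz : ∀ z : ℕ, ((τ z : ℕ) : ℤ) = σ z % M := by
    intro z
    rw [hτ]
    exact Int.toNat_of_nonneg (Int.emod_nonneg _ hM'.ne')
  have hmem : ∀ z ∈ range M, τ z ∈ range M := by
    intro z _
    rw [mem_range]
    have h1 := hτz z
    have h2 := Int.emod_lt_of_pos (σ z) hM'
    omega
  have hinj : Set.InjOn τ (range M) := by
    intro z hz w hw hzw
    apply hσ z (by simpa using hz) w (by simpa using hw)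
    have h1 := hτz z
    have h2 := hτz w
    have hzw' : τ z = τ w := hzw
    rw [hzw', h2] at h1
    exact h1.symm
  have himg : (range M).image τ = range M := by
    apply Finset.eq_of_subset_of_card_le
    · intro y hy
      rw [mem_image] at hy
      obtain ⟨z, hz, rfl⟩ := hy
      exact hmem z hz
    · rw [card_image_of_injOn hinj]
  calc ∑ z ∈ range M, h (σ z) = ∑ z ∈ range M, h (τ z) := by
        apply sum_congr rfl
        intro z _
        apply hper
        rw [hτz]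
        exact (Int.mod_modEq _ _).symm
    _ = ∑ z ∈ (range M).image τ, h z := (sum_image (f := fun z : ℕ => h z) hinj).symm
    _ = ∑ z ∈ range M, h z := by rw [himg]

theorem sum_split (h : ℤ → ℝ) (q N : ℕ) :
    ∑ w ∈ range (q * N), h w = ∑ u ∈ range q, ∑ v ∈ range N, h (u + q * v) := by
  induction N with
  | zero => simp
  | succ N ih =>
    rw [Nat.mul_succ, sum_range_add, ih, ← sum_add_distrib]
    apply sum_congr rfl
    intro u _
    rw [sum_range_succ]
    congr 2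
    push_cast
    ring

theorem sum_blocks (h : ℤ → ℝ) (M : ℕ) (hper : ∀ z w : ℤ, z ≡ w [ZMOD M] → h z = h w) (q : ℕ) :
    ∑ w ∈ range (q * M), h w = q * ∑ w ∈ range M, h w := by
  rw [mul_comm q M]
  induction q with
  | zero => simp
  | succ q ih =>
    rw [Nat.mul_succ, sum_range_add, ih]
    have : ∑ x ∈ range M, h ((M * q + x : ℕ) : ℤ) = ∑ x ∈ range M, h x := by
      apply sum_congr rfl
      intro x _
      apply hper
      rw [Int.modEq_iff_dvd]
      push_cast
      exact ⟨-q, by ring⟩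
    rw [this]
    push_cast
    ring

namespace GM

variable (g : GM)

/-- `prod` depends on the residue modulo `d ^ s` only -/
theorem prod_congr_mod (s : ℕ) : ∀ x y : ℤ, x ≡ y [ZMOD (g.d : ℤ) ^ s] → g.prod s x = g.prod s y := by
  induction s with
  | zero => intro x y _; rw [g.prod_zero', g.prod_zero']
  | succ s ih =>
    intro x y h
    have h0 : x % g.d = y % g.d := by
      have : (g.d : ℤ) ∣ (g.d : ℤ) ^ (s + 1) := dvd_pow_self _ (by omega)
      exact h.of_dvd this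
    rw [g.prod_succ_left, g.prod_succ_left, h0]
    congr 1
    apply ih
    have e1 := g.T_mul x
    have e2 := g.T_mul y
    rw [← h0] at e2
    have e3 : (g.d : ℤ) * (g.T y - g.T x) = g.m (x % g.d) * (y - x) := by
      rw [mul_sub, e1, e2]; ring
    rw [Int.modEq_iff_dvd] at h ⊢
    have h2 : (g.d : ℤ) * (g.d : ℤ) ^ s ∣ (g.d : ℤ) * (g.T y - g.T x) := by
      rw [e3, ← pow_succ']
      exact Dvd.dvd.mul_left h _
    exact (mul_dvd_mul_iff_left g.d_pos.ne').1 h2

theorem T_affine (j q z : ℤ) : g.T (j + g.d * q * z) = g.T j + g.m (j % g.d) * (q * z) := by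
  have h0 : (j + g.d * q * z) % g.d = j % g.d := by
    rw [mul_assoc, Int.add_mul_emod_self_left]
  have e1 := g.T_mul (j + g.d * q * z)
  have e2 := g.T_mul j
  rw [h0] at e1
  have e3 : (g.d : ℤ) * g.T (j + g.d * q * z) = (g.d : ℤ) * (g.T j + g.m (j % g.d) * (q * z)) := by
    linear_combination e1 - e2
  exact mul_left_cancel₀ g.d_pos.ne' e3

/-- factorisation of the multipliers -/
structure Fac (b : ℤ → ℤ) (e : ℤ → ℕ) : Prop where
  eq : ∀ i : ℤ, 0 ≤ i → i < g.d → g.m i = b i * e i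
  cop : ∀ i : ℤ, 0 ≤ i → i < g.d → IsCoprime (b i) (g.d : ℤ)
  pos : ∀ i : ℤ, 0 ≤ i → i < g.d → 1 ≤ e i

/-- transition probabilities; the pair `(j, k)` stands for the class of `j` modulo `d k` -/
noncomputable def P (e : ℤ → ℕ) (B B' : ℤ × ℕ) : ℝ :=
  if B'.2 = B.2 * e (B.1 % g.d) / Nat.gcd (B.2 * e (B.1 % g.d)) g.d ∧ 0 ≤ B'.1 ∧
      B'.1 < g.d * B'.2 ∧ g.T B.1 ≡ B'.1 [ZMOD (B.2 * e (B.1 % g.d) : ℕ)] then
    (Nat.gcd (B.2 * e (B.1 % g.d)) g.d : ℝ) / g.d
  else 0

variable {g}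

theorem P_nonneg {e : ℤ → ℕ} (B B' : ℤ × ℕ) : 0 ≤ g.P e B B' := by
  unfold P; split_ifs <;> positivity

/-- sums over the transitions -/
theorem sum_P {b : ℤ → ℤ} {e : ℤ → ℕ} (hf : g.Fac b e) (C : Finset (ℤ × ℕ))
    (B : ℤ × ℕ) (hk : 1 ≤ B.2) (hcl : ∀ B', 0 < g.P e B B' → B' ∈ C) (h : ℤ × ℕ → ℝ) :
    ∑ B' ∈ C, g.P e B B' * h B' =
      ∑ u ∈ range (g.d / Nat.gcd (B.2 * e (B.1 % g.d)) g.d),
        (Nat.gcd (B.2 * e (B.1 % g.d)) g.d : ℝ) / g.d *
        h ((g.T B.1 + (B.2 * e (B.1 % g.d) : ℕ) * u) %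
            (g.d * (B.2 * e (B.1 % g.d) / Nat.gcd (B.2 * e (B.1 % g.d)) g.d : ℕ)),
          B.2 * e (B.1 % g.d) / Nat.gcd (B.2 * e (B.1 % g.d)) g.d) := by
  classical
  set K : ℕ := B.2 * e (B.1 % g.d) with hK
  set g0 : ℕ := Nat.gcd K g.d with hg0
  set q : ℕ := g.d / g0 with hq
  set k' : ℕ := K / g0 with hk'
  have hd0 : 0 < g.d := by have := g.two_le; omega
  have hK0 : 0 < K := Nat.mul_pos hk (hf.pos _ (g.res_nonneg _) (g.res_lt _))
  have hg00 : 0 < g0 := Nat.gcd_pos_of_pos_right _ hd0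
  have hqg : q * g0 = g.d := Nat.div_mul_cancel (Nat.gcd_dvd_right _ _)
  have hkg : k' * g0 = K := Nat.div_mul_cancel (Nat.gcd_dvd_left _ _)
  have hq0 : 0 < q := Nat.pos_of_ne_zero (by rintro h0; rw [h0] at hqg; omega)
  have hk'0 : 0 < k' := Nat.pos_of_ne_zero (by rintro h0; rw [h0] at hkg; omega)
  have hdk : g.d * k' = K * q := by rw [← hqg, ← hkg]; ring
  have hdkz : (g.d : ℤ) * (k' : ℤ) = K * q := by exact_mod_cast hdk
  have hdk0 : (0 : ℤ) < (g.d : ℤ) * k' := by positivity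
  set st : ℕ → ℤ × ℕ := fun u => ((g.T B.1 + (K : ℤ) * u) % (g.d * (k' : ℤ)), k') with hst
  have hPst : ∀ u, g.P e B (st u) = (g0 : ℝ) / g.d := by
    intro u
    unfold P
    rw [if_pos]
    refine ⟨rfl, Int.emod_nonneg _ hdk0.ne', Int.emod_lt_of_pos _ hdk0, ?_⟩
    rw [← hK]
    have h1 : (g.T B.1 + (K : ℤ) * u) % (g.d * (k' : ℤ)) ≡ g.T B.1 + (K : ℤ) * u
        [ZMOD (g.d * (k' : ℤ))] := Int.mod_modEq _ _
    have h2 := h1.of_dvd (⟨(q : ℤ), hdkz⟩ : (K : ℤ) ∣ g.d * (k' : ℤ))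
    refine Int.ModEq.trans ?_ h2.symm
    rw [Int.modEq_iff_dvd]
    exact ⟨u, by ring⟩
  have hinj : Set.InjOn st (range q) := by
    intro u hu v hv huv
    simp only [hst, Prod.mk.injEq, and_true] at huv
    have h1 : g.T B.1 + (K : ℤ) * u ≡ g.T B.1 + (K : ℤ) * v [ZMOD (g.d * (k' : ℤ))] := huv
    rw [Int.modEq_iff_dvd, hdkz] at h1
    obtain ⟨c, hc⟩ := h1
    have h2 : (K : ℤ) * (v - u) = K * (q * c) := by linarith
    have h3 : (v : ℤ) - u = q * c := mul_left_cancel₀ (by exact_mod_cast hK0.ne') h2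
    have hu' : u < q := by simpa using hu
    have hv' : v < q := by simpa using hv
    have h4 : c = 0 := by
      by_contra hc0
      rcases lt_or_gt_of_ne hc0 with h5 | h5
      · have : (q : ℤ) * c ≤ q * (-1) := mul_le_mul_of_nonneg_left (by omega) (by positivity)
        omega
      · have : (q : ℤ) * 1 ≤ q * c := mul_le_mul_of_nonneg_left (by omega) (by positivity)
        omega
    rw [h4] at h3
    omega
  have hsupp : ∀ B' ∈ C, B' ∉ (range q).image st → g.P e B B' * h B' = 0 := by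
    intro B' _ hB'
    have : g.P e B B' = 0 := by
      by_contra hne
      apply hB'
      unfold P at hne
      rw [← hK, ← hg0, ← hk'] at hne
      split_ifs at hne with hc
      · obtain ⟨c1, c2, c3, c4⟩ := hc
        rw [Int.modEq_iff_dvd] at c4
        obtain ⟨w, hw⟩ := c4
        rw [mem_image]
        have hqz : (0 : ℤ) < q := by exact_mod_cast hq0
        refine ⟨(w % q).toNat, ?_, ?_⟩
        · rw [mem_range]
          have h1 := Int.emod_nonneg w hqz.ne'
          have h2 := Int.emod_lt_of_pos w hqz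
          omega
        · apply Prod.ext
          · simp only [hst]
            rw [Int.toNat_of_nonneg (Int.emod_nonneg w hqz.ne')]
            have h1 : g.T B.1 + (K : ℤ) * (w % q) ≡ B'.1 [ZMOD (g.d * (k' : ℤ))] := by
              rw [Int.modEq_iff_dvd, hdkz]
              have h2 : B'.1 - (g.T B.1 + (K : ℤ) * (w % q)) = K * (w - w % q) := by
                rw [mul_sub, ← hw]; ring
              rw [h2]
              exact mul_dvd_mul_left _ Int.dvd_self_sub_emod
            have h3 : B'.1 % (g.d * (k' : ℤ)) = B'.1 := by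
              apply Int.emod_eq_of_lt c2
              rw [c1] at c3; exact c3
            rw [← h3]; exact h1
          · exact c1.symm
      · exact absurd rfl hne
    rw [this, zero_mul]
  have hsubC : (range q).image st ⊆ C := by
    intro B' hB'
    rw [mem_image] at hB'
    obtain ⟨u, _, rfl⟩ := hB'
    apply hcl
    rw [hPst]; positivity
  rw [← sum_subset hsubC hsupp, sum_image hinj]
  apply sum_congr rfl
  intro u _
  rw [hPst]

/-- the chain is stochastic on a closed class -/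
theorem sum_P_one {b : ℤ → ℤ} {e : ℤ → ℕ} (hf : g.Fac b e) (C : Finset (ℤ × ℕ))
    (B : ℤ × ℕ) (hk : 1 ≤ B.2) (hcl : ∀ B', 0 < g.P e B B' → B' ∈ C) :
    ∑ B' ∈ C, g.P e B B' = 1 := by
  have h := sum_P hf C B hk hcl (fun _ => 1)
  simp only [mul_one] at h
  rw [h, sum_const, card_range, nsmul_eq_mul]
  have hd0 : 0 < g.d := by have := g.two_le; omega
  have hg00 : 0 < Nat.gcd (B.2 * e (B.1 % g.d)) g.d := Nat.gcd_pos_of_pos_right _ hd0
  have hqg := Nat.div_mul_cancel (Nat.gcd_dvd_right (B.2 * e (B.1 % g.d)) g.d)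
  have hqg' : ((g.d / Nat.gcd (B.2 * e (B.1 % g.d)) g.d : ℕ) : ℝ) *
      (Nat.gcd (B.2 * e (B.1 % g.d)) g.d : ℝ) = g.d := by exact_mod_cast hqg
  have hd0' : (0 : ℝ) < g.d := by exact_mod_cast hd0
  rw [← mul_div_assoc, hqg', div_self hd0'.ne']

/-- sums of powers of the products over a class -/
noncomputable def U (g : GM) (t : ℝ) (s : ℕ) (B : ℤ × ℕ) : ℝ :=
  ∑ z ∈ range (g.d ^ s), g.prod s (B.1 + g.d * B.2 * z) ^ t

theorem U_congr (t : ℝ) (s : ℕ) (j j' : ℤ) (k : ℕ) (h : j ≡ j' [ZMOD g.d * k]) :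
    U g t s (j, k) = U g t s (j', k) := by
  unfold U
  rw [Int.modEq_iff_dvd] at h
  obtain ⟨c, hc⟩ := h
  have hj : j' = j + g.d * k * c := by linarith
  have hpos : 0 < g.d ^ s := pow_pos (by have := g.two_le; omega) _
  have h1 := sum_perm hpos (fun z => g.prod s (j + g.d * k * z) ^ t) (by
    intro z w hzw
    rw [g.prod_congr_mod s]
    rw [Int.modEq_iff_dvd] at hzw ⊢
    obtain ⟨c, hc⟩ := hzw
    push_cast at hc
    exact ⟨g.d * k * c, by rw [add_sub_add_left_eq_sub, ← mul_sub, hc]; ring⟩) (fun z => z + c) (by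
    intro z hz w hw hzw
    rw [mem_range] at hz hw
    have h1 : (z : ℤ) ≡ w [ZMOD (g.d ^ s : ℕ)] := Int.ModEq.add_right_cancel' c hzw
    have h2 := Int.natCast_modEq_iff.1 h1
    exact Nat.ModEq.eq_of_lt_of_lt h2 hz hw)
  rw [← h1]
  apply sum_congr rfl
  intro z _
  simp only
  rw [hj]
  congr 2
  ring

theorem U_succ {b : ℤ → ℤ} {e : ℤ → ℕ} (hf : g.Fac b e) (C : Finset (ℤ × ℕ)) (t : ℝ) (s : ℕ)
    (B : ℤ × ℕ) (hk : 1 ≤ B.2) (hcl : ∀ B', 0 < g.P e B B' → B' ∈ C) :
    U g t (s + 1) B = g.a (B.1 % g.d) ^ t * g.d * ∑ B' ∈ C, g.P e B B' * U g t s B' := by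
  classical
  rw [sum_P hf C B hk hcl]
  obtain ⟨j, k⟩ := B
  simp only at hk ⊢
  set i : ℤ := j % g.d with hi
  have hi0 : 0 ≤ i := g.res_nonneg j
  have hi1 : i < g.d := g.res_lt j
  set K : ℕ := k * e i with hK
  set g0 : ℕ := Nat.gcd K g.d with hg0
  set q : ℕ := g.d / g0 with hq
  set k' : ℕ := K / g0 with hk'
  have hd0 : 0 < g.d := by have := g.two_le; omega
  have hd0r : (0 : ℝ) < g.d := by exact_mod_cast hd0
  have hK0 : 0 < K := Nat.mul_pos hk (hf.pos _ hi0 hi1)
  have hg00 : 0 < g0 := Nat.gcd_pos_of_pos_right _ hd0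
  have hqg : q * g0 = g.d := Nat.div_mul_cancel (Nat.gcd_dvd_right _ _)
  have hkg : k' * g0 = K := Nat.div_mul_cancel (Nat.gcd_dvd_left _ _)
  have hdk : g.d * k' = K * q := by rw [← hqg, ← hkg]; ring
  have hdkz : (g.d : ℤ) * (k' : ℤ) = K * q := by exact_mod_cast hdk
  have hpos : 0 < g.d ^ (s + 1) := pow_pos hd0 _
  -- the function along the class
  set h : ℤ → ℝ := fun w => g.prod s (g.T j + K * w) ^ t with hh
  have hper : ∀ (n : ℕ), (g.d : ℤ) ^ s ∣ (n : ℤ) → ∀ z w : ℤ, z ≡ w [ZMOD n] → h z = h w := by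
    intro n hn z w hzw
    simp only [hh]
    rw [g.prod_congr_mod s]
    have h1 := hzw.of_dvd hn
    exact Int.ModEq.add_left _ (Int.ModEq.mul_left _ h1)
  have hfi : g.m i = b i * e i := hf.eq i hi0 hi1
  have hcop : IsCoprime (b i) ((g.d ^ (s + 1) : ℕ) : ℤ) := by
    push_cast
    exact (hf.cop i hi0 hi1).pow_right
  have e1 : U g t (s + 1) (j, k) = g.a i ^ t * ∑ z ∈ range (g.d ^ (s + 1)), h (b i * z) := by
    unfold U
    rw [mul_sum]
    apply sum_congr rfl
    intro z _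
    simp only
    rw [g.prod_succ_left]
    have h0 : (j + g.d * k * (z : ℤ)) % g.d = i := by
      rw [mul_assoc, Int.add_mul_emod_self_left]
    rw [h0, g.T_affine, ← hi, hfi, Real.mul_rpow (by unfold a; positivity) (g.prod_pos' _ _).le]
    simp only [hh]
    congr 3
    rw [hK]
    push_cast
    ring
  have e2 : ∑ z ∈ range (g.d ^ (s + 1)), h (b i * z) = ∑ z ∈ range (g.d ^ (s + 1)), h z := by
    apply sum_perm hpos h (hper _ (by push_cast; exact pow_dvd_pow _ (by omega)))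
      (fun z => b i * z)
    intro z hz w hw hzw
    rw [mem_range] at hz hw
    have h1 : (z : ℤ) ≡ w [ZMOD (g.d ^ (s + 1) : ℕ)] := by
      rw [Int.modEq_iff_dvd] at hzw ⊢
      rw [← mul_sub] at hzw
      exact hcop.symm.dvd_of_dvd_mul_left hzw
    have h2 := Int.natCast_modEq_iff.1 h1
    exact Nat.ModEq.eq_of_lt_of_lt h2 hz hw
  have e3 : g.d ^ (s + 1) = q * (g0 * g.d ^ s) := by
    rw [pow_succ', ← mul_assoc, hqg]
  have e4 : ∑ z ∈ range (g.d ^ (s + 1)), h z =
      ∑ u ∈ range q, ∑ v ∈ range (g0 * g.d ^ s), h (u + q * v) := by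
    rw [e3, sum_split]
  have e5 : ∀ u ∈ range q, ∑ v ∈ range (g0 * g.d ^ s), h (u + q * v) =
      g0 * U g t s ((g.T j + (K : ℤ) * u) % (g.d * (k' : ℤ)), k') := by
    intro u _
    rw [U_congr t s _ (g.T j + (K : ℤ) * u) k' (Int.mod_modEq _ _)]
    rw [sum_blocks (fun v => h (u + q * v)) (g.d ^ s) (by
      intro z w hzw
      apply hper (g.d ^ s) (by push_cast; exact dvd_rfl)
      exact Int.ModEq.add_left _ (Int.ModEq.mul_left _ hzw)) g0]
    congr 1
    unfold U
    apply sum_congr rfl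
    intro v _
    simp only [hh]
    congr 2
    rw [hdkz]; ring
  rw [e1, e2, e4, sum_congr rfl e5, mul_assoc]
  congr 1
  rw [mul_sum]
  apply sum_congr rfl
  intro u _
  field_simp

end GM

end Pool.Agent.H319R2.M
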