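import Mathlib

set_option autoImplicit false

/-!
The Poisson equation on a finite irreducible Markov chain, and exponential contraction.
-/

namespace Pool.Agent.H319R2.Poisson

open Finset

variable {ι : Type*} [Fintype ι]

theorem harmonic (p : ι → ι → ℝ) (hp : ∀ x y, 0 ≤ p x y) (h1 : ∀ x, ∑ y, p x y = 1)
    (hirr : ∀ x y, Relation.ReflTransGen (fun a b => 0 < p a b) x y) (u : ι → ℝ)
    (hu : ∀ x, u x = ∑ y, p x y * u y) : ∀ x y, u x = u y := by
  intro a b
  have : Nonempty ι := ⟨a⟩
  obtain ⟨x0, hx0⟩ := Finite.exists_max u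
  have key : ∀ y, Relation.ReflTransGen (fun a b => 0 < p a b) x0 y → u y = u x0 := by
    intro y hy
    induction hy with
    | refl => rfl
    | tail _ hbc ih =>
      rename_i b c _
      have h2 : ∑ y, p b y * (u x0 - u y) = 0 := by
        simp only [mul_sub, sum_sub_distrib]
        rw [← sum_mul, h1, ← hu, ih]; ring
      have h3 := (sum_eq_zero_iff_of_nonneg (fun y _ =>
        mul_nonneg (hp b y) (sub_nonneg.2 (hx0 y)))).1 h2 c (mem_univ c)
      rcases mul_eq_zero.1 h3 with h4 | h4
      · exact absurd h4 hbc.ne'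
      · linarith
  rw [key a (hirr x0 a), key b (hirr x0 b)]

/-- **Poisson equation.** -/
theorem poisson (p : ι → ι → ℝ) (hp : ∀ x y, 0 ≤ p x y) (h1 : ∀ x, ∑ y, p x y = 1)
    (hirr : ∀ x y, Relation.ReflTransGen (fun a b => 0 < p a b) x y) (ρ : ι → ℝ)
    (hρ1 : ∑ x, ρ x = 1) (hρ : ∀ y, ∑ x, ρ x * p x y = ρ y) (f : ι → ℝ) :
    ∃ u : ι → ℝ, ∀ x, f x + ∑ y, p x y * u y - u x = ∑ x, ρ x * f x := by
  classical
  set L : (ι → ℝ) →ₗ[ℝ] (ι → ℝ) :=
    { toFun := fun u x => u x - ∑ y, p x y * u y
      map_add' := by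
        intro u v; funext x
        simp only [Pi.add_apply, mul_add, sum_add_distrib]; ring
      map_smul' := by
        intro c u; funext x
        simp only [Pi.smul_apply, smul_eq_mul, RingHom.id_apply, mul_sub, mul_sum]
        congr 1
        apply sum_congr rfl
        intro y _; ring } with hL
  set φ : (ι → ℝ) →ₗ[ℝ] ℝ :=
    { toFun := fun v => ∑ x, ρ x * v x
      map_add' := by intro u v; simp only [Pi.add_apply, mul_add, sum_add_distrib]
      map_smul' := by
        intro c u
        simp only [Pi.smul_apply, smul_eq_mul, RingHom.id_apply, mul_sum]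
        apply sum_congr rfl
        intro y _; ring } with hφ
  have hker : LinearMap.ker L ≤ Submodule.span ℝ {(fun _ => 1 : ι → ℝ)} := by
    intro u hu
    rw [LinearMap.mem_ker] at hu
    have hu' : ∀ x, u x = ∑ y, p x y * u y := by
      intro x
      have := congrFun hu x
      simp only [hL, LinearMap.coe_mk, AddHom.coe_mk, Pi.zero_apply] at this
      linarith
    have hc := harmonic p hp h1 hirr u hu'
    rw [Submodule.mem_span_singleton]
    rcases isEmpty_or_nonempty ι with he | ⟨⟨a⟩⟩
    · exact ⟨0, by funext x; exact (he.false x).elim⟩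
    · exact ⟨u a, by funext x; simp [hc x a]⟩
  have hkdim : Module.finrank ℝ (LinearMap.ker L) ≤ 1 :=
    (Submodule.finrank_mono hker).trans (by
      have := finrank_span_le_card (R := ℝ) ({(fun _ => 1 : ι → ℝ)} : Set (ι → ℝ))
      simpa using this)
  have hrange : LinearMap.range L ≤ LinearMap.ker φ := by
    rintro v ⟨u, rfl⟩
    rw [LinearMap.mem_ker]
    simp only [hφ, hL, LinearMap.coe_mk, AddHom.coe_mk, mul_sub, sum_sub_distrib, mul_sum]
    rw [sum_comm]
    have : ∀ y ∈ (univ : Finset ι), ∑ x, ρ x * (p x y * u y) = ρ y * u y := by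
      intro y _
      rw [← hρ y, sum_mul]
      apply sum_congr rfl
      intro x _; ring
    rw [sum_congr rfl this]; ring
  have hφne : LinearMap.range φ ≠ ⊥ := by
    intro h0
    have h2 : φ (fun _ => 1) = 0 := by
      have : φ (fun _ => 1) ∈ LinearMap.range φ := ⟨_, rfl⟩
      rw [h0] at this
      exact (Submodule.mem_bot ℝ).1 this
    simp only [hφ, LinearMap.coe_mk, AddHom.coe_mk, mul_one] at h2
    rw [hρ1] at h2
    norm_num at h2
  have hφdim : 1 ≤ Module.finrank ℝ (LinearMap.range φ) := Submodule.one_le_finrank_iff.2 hφne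
  have d1 := LinearMap.finrank_range_add_finrank_ker L
  have d2 := LinearMap.finrank_range_add_finrank_ker φ
  have heq : LinearMap.range L = LinearMap.ker φ := by
    apply Submodule.eq_of_le_of_finrank_le hrange
    omega
  set lam : ℝ := ∑ x, ρ x * f x with hlam
  have hmem : (fun x => f x - lam) ∈ LinearMap.ker φ := by
    rw [LinearMap.mem_ker]
    simp only [hφ, LinearMap.coe_mk, AddHom.coe_mk, mul_sub, sum_sub_distrib]
    rw [← hlam, ← sum_mul, hρ1]; ring
  rw [← heq] at hmem
  obtain ⟨u, hu⟩ := hmem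
  refine ⟨u, fun x => ?_⟩
  have := congrFun hu x
  simp only [hL, LinearMap.coe_mk, AddHom.coe_mk] at this
  linarith

/-- **Exponential contraction.** -/
theorem contraction (p : ι → ι → ℝ) (hp : ∀ x y, 0 ≤ p x y) (h1 : ∀ x, ∑ y, p x y = 1)
    (hirr : ∀ x y, Relation.ReflTransGen (fun a b => 0 < p a b) x y) (ρ : ι → ℝ)
    (hρ1 : ∑ x, ρ x = 1) (hρ : ∀ y, ∑ x, ρ x * p x y = ρ y) (f : ι → ℝ)
    (hneg : ∑ x, ρ x * f x < 0) :
    ∃ (t θ : ℝ) (h : ι → ℝ), 0 < t ∧ 0 < θ ∧ θ < 1 ∧ (∀ x, 0 < h x) ∧
      ∀ x, Real.exp (t * f x) * ∑ y, p x y * h y ≤ θ * h x := by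
  classical
  obtain ⟨u, hu⟩ := poisson p hp h1 hirr ρ hρ1 hρ f
  set lam : ℝ := ∑ x, ρ x * f x with hlam
  set K : ℝ := 1 + ∑ x, |f x| + 2 * ∑ x, |u x| with hK
  have hsf : 0 ≤ ∑ x, |f x| := sum_nonneg fun _ _ => abs_nonneg _
  have hsu : 0 ≤ ∑ x, |u x| := sum_nonneg fun _ _ => abs_nonneg _
  have hK1 : 1 ≤ K := by rw [hK]; linarith
  have hK0 : 0 < K := by linarith
  have hξ : ∀ x y, |f x + u y - u x| ≤ K := by
    intro x y
    have a1 : |f x| ≤ ∑ x, |f x| :=
      single_le_sum (f := fun x => |f x|) (fun _ _ => abs_nonneg _) (mem_univ x)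
    have a2 : |u x| ≤ ∑ x, |u x| :=
      single_le_sum (f := fun x => |u x|) (fun _ _ => abs_nonneg _) (mem_univ x)
    have a3 : |u y| ≤ ∑ x, |u x| :=
      single_le_sum (f := fun x => |u x|) (fun _ _ => abs_nonneg _) (mem_univ y)
    have a4 := abs_sub (f x + u y) (u x)
    have a5 := abs_add_le (f x) (u y)
    rw [hK]; linarith
  have hsum : ∀ x, ∑ y, p x y * (f x + u y - u x) = lam := by
    intro x
    have e : ∑ y, p x y * (f x + u y - u x) =
        (∑ y, p x y) * f x + ∑ y, p x y * u y - (∑ y, p x y) * u x := by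
      rw [sum_mul, sum_mul, ← sum_add_distrib, ← sum_sub_distrib]
      apply sum_congr rfl
      intro y _; ring
    rw [e, h1, one_mul, one_mul]
    exact hu x
  -- nonempty
  have hne : Nonempty ι := by
    by_contra hcon
    rw [not_nonempty_iff] at hcon
    have : ∑ x, ρ x = 0 := by simp
    rw [hρ1] at this
    norm_num at this
  obtain ⟨x0⟩ := hne
  have hlamK : |lam| ≤ K := by
    rw [← hsum x0]
    calc |∑ y, p x0 y * (f x0 + u y - u x0)| ≤ ∑ y, |p x0 y * (f x0 + u y - u x0)| :=
          abs_sum_le_sum_abs _ _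
      _ ≤ ∑ y, p x0 y * K := by
          apply sum_le_sum
          intro y _
          rw [abs_mul, abs_of_nonneg (hp x0 y)]
          exact mul_le_mul_of_nonneg_left (hξ x0 y) (hp x0 y)
      _ = K := by rw [← sum_mul, h1, one_mul]
  have hlam0 : |lam| = -lam := abs_of_neg hneg
  set t : ℝ := -lam / (2 * K ^ 2) with ht
  have ht0 : 0 < t := by rw [ht]; apply div_pos (by linarith) (by positivity)
  have htK : t * K ^ 2 = -lam / 2 := by rw [ht]; field_simp
  have htK1 : t * K ≤ 1 := by
    have : t * K * K ≤ 1 * K := by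
      have e : t * K * K = t * K ^ 2 := by ring
      rw [e, htK]; linarith
    exact le_of_mul_le_mul_right this hK0
  refine ⟨t, 1 + t * lam / 2, fun y => Real.exp (t * u y), ht0, ?_, ?_, fun x => Real.exp_pos _, ?_⟩
  · have h2 : t * (-lam) ≤ 1 := by
      calc t * (-lam) ≤ t * K := mul_le_mul_of_nonneg_left (by linarith) ht0.le
        _ ≤ 1 := htK1
    linarith
  · nlinarith
  · intro x
    have e1 : Real.exp (t * f x) * ∑ y, p x y * Real.exp (t * u y) =
        Real.exp (t * u x) * ∑ y, p x y * Real.exp (t * (f x + u y - u x)) := by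
      rw [mul_sum, mul_sum]
      apply sum_congr rfl
      intro y _
      have : Real.exp (t * f x) * Real.exp (t * u y) =
          Real.exp (t * u x) * Real.exp (t * (f x + u y - u x)) := by
        rw [← Real.exp_add, ← Real.exp_add]; congr 1; ring
      calc Real.exp (t * f x) * (p x y * Real.exp (t * u y))
          = p x y * (Real.exp (t * f x) * Real.exp (t * u y)) := by ring
        _ = _ := by rw [this]; ring
    rw [e1, mul_comm (1 + t * lam / 2)]
    apply mul_le_mul_of_nonneg_left _ (Real.exp_pos _).le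
    have h2 : ∀ y, Real.exp (t * (f x + u y - u x)) ≤
        1 + t * (f x + u y - u x) + (t * K) ^ 2 := by
      intro y
      have a1 : |t * (f x + u y - u x)| ≤ t * K := by
        rw [abs_mul, abs_of_pos ht0]
        exact mul_le_mul_of_nonneg_left (hξ x y) ht0.le
      have a2 := Real.abs_exp_sub_one_sub_id_le (a1.trans htK1)
      have a3 := (abs_le.1 a2).2
      have a4 : (t * (f x + u y - u x)) ^ 2 ≤ (t * K) ^ 2 := by
        rw [← sq_abs]
        exact pow_le_pow_left₀ (abs_nonneg _) a1 2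
      linarith
    calc ∑ y, p x y * Real.exp (t * (f x + u y - u x))
        ≤ ∑ y, p x y * (1 + t * (f x + u y - u x) + (t * K) ^ 2) :=
          sum_le_sum fun y _ => mul_le_mul_of_nonneg_left (h2 y) (hp x y)
      _ = (∑ y, p x y) * (1 + (t * K) ^ 2) + t * ∑ y, p x y * (f x + u y - u x) := by
          rw [sum_mul, mul_sum, ← sum_add_distrib]
          apply sum_congr rfl
          intro y _; ring
      _ = 1 + t * (t * K ^ 2) + t * lam := by rw [h1, hsum]; ring
      _ = 1 + t * lam / 2 := by rw [htK]; ring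

end Pool.Agent.H319R2.Poisson
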