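import Mathlib
import Pool.Agent.H319R2.MLeigh
import Pool.Agent.H319R2.Poisson

set_option autoImplicit false

/-!
Leigh's classes: contraction on average.
-/

namespace Pool.Agent.H319R2.M

open Finset Filter Pool.Agent.H319R2.G

namespace GM

variable (g : GM)

/-- a finite closed communicating class of Leigh's chain with a stationary distribution -/
structure Cls (e : ℤ → ℕ) (C : Finset (ℤ × ℕ)) (ρ : ℤ × ℕ → ℝ) : Prop where
  pos : ∀ B ∈ C, 1 ≤ B.2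
  closed : ∀ B ∈ C, ∀ B', 0 < g.P e B B' → B' ∈ C
  irr : ∀ B ∈ C, ∀ B' ∈ C, Relation.ReflTransGen (fun X Y => 0 < g.P e X Y) B B'
  sum_one : ∑ B ∈ C, ρ B = 1
  stat : ∀ B' ∈ C, ∑ B ∈ C, ρ B * g.P e B B' = ρ B'

/-- the union of the classes -/
def SC (C : Finset (ℤ × ℕ)) : Set ℤ := {x | ∃ B ∈ C, x ≡ B.1 [ZMOD (g.d * B.2 : ℕ)]}

variable {g}

theorem P_target {b : ℤ → ℤ} {e : ℤ → ℕ} (hf : g.Fac b e) (B : ℤ × ℕ) (hk : 1 ≤ B.2) (w : ℤ) :
    0 < g.P e B ((g.T B.1 + (B.2 * e (B.1 % g.d) : ℕ) * w) %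
        (g.d * (B.2 * e (B.1 % g.d) / Nat.gcd (B.2 * e (B.1 % g.d)) g.d : ℕ)),
      B.2 * e (B.1 % g.d) / Nat.gcd (B.2 * e (B.1 % g.d)) g.d) := by
  set K : ℕ := B.2 * e (B.1 % g.d) with hK
  set g0 : ℕ := Nat.gcd K g.d with hg0
  set k' : ℕ := K / g0 with hk'
  have hd0 : 0 < g.d := by have := g.two_le; omega
  have hK0 : 0 < K := Nat.mul_pos hk (hf.pos _ (g.res_nonneg _) (g.res_lt _))
  have hg00 : 0 < g0 := Nat.gcd_pos_of_pos_right _ hd0
  have hqg : g.d / g0 * g0 = g.d := Nat.div_mul_cancel (Nat.gcd_dvd_right _ _)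
  have hkg : k' * g0 = K := Nat.div_mul_cancel (Nat.gcd_dvd_left _ _)
  have hk'0 : 0 < k' := Nat.pos_of_ne_zero (by rintro h0; rw [h0] at hkg; omega)
  have hdk : g.d * k' = K * (g.d / g0) := by
    calc g.d * k' = (g.d / g0 * g0) * k' := by rw [hqg]
      _ = (k' * g0) * (g.d / g0) := by ring
      _ = _ := by rw [hkg]
  have hdkz : (g.d : ℤ) * (k' : ℤ) = K * (g.d / g0 : ℕ) := by exact_mod_cast hdk
  have hdk0 : (0 : ℤ) < (g.d : ℤ) * k' := by positivity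
  unfold P
  rw [if_pos]
  · positivity
  refine ⟨rfl, Int.emod_nonneg _ hdk0.ne', Int.emod_lt_of_pos _ hdk0, ?_⟩
  rw [← hK]
  have h1 : (g.T B.1 + (K : ℤ) * w) % (g.d * (k' : ℤ)) ≡ g.T B.1 + (K : ℤ) * w
      [ZMOD (g.d * (k' : ℤ))] := Int.mod_modEq _ _
  have h2 := h1.of_dvd (⟨((g.d / g0 : ℕ) : ℤ), hdkz⟩ : (K : ℤ) ∣ g.d * (k' : ℤ))
  refine Int.ModEq.trans ?_ h2.symm
  rw [Int.modEq_iff_dvd]
  exact ⟨w, by ring⟩

/-- the union of the classes is invariant -/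
theorem SC_inv {b : ℤ → ℤ} {e : ℤ → ℕ} (hf : g.Fac b e) {C : Finset (ℤ × ℕ)} {ρ : ℤ × ℕ → ℝ}
    (hC : g.Cls e C ρ) (x : ℤ) (hx : x ∈ g.SC C) : g.T x ∈ g.SC C := by
  obtain ⟨B, hB, hxB⟩ := hx
  have hk := hC.pos B hB
  rw [Int.modEq_iff_dvd] at hxB
  obtain ⟨c, hc⟩ := hxB
  push_cast at hc
  have hxe : x = B.1 + g.d * B.2 * (-c) := by linarith
  have hi0 := g.res_nonneg B.1
  have hi1 := g.res_lt B.1
  have hT : g.T x = g.T B.1 + (B.2 * e (B.1 % g.d) : ℕ) * (b (B.1 % g.d) * (-c)) := by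
    rw [hxe, g.T_affine, hf.eq _ hi0 hi1]
    push_cast; ring
  refine ⟨_, hC.closed B hB _ (P_target hf B hk (b (B.1 % g.d) * (-c))), ?_⟩
  rw [hT]
  simp only
  push_cast
  exact (Int.mod_modEq _ _).symm

theorem cls_contr {b : ℤ → ℤ} {e : ℤ → ℕ} (hf : g.Fac b e) {C : Finset (ℤ × ℕ)}
    {ρ : ℤ × ℕ → ℝ} (hC : g.Cls e C ρ)
    (hneg : ∑ B ∈ C, ρ B * Real.log (g.a (B.1 % g.d)) < 0) :
    ∃ (t θ : ℝ) (h : ℤ × ℕ → ℝ), 0 < t ∧ 0 < θ ∧ θ < 1 ∧ (∀ B ∈ C, 0 < h B) ∧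
      ∀ B ∈ C, g.a (B.1 % g.d) ^ t * ∑ B' ∈ C, g.P e B B' * h B' ≤ θ * h B := by
  classical
  have hirr : ∀ x y : C, Relation.ReflTransGen (fun a b : C => 0 < g.P e a b) x y := by
    rintro ⟨x, hx⟩ ⟨y, hy⟩
    have key : ∀ y, Relation.ReflTransGen (fun X Y => 0 < g.P e X Y) x y →
        ∃ hy : y ∈ C, Relation.ReflTransGen (fun a b : C => 0 < g.P e a b) ⟨x, hx⟩ ⟨y, hy⟩ := by
      intro y h
      induction h with
      | refl => exact ⟨hx, Relation.ReflTransGen.refl⟩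
      | tail _ hbc ih =>
        obtain ⟨hb, hp⟩ := ih
        exact ⟨hC.closed _ hb _ hbc, hp.tail hbc⟩
    obtain ⟨_, h⟩ := key y (hC.irr x hx y hy)
    exact h
  have h1 : ∀ x : C, ∑ y : C, g.P e x y = 1 := by
    intro x
    rw [Finset.sum_coe_sort C (fun y => g.P e x y)]
    exact sum_P_one hf C x (hC.pos x x.2) (hC.closed x x.2)
  have hρ1 : ∑ x : C, ρ x = 1 := by
    rw [Finset.sum_coe_sort C ρ]; exact hC.sum_one
  have hρ : ∀ y : C, ∑ x : C, ρ x * g.P e x y = ρ y := by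
    intro y
    rw [Finset.sum_coe_sort C (fun x => ρ x * g.P e x y)]
    exact hC.stat y y.2
  have hneg' : ∑ x : C, ρ x * Real.log (g.a ((x : ℤ × ℕ).1 % g.d)) < 0 := by
    rw [Finset.sum_coe_sort C (fun x => ρ x * Real.log (g.a (x.1 % g.d)))]
    exact hneg
  obtain ⟨t, θ, h, ht, hθ0, hθ1, hh, hle⟩ := Poisson.contraction (fun x y : C => g.P e x y)
    (fun x y => P_nonneg _ _) h1 hirr (fun x => ρ x) hρ1 hρ
    (fun x => Real.log (g.a ((x : ℤ × ℕ).1 % g.d))) hneg'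
  refine ⟨t, θ, fun B => if hB : B ∈ C then h ⟨B, hB⟩ else 0, ht, hθ0, hθ1, ?_, ?_⟩
  · intro B hB
    simp only [dif_pos hB]; exact hh _
  · intro B hB
    have h2 := hle ⟨B, hB⟩
    change g.a (B.1 % g.d) ^ t * ∑ B' ∈ C, g.P e B B' * (if hB : B' ∈ C then h ⟨B', hB⟩ else 0) ≤
      θ * (if hB : B ∈ C then h ⟨B, hB⟩ else 0)
    rw [dif_pos hB]
    have e1 : Real.exp (t * Real.log (g.a (B.1 % g.d))) = g.a (B.1 % g.d) ^ t := by
      rw [Real.rpow_def_of_pos (g.a_pos B.1), mul_comm]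
    simp only at h2
    rw [e1] at h2
    refine le_trans (le_of_eq ?_) h2
    congr 1
    rw [← Finset.sum_coe_sort C (fun B' => g.P e B B' *
      (if hB : B' ∈ C then h ⟨B', hB⟩ else 0))]
    apply sum_congr rfl
    intro y _
    rw [dif_pos y.2]

theorem U_le {b : ℤ → ℤ} {e : ℤ → ℕ} (hf : g.Fac b e) {C : Finset (ℤ × ℕ)}
    {ρ : ℤ × ℕ → ℝ} (hC : g.Cls e C ρ) {t θ : ℝ} {h : ℤ × ℕ → ℝ} (hθ : 0 < θ)
    (hh : ∀ B ∈ C, 0 < h B)
    (hle : ∀ B ∈ C, g.a (B.1 % g.d) ^ t * ∑ B' ∈ C, g.P e B B' * h B' ≤ θ * h B) (c : ℝ)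
    (hc : ∀ B ∈ C, 1 ≤ c * h B) (s : ℕ) :
    ∀ B ∈ C, U g t s B ≤ c * (g.d * θ) ^ s * h B := by
  have hd0 : (0 : ℝ) < g.d := by have := g.dr; linarith
  induction s with
  | zero =>
    intro B hB
    unfold U
    simp only [pow_zero, range_one, sum_singleton, g.prod_zero', Real.one_rpow, mul_one]
    exact hc B hB
  | succ s ih =>
    intro B hB
    have hcpos : 0 < c := by
      have := hc B hB
      by_contra hneg
      have h1 := hh B hB
      nlinarith [not_lt.1 hneg]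
    rw [U_succ hf C t s B (hC.pos B hB) (hC.closed B hB)]
    have ha := g.a_pos B.1
    have h1 : ∑ B' ∈ C, g.P e B B' * U g t s B' ≤
        c * (g.d * θ) ^ s * ∑ B' ∈ C, g.P e B B' * h B' := by
      rw [mul_sum]
      apply sum_le_sum
      intro B' hB'
      have := mul_le_mul_of_nonneg_left (ih B' hB') (P_nonneg (g := g) (e := e) B B')
      linarith
    calc g.a (B.1 % g.d) ^ t * g.d * ∑ B' ∈ C, g.P e B B' * U g t s B'
        ≤ g.a (B.1 % g.d) ^ t * g.d * (c * (g.d * θ) ^ s * ∑ B' ∈ C, g.P e B B' * h B') :=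
          mul_le_mul_of_nonneg_left h1 (by positivity)
      _ = c * (g.d * θ) ^ s * g.d *
            (g.a (B.1 % g.d) ^ t * ∑ B' ∈ C, g.P e B B' * h B') := by ring
      _ ≤ c * (g.d * θ) ^ s * g.d * (θ * h B) :=
          mul_le_mul_of_nonneg_left (hle B hB) (by positivity)
      _ = c * (g.d * θ) ^ (s + 1) * h B := by rw [pow_succ]; ring

/-- elements of one class with a large multiplier -/
theorem card_class (t : ℝ) (ht : 0 < t) (B : ℤ × ℕ) (hk : 1 ≤ B.2) (hB0 : 0 ≤ B.1)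
    (hB1 : B.1 < g.d * B.2) (k : ℕ) (F : Finset ℤ)
    (hF : ∀ x ∈ F, x ≡ B.1 [ZMOD (g.d * B.2 : ℕ)] ∧ |x| ≤ (g.d : ℤ) ^ k ∧
      1 / (2 * (g.d : ℝ)) < g.prod k x) :
    (F.card : ℝ) ≤ (2 * g.d) ^ t * (4 * U g t k B) := by
  classical
  have hd0 : (0 : ℝ) < g.d := by have := g.dr; linarith
  have hd0n : 0 < g.d := by have := g.two_le; omega
  obtain ⟨j, κ⟩ := B
  simp only at hk hB0 hB1 hF
  set N : ℕ := g.d ^ k with hN
  have hN0 : 0 < N := pow_pos hd0n _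
  set h : ℤ → ℝ := fun z => g.prod k (j + g.d * κ * z) ^ t with hh
  have hh0 : ∀ z, 0 ≤ h z := fun z => (Real.rpow_pos_of_pos (g.prod_pos' _ _) _).le
  have hper : ∀ z w : ℤ, z ≡ w [ZMOD N] → h z = h w := by
    intro z w hzw
    simp only [hh]
    rw [g.prod_congr_mod k]
    rw [hN] at hzw
    push_cast at hzw
    exact Int.ModEq.add_left _ (Int.ModEq.mul_left _ hzw)
  -- the coordinates
  have hcoord : ∀ x ∈ F, ∃ z : ℤ, x = j + g.d * κ * z := by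
    intro x hx
    have h1 := (hF x hx).1
    rw [Int.modEq_iff_dvd] at h1
    obtain ⟨c, hc⟩ := h1
    push_cast at hc
    exact ⟨-c, by linarith⟩
  choose! ζ hζ using hcoord
  have hζb : ∀ x ∈ F, -(2 * N : ℤ) ≤ ζ x ∧ ζ x < 2 * N := by
    intro x hx
    have h1 := abs_le.1 (hF x hx).2.1
    have h2 := hζ x hx
    have hNz : (g.d : ℤ) ^ k = N := by rw [hN]; push_cast; rfl
    rw [hNz] at h1
    have hN1 : (1 : ℤ) ≤ N := by exact_mod_cast hN0
    have hdk : (2 : ℤ) ≤ g.d * κ := by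
      have a1 : (2 : ℤ) ≤ g.d := by exact_mod_cast g.two_le
      have a2 : (1 : ℤ) ≤ κ := by exact_mod_cast hk
      nlinarith
    constructor
    · by_contra hcon
      have h3 : ζ x ≤ -(2 * N) - 1 := by omega
      have h4 : (g.d : ℤ) * κ * ζ x ≤ g.d * κ * (-(2 * N) - 1) :=
        mul_le_mul_of_nonneg_left h3 (by omega)
      nlinarith
    · by_contra hcon
      have h3 : 2 * (N : ℤ) ≤ ζ x := by omega
      have h4 : (g.d : ℤ) * κ * (2 * N) ≤ g.d * κ * ζ x := mul_le_mul_of_nonneg_left h3 (by omega)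
      nlinarith
  set τ : ℤ → ℕ := fun x => (ζ x + 2 * N).toNat with hτ
  have hτz : ∀ x ∈ F, ((τ x : ℕ) : ℤ) = ζ x + 2 * N := by
    intro x hx
    have := (hζb x hx).1
    exact Int.toNat_of_nonneg (by omega)
  have hinj : Set.InjOn τ F := by
    intro x hx y hy hxy
    have h1 := hτz x hx
    have h2 := hτz y hy
    have hxy' : τ x = τ y := hxy
    rw [hxy', h2] at h1
    rw [hζ x hx, hζ y hy]
    have : ζ x = ζ y := by linarith
    rw [this]
  have h1 : (F.card : ℝ) ≤ (2 * g.d) ^ t * ∑ x ∈ F, h (ζ x) := by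
    rw [mul_sum, ← nsmul_one F.card]
    apply card_nsmul_le_sum
    intro x hx
    have h2 := (hF x hx).2.2
    simp only [hh]
    rw [← hζ x hx, ← Real.mul_rpow (by positivity) (g.prod_pos' _ _).le]
    apply Real.one_le_rpow _ ht.le
    rw [div_lt_iff₀ (by positivity)] at h2
    linarith
  have h2 : ∑ x ∈ F, h (ζ x) ≤ ∑ w ∈ range (4 * N), h ((w : ℤ) - 2 * N) := by
    calc ∑ x ∈ F, h (ζ x) = ∑ x ∈ F, h ((τ x : ℤ) - 2 * N) := by
          apply sum_congr rfl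
          intro x hx
          rw [hτz x hx]; congr 1; ring
      _ = ∑ w ∈ F.image τ, h ((w : ℤ) - 2 * N) :=
          (sum_image (f := fun w : ℕ => h ((w : ℤ) - 2 * N)) hinj).symm
      _ ≤ ∑ w ∈ range (4 * N), h ((w : ℤ) - 2 * N) := by
          apply sum_le_sum_of_subset_of_nonneg
          · intro w hw
            rw [mem_image] at hw
            obtain ⟨x, hx, rfl⟩ := hw
            rw [mem_range]
            have h3 := hτz x hx
            have h4 := (hζb x hx).2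
            omega
          · intro w _ _; exact hh0 _
  have h3 : ∑ w ∈ range (4 * N), h ((w : ℤ) - 2 * N) = 4 * U g t k (j, κ) := by
    rw [sum_blocks (fun w => h (w - 2 * N)) N (by
      intro z w hzw
      exact hper _ _ (Int.ModEq.sub_right _ hzw)) 4]
    congr 1
    unfold U
    apply sum_congr rfl
    intro w _
    have : h ((w : ℤ) - 2 * N) = h w := by
      apply hper
      rw [Int.modEq_iff_dvd]
      exact ⟨2, by ring⟩
    rw [this]
  rw [h3] at h2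
  exact h1.trans (mul_le_mul_of_nonneg_left h2 (by positivity))

/-- **Contraction on average on Leigh's classes.** -/
theorem small_SC {b : ℤ → ℤ} {e : ℤ → ℕ} (hf : g.Fac b e) {C : Finset (ℤ × ℕ)}
    {ρ : ℤ × ℕ → ℝ} (hC : g.Cls e C ρ) (hr : ∀ B ∈ C, 0 ≤ B.1 ∧ B.1 < g.d * B.2)
    (hneg : ∑ B ∈ C, ρ B * Real.log (g.a (B.1 % g.d)) < 0) :
    ∃ η : ℝ, 0 < η ∧ η < 1 ∧ g.Small (g.SC C) η := by
  classical
  obtain ⟨t, θ, h, ht, hθ0, hθ1, hh, hle⟩ := cls_contr hf hC hneg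
  have hd := g.dr
  have hd0 : (0 : ℝ) < g.d := by linarith
  have hld : 0 < Real.log g.d := Real.log_pos (by linarith)
  set c : ℝ := ∑ B ∈ C, 1 / h B with hc
  have hcB : ∀ B ∈ C, 1 ≤ c * h B := by
    intro B hB
    have h1 : 1 / h B ≤ c := single_le_sum (f := fun B => 1 / h B)
      (fun B hB => (one_div_pos.2 (hh B hB)).le) hB
    have h2 := hh B hB
    rwa [div_le_iff₀ h2] at h1
  have hc0 : 0 ≤ c := sum_nonneg fun B hB => (one_div_pos.2 (hh B hB)).le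
  have hU := U_le hf hC hθ0 hh hle c hcB
  set η : ℝ := max (1 / 2) (1 + Real.log θ / Real.log g.d) with hη
  have hlθ : Real.log θ < 0 := Real.log_neg hθ0 hθ1
  have hη1 : η < 1 := by
    rw [hη, max_lt_iff]
    refine ⟨by norm_num, ?_⟩
    have : Real.log θ / Real.log g.d < 0 := div_neg_of_neg_of_pos hlθ hld
    linarith
  have hη0 : 0 < η := lt_of_lt_of_le (by norm_num) (le_max_left _ _)
  have hdθ : g.d * θ ≤ (g.d : ℝ) ^ η := by
    have h1 : (g.d : ℝ) ^ (1 + Real.log θ / Real.log g.d) ≤ (g.d : ℝ) ^ η :=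
      Real.rpow_le_rpow_of_exponent_le (by linarith) (le_max_right _ _)
    refine le_trans (le_of_eq ?_) h1
    rw [Real.rpow_add hd0, Real.rpow_one]
    congr 1
    rw [Real.rpow_def_of_pos hd0, mul_div_cancel₀ _ hld.ne', Real.exp_log hθ0]
  refine ⟨η, hη0, hη1, (2 * g.d) ^ t * (4 * (c * ∑ B ∈ C, h B)) + 1, ?_, fun k => ⟨k, le_rfl, ?_⟩⟩
  · have : 0 ≤ ∑ B ∈ C, h B := sum_nonneg fun B hB => (hh B hB).le
    positivity
  intro F hF
  have hcov : F ⊆ C.biUnion (fun B => F.filter (fun x => x ≡ B.1 [ZMOD (g.d * B.2 : ℕ)])) := by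
    intro x hx
    obtain ⟨⟨B, hB, hxB⟩, -⟩ := hF x hx
    rw [mem_biUnion]
    exact ⟨B, hB, by rw [mem_filter]; exact ⟨hx, hxB⟩⟩
  have h1 : (F.card : ℝ) ≤ ∑ B ∈ C,
      (((F.filter (fun x => x ≡ B.1 [ZMOD (g.d * B.2 : ℕ)])).card : ℕ) : ℝ) := by
    exact_mod_cast (card_le_card hcov).trans card_biUnion_le
  have h2 : ∀ B ∈ C, (((F.filter (fun x => x ≡ B.1 [ZMOD (g.d * B.2 : ℕ)])).card : ℕ) : ℝ) ≤
      (2 * g.d) ^ t * (4 * (c * (g.d * θ) ^ k * h B)) := by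
    intro B hB
    refine (card_class t ht B (hC.pos B hB) (hr B hB).1 (hr B hB).2 k _ ?_).trans ?_
    · intro x hx
      rw [mem_filter] at hx
      obtain ⟨-, h3, h4⟩ := hF x hx.1
      exact ⟨hx.2, h3, h4⟩
    · apply mul_le_mul_of_nonneg_left _ (by positivity)
      apply mul_le_mul_of_nonneg_left _ (by norm_num)
      exact hU k B hB
  refine (h1.trans (sum_le_sum h2)).trans ?_
  have e1 : ∑ B ∈ C, (2 * (g.d : ℝ)) ^ t * (4 * (c * (g.d * θ) ^ k * h B)) =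
      (2 * g.d) ^ t * (4 * (c * ∑ B ∈ C, h B)) * (g.d * θ) ^ k := by
    have e2 : ∀ B ∈ C, (2 * (g.d : ℝ)) ^ t * (4 * (c * (g.d * θ) ^ k * h B)) =
        ((2 * g.d) ^ t * 4 * c * (g.d * θ) ^ k) * h B := by
      intro B _; ring
    rw [sum_congr rfl e2, ← mul_sum]
    ring
  rw [e1]
  have h3 : (g.d * θ) ^ k ≤ ((g.d : ℝ) ^ η) ^ k := pow_le_pow_left₀ (by positivity) hdθ k
  have h4 : 0 ≤ ((g.d : ℝ) ^ η) ^ k := by positivity
  have h5 : 0 ≤ (2 * (g.d : ℝ)) ^ t * (4 * (c * ∑ B ∈ C, h B)) := by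
    have : 0 ≤ ∑ B ∈ C, h B := sum_nonneg fun B hB => (hh B hB).le
    positivity
  calc (2 * (g.d : ℝ)) ^ t * (4 * (c * ∑ B ∈ C, h B)) * (g.d * θ) ^ k
      ≤ (2 * (g.d : ℝ)) ^ t * (4 * (c * ∑ B ∈ C, h B)) * ((g.d : ℝ) ^ η) ^ k :=
        mul_le_mul_of_nonneg_left h3 h5
    _ ≤ _ := by
        apply mul_le_mul_of_nonneg_right _ h4
        linarith

end GM

end Pool.Agent.H319R2.M
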