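import Mathlib
import Pool.Agent.H319R2.MPass

set_option autoImplicit false

/-!
Sparse sets for generalised Collatz maps which contract on average on an invariant set.
-/

namespace Pool.Agent.H319R2.M

open Finset Filter Pool.Agent.H319R2.G

namespace GM

variable (g : GM)

/-- elements of `S` of absolute value at most `d ^ k` -/
noncomputable def AS (S : Set ℤ) (k : ℕ) : Finset ℤ := by
  classical
  exact (Finset.Icc (-((g.d : ℤ) ^ k)) ((g.d : ℤ) ^ k)).filter fun x => x ∈ S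

theorem mem_AS {S : Set ℤ} {k : ℕ} {x : ℤ} : x ∈ g.AS S k ↔ |x| ≤ (g.d : ℤ) ^ k ∧ x ∈ S := by
  classical
  unfold AS
  rw [mem_filter, mem_Icc, abs_le]

theorem AS_card_le (S : Set ℤ) (k : ℕ) : ((g.AS S k).card : ℝ) ≤ 3 * (g.d : ℝ) ^ k := by
  classical
  have h1 : (g.AS S k).card ≤ 2 * g.d ^ k + 1 := by
    unfold AS
    refine (card_filter_le _ _).trans ?_
    rw [Int.card_Icc]
    have : (0 : ℤ) < (g.d : ℤ) ^ k := pow_pos g.d_pos k
    zify
    rw [Int.toNat_of_nonneg (by linarith)]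
    linarith
  have h2 : ((g.AS S k).card : ℝ) ≤ 2 * (g.d : ℝ) ^ k + 1 := by exact_mod_cast h1
  have h3 : (1 : ℝ) ≤ (g.d : ℝ) ^ k := one_le_pow₀ (by have := g.dr; linarith)
  linarith

theorem rec_step {S S0 : Set ℤ} (hSS : S ⊆ S0) (hS : Tame g.T S) (k n : ℕ) (hn : n ≤ k)
    (hk1 : 1 ≤ k) (Y : ℝ) (hY : 0 < Y) (hkY : (k : ℝ) * (g.R * g.d / Y) ≤ Real.log 2) (E : ℝ)
    (hE : ∀ F : Finset ℤ, (∀ x ∈ F, x ∈ S0 ∧ |x| ≤ (g.d : ℤ) ^ k ∧
      1 / (2 * (g.d : ℝ)) < g.prod n x) → (F.card : ℝ) ≤ E) :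
    ((g.AS S k).card : ℝ) ≤ (g.AS S (k - 1)).card + k + (k + 1) * (k + (2 * Y + 1)) + E := by
  classical
  have hd := g.dr
  set c : ℝ := 1 / (2 * g.d) with hc
  have hc0 : 0 < c := by positivity
  set F := g.AS S k with hF
  set F1 := (range (k + 1)).biUnion (fun j => F.filter (fun x => |((g.T^[j] x : ℤ) : ℝ)| < Y)) with hF1
  set F2 := F.filter (fun x => c < g.prod n x) with hF2
  set F3 := F.filter (fun x => (∀ j ≤ k, Y ≤ |((g.T^[j] x : ℤ) : ℝ)|) ∧ g.prod n x ≤ c) with hF3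
  have hcover : F ⊆ (F1 ∪ F2) ∪ F3 := by
    intro x hx
    rw [mem_union, mem_union]
    by_cases h1 : x ∈ F1
    · exact Or.inl (Or.inl h1)
    by_cases h2 : c < g.prod n x
    · exact Or.inl (Or.inr (by rw [hF2, mem_filter]; exact ⟨hx, h2⟩))
    · right
      rw [hF3, mem_filter]
      refine ⟨hx, ?_, not_lt.1 h2⟩
      intro j hj
      by_contra h3
      apply h1
      rw [hF1, mem_biUnion]
      exact ⟨j, by rw [mem_range]; omega, by rw [mem_filter]; exact ⟨hx, not_le.1 h3⟩⟩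
  have hc1 : (F1.card : ℝ) ≤ (k + 1) * (k + (2 * Y + 1)) := by
    have h1 : F1.card ≤ ∑ j ∈ range (k + 1),
        (F.filter (fun x => |((g.T^[j] x : ℤ) : ℝ)| < Y)).card := card_biUnion_le
    have h2 : (F1.card : ℝ) ≤ ∑ j ∈ range (k + 1),
        (((F.filter (fun x => |((g.T^[j] x : ℤ) : ℝ)| < Y)).card : ℕ) : ℝ) := by exact_mod_cast h1
    refine h2.trans ?_
    have h3 : ∀ j ∈ range (k + 1),
        (((F.filter (fun x => |((g.T^[j] x : ℤ) : ℝ)| < Y)).card : ℕ) : ℝ) ≤ k + (2 * Y + 1) := by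
      intro j hj
      rw [mem_range] at hj
      obtain ⟨B, hB, hmap, hinj⟩ := hS j
      set G := F.filter (fun x => |((g.T^[j] x : ℤ) : ℝ)| < Y) with hG
      have h4 : G ⊆ (G \ B) ∪ B := by
        intro x hx
        rw [mem_union, Finset.mem_sdiff]
        by_cases h : x ∈ B
        · exact Or.inr h
        · exact Or.inl ⟨hx, h⟩
      have h5 := (card_le_card h4).trans (card_union_le _ _)
      have h6 : ((G \ B).card : ℝ) ≤ 2 * Y + 1 := by
        have hio : Set.InjOn (g.T^[j]) (G \ B : Finset ℤ) := by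
          intro x hx y hy hxy
          have hx := Finset.mem_sdiff.1 hx
          have hy := Finset.mem_sdiff.1 hy
          exact hinj x (g.mem_AS.1 (mem_filter.1 hx.1).1).2 y (g.mem_AS.1 (mem_filter.1 hy.1).1).2
            hx.2 hy.2 hxy
        rw [← card_image_of_injOn hio]
        apply GC.card_short Y hY
        intro y hy
        rw [mem_image] at hy
        obtain ⟨x, hx, rfl⟩ := hy
        exact (mem_filter.1 (Finset.mem_sdiff.1 hx).1).2
      have h7 : (G.card : ℝ) ≤ (G \ B).card + B.card := by exact_mod_cast h5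
      have h8 : (B.card : ℝ) ≤ k := by
        have : B.card ≤ k := hB.trans (by omega)
        exact_mod_cast this
      linarith
    refine (sum_le_sum h3).trans (le_of_eq ?_)
    rw [sum_const, card_range, nsmul_eq_mul]; push_cast; ring
  have hc2 : (F2.card : ℝ) ≤ E := by
    apply hE
    intro x hx
    rw [hF2, mem_filter] at hx
    exact ⟨hSS (g.mem_AS.1 hx.1).2, (g.mem_AS.1 hx.1).1, hx.2⟩
  have hc3 : (F3.card : ℝ) ≤ (g.AS S (k - 1)).card + k := by
    obtain ⟨B, hB', hmap, hinj⟩ := hS n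
    have hB : B.card ≤ k := hB'.trans hn
    have h4 : F3 ⊆ (F3 \ B) ∪ B := by
      intro x hx
      rw [mem_union, Finset.mem_sdiff]
      by_cases h : x ∈ B
      · exact Or.inr h
      · exact Or.inl ⟨hx, h⟩
    have h5 := (card_le_card h4).trans (card_union_le _ _)
    have h6 : (F3 \ B).card ≤ (g.AS S (k - 1)).card := by
      apply card_le_card_of_injOn (g.T^[n])
      · intro x hx
        have hx := Finset.mem_sdiff.1 hx
        have hx' := mem_filter.1 hx.1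
        obtain ⟨hx1, hx2⟩ := g.mem_AS.1 hx'.1
        rw [mem_coe, g.mem_AS]
        refine ⟨?_, hmap x hx2 hx.2⟩
        have h7 := g.iter_le Y hY n x (fun j hj => hx'.2.1 j (hj.le.trans hn))
        have hnk : (n : ℝ) ≤ k := by exact_mod_cast hn
        have h8 : Real.exp (n * (g.R * g.d / Y)) ≤ 2 := by
          have h8' : (n : ℝ) * (g.R * g.d / Y) ≤ Real.log 2 :=
            (mul_le_mul_of_nonneg_right hnk (by have := g.R_nonneg; positivity)).trans hkY
          calc Real.exp (n * (g.R * g.d / Y)) ≤ Real.exp (Real.log 2) := Real.exp_le_exp.2 h8'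
            _ = 2 := Real.exp_log (by norm_num)
        have h9 : |(x : ℝ)| ≤ (g.d : ℝ) ^ k := by exact_mod_cast hx1
        have h10 : |((g.T^[n] x : ℤ) : ℝ)| ≤ (g.d : ℝ) ^ (k - 1) := by
          have hp := g.prod_pos' n x
          calc |((g.T^[n] x : ℤ) : ℝ)| ≤ g.prod n x * |(x : ℝ)| * Real.exp (n * (g.R * g.d / Y)) := h7
            _ ≤ c * (g.d : ℝ) ^ k * 2 := by
                apply mul_le_mul _ h8 (Real.exp_pos _).le (by positivity)
                exact mul_le_mul hx'.2.2 h9 (abs_nonneg _) hc0.le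
            _ = (g.d : ℝ) ^ (k - 1) := by
                have : (g.d : ℝ) ^ k = g.d ^ (k - 1) * g.d := by
                  rw [← pow_succ]; congr 1; omega
                rw [this, hc]; field_simp
        exact_mod_cast h10
      · intro x hx y hy hxy
        have hx := Finset.mem_sdiff.1 hx
        have hy := Finset.mem_sdiff.1 hy
        exact hinj x (g.mem_AS.1 (mem_filter.1 hx.1).1).2 y (g.mem_AS.1 (mem_filter.1 hy.1).1).2
          hx.2 hy.2 hxy
    have h7 : F3.card ≤ (g.AS S (k - 1)).card + k := by omega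
    exact_mod_cast h7
  have h1 := (card_le_card hcover).trans (card_union_le _ _)
  have h2 := card_union_le F1 F2
  have h3 : (F.card : ℝ) ≤ F1.card + F2.card + F3.card := by
    have : F.card ≤ F1.card + F2.card + F3.card := by omega
    exact_mod_cast this
  linarith

/-- **Sparsity.** -/
theorem sparse (S0 : Set ℤ) (η : ℝ) (hη : 0 < η) (hsm : g.Small S0 η) :
    ∃ C : ℝ, 0 < C ∧ ∀ S : Set ℤ, S ⊆ S0 → Tame g.T S → ∀ X : ℝ, 1 ≤ X →
      ∀ F : Finset ℤ, (∀ x ∈ F, x ∈ S ∧ |(x : ℝ)| ≤ X) → (F.card : ℝ) ≤ C * X ^ η := by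
  classical
  have hd := g.dr
  have hd0 : (0 : ℝ) < g.d := by linarith
  have hR := g.R_nonneg
  obtain ⟨C0', hC0', hsm⟩ := hsm
  choose n hn hnF using hsm
  set ρ : ℝ := (g.d : ℝ) ^ η with hρ
  set q : ℝ := (g.d : ℝ) ^ (η / 2) with hq
  have hq0 : 0 < q := by positivity
  have hq1 : 1 < q := Real.one_lt_rpow (by linarith) (by linarith)
  have hqρ : q < ρ := Real.rpow_lt_rpow_of_exponent_lt (by linarith) (by linarith)
  have hρ0 : 0 < ρ := by positivity
  have hρ1 : 1 < ρ := hq1.trans hqρ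
  -- the error terms are `O(ρ ^ k)`
  obtain ⟨C1, hC1⟩ : ∃ C1 : ℝ, ∀ k : ℕ, (k : ℝ) + (k + 1) * (k + (2 * q ^ k + 1)) +
      C0' * ρ ^ k ≤ C1 * ρ ^ k := by
    have h1 : Tendsto (fun k : ℕ => (k : ℝ) ^ 2 * (q / ρ) ^ k) atTop (nhds 0) := by
      apply tendsto_pow_const_mul_const_pow_of_abs_lt_one
      rw [abs_of_pos (by positivity), div_lt_one hρ0]; exact hqρ
    obtain ⟨M, hM⟩ := h1.bddAbove_range
    have hM' : ∀ k : ℕ, (k : ℝ) ^ 2 * q ^ k ≤ M * ρ ^ k := by
      intro k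
      have h2 : (k : ℝ) ^ 2 * (q / ρ) ^ k ≤ M := hM ⟨k, rfl⟩
      rw [div_pow, mul_div_assoc', div_le_iff₀ (by positivity)] at h2
      exact h2
    refine ⟨20 + 20 * M + C0', fun k => ?_⟩
    have h5 : (1 : ℝ) ≤ ρ ^ k := one_le_pow₀ hρ1.le
    have h6 : (1 : ℝ) ≤ q ^ k := one_le_pow₀ hq1.le
    have h6' : q ^ k ≤ ρ ^ k := pow_le_pow_left₀ hq0.le hqρ.le k
    have h7 := hM' k
    rcases Nat.eq_zero_or_pos k with h0 | h0
    · subst h0
      simp only [Nat.cast_zero, pow_zero] at *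
      have hM0 : 0 ≤ M := by linarith
      nlinarith
    · have h8 : (1 : ℝ) ≤ k := by exact_mod_cast h0
      have h9 : (k : ℝ) ≤ k ^ 2 := by nlinarith
      have h10 : (k : ℝ) ^ 2 ≤ k ^ 2 * q ^ k := le_mul_of_one_le_right (by positivity) h6
      have h11 : (k : ℝ) + (k + 1) * (k + (2 * q ^ k + 1)) ≤ 20 * (k ^ 2 * q ^ k) := by
        have e : (k : ℝ) + (k + 1) * (k + (2 * q ^ k + 1)) =
            k + (k + 1) * (k + 1) + 2 * (k + 1) * q ^ k := by ring
        rw [e]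
        have b1 : ((k : ℝ) + 1) * (k + 1) ≤ 4 * (k ^ 2 * q ^ k) := by
          have : ((k : ℝ) + 1) * (k + 1) ≤ 4 * k ^ 2 := by nlinarith
          linarith
        have b2 : 2 * ((k : ℝ) + 1) * q ^ k ≤ 4 * (k ^ 2 * q ^ k) := by
          have : 2 * ((k : ℝ) + 1) ≤ 4 * k ^ 2 := by nlinarith
          have b3 := mul_le_mul_of_nonneg_right this (by positivity : 0 ≤ q ^ k)
          linarith
        linarith
      nlinarith
  -- largeness
  obtain ⟨k0, hk0⟩ : ∃ k0 : ℕ, ∀ k : ℕ, k0 ≤ k → (k : ℝ) * (g.R * g.d / q ^ k) ≤ Real.log 2 := by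
    have h1 : Tendsto (fun k : ℕ => g.R * g.d * ((k : ℝ) ^ 1 * (1 / q) ^ k)) atTop (nhds (g.R * g.d * 0)) := by
      apply Tendsto.const_mul
      apply tendsto_pow_const_mul_const_pow_of_abs_lt_one
      rw [abs_of_pos (by positivity), div_lt_one hq0]; exact hq1
    rw [mul_zero] at h1
    have h2 := h1.eventually (gt_mem_nhds (Real.log_pos (by norm_num : (1 : ℝ) < 2)))
    obtain ⟨k0, hk0⟩ := eventually_atTop.1 h2
    refine ⟨k0, fun k hk => ?_⟩
    have h3 := (hk0 k hk).le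
    refine le_trans (le_of_eq ?_) h3
    rw [pow_one, one_div, inv_pow]; ring
  set C0 : ℝ := 3 * (g.d : ℝ) ^ k0 with hC0
  set C : ℝ := C0 + |C1| / (1 - ρ⁻¹) + 1 with hCdef
  have hρinv : ρ⁻¹ < 1 := inv_lt_one_of_one_lt₀ hρ1
  have hρinv0 : 0 < ρ⁻¹ := by positivity
  have hden : 0 < 1 - ρ⁻¹ := by linarith
  have hCpos : 0 < C := by
    have : 0 ≤ |C1| / (1 - ρ⁻¹) := by positivity
    have : 0 ≤ C0 := by positivity
    linarith
  have hmain : ∀ S : Set ℤ, S ⊆ S0 → Tame g.T S → ∀ k : ℕ,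
      ((g.AS S k).card : ℝ) ≤ C * ρ ^ k := by
    intro S hSS hS k
    induction k using Nat.strong_induction_on with
    | _ k ih =>
      have hρk : (1 : ℝ) ≤ ρ ^ k := one_le_pow₀ hρ1.le
      rcases le_or_gt k k0 with hk | hk
      · have h1 := g.AS_card_le S k
        have h2 : (g.d : ℝ) ^ k ≤ (g.d : ℝ) ^ k0 := pow_le_pow_right₀ (by linarith) hk
        have h3 : C0 ≤ C := by
          have : 0 ≤ |C1| / (1 - ρ⁻¹) := by positivity
          linarith
        have h4 : ((g.AS S k).card : ℝ) ≤ C := by linarith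
        nlinarith
      · have hr := g.rec_step hSS hS k (n k) (hn k) (by omega) (q ^ k) (by positivity)
          (hk0 k hk.le) (C0' * ρ ^ k) (hnF k)
        have hi := ih (k - 1) (by omega)
        have he := hC1 k
        have e : ρ ^ (k - 1) = ρ ^ k * ρ⁻¹ := by
          have : ρ ^ k = ρ ^ (k - 1) * ρ := by rw [← pow_succ]; congr 1; omega
          rw [this]; field_simp
        rw [e] at hi
        have h5 : C1 ≤ C * (1 - ρ⁻¹) := by
          have h6 : C1 ≤ |C1| := le_abs_self _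
          have h7 : |C1| = |C1| / (1 - ρ⁻¹) * (1 - ρ⁻¹) := (div_mul_cancel₀ _ hden.ne').symm
          have h8 : |C1| / (1 - ρ⁻¹) * (1 - ρ⁻¹) ≤ C * (1 - ρ⁻¹) := by
            apply mul_le_mul_of_nonneg_right _ hden.le
            have : 0 ≤ C0 := by positivity
            linarith
          linarith
        have h9 : C1 * ρ ^ k ≤ C * (1 - ρ⁻¹) * ρ ^ k := mul_le_mul_of_nonneg_right h5 (by positivity)
        have h10 : C * (ρ ^ k * ρ⁻¹) + C * (1 - ρ⁻¹) * ρ ^ k = C * ρ ^ k := by ring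
        linarith
  refine ⟨C * (g.d : ℝ) ^ η, by positivity, ?_⟩
  intro S hSS hS X hX F hF
  obtain ⟨k, hk⟩ : ∃ k, k = Nat.log g.d ⌊X⌋₊ + 1 := ⟨_, rfl⟩
  have hd2 : 1 < g.d := g.two_le
  have hfl : ⌊X⌋₊ ≠ 0 := by
    have : 1 ≤ ⌊X⌋₊ := Nat.one_le_floor_iff _ |>.2 hX
    omega
  have hk1 : X < (g.d : ℝ) ^ k := by
    have h1 := Nat.lt_pow_succ_log_self (b := g.d) hd2 ⌊X⌋₊
    have h2 : ⌊X⌋₊ + 1 ≤ g.d ^ k := by rw [hk]; exact h1
    have h3 : X < ⌊X⌋₊ + 1 := Nat.lt_floor_add_one X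
    have h4 : ((⌊X⌋₊ + 1 : ℕ) : ℝ) ≤ ((g.d ^ k : ℕ) : ℝ) := by exact_mod_cast h2
    push_cast at h4
    linarith
  have hk2 : (g.d : ℝ) ^ k ≤ g.d * X := by
    have h1 := Nat.pow_log_le_self g.d hfl
    have h3 : (⌊X⌋₊ : ℝ) ≤ X := Nat.floor_le (by linarith)
    have h4 : ((g.d ^ Nat.log g.d ⌊X⌋₊ : ℕ) : ℝ) ≤ (⌊X⌋₊ : ℝ) := by exact_mod_cast h1
    push_cast at h4
    rw [hk, pow_succ, mul_comm]
    exact mul_le_mul_of_nonneg_left (h4.trans h3) hd0.le
  have hsub : F ⊆ g.AS S k := by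
    intro x hx
    rw [g.mem_AS]
    refine ⟨?_, (hF x hx).1⟩
    have : |(x : ℝ)| ≤ (g.d : ℝ) ^ k := (hF x hx).2.trans hk1.le
    exact_mod_cast this
  have h1 : (F.card : ℝ) ≤ (g.AS S k).card := by exact_mod_cast card_le_card hsub
  refine h1.trans ((hmain S hSS hS k).trans ?_)
  rw [mul_assoc]
  apply mul_le_mul_of_nonneg_left _ hCpos.le
  rw [hρ, ← Real.mul_rpow hd0.le (by linarith), ← Real.rpow_natCast ((g.d : ℝ) ^ η) k,
    ← Real.rpow_mul hd0.le, mul_comm η, Real.rpow_mul hd0.le, Real.rpow_natCast]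
  exact Real.rpow_le_rpow (by positivity) hk2 (by linarith)


theorem iter_mem {S0 : Set ℤ} (hinv : ∀ x ∈ S0, g.T x ∈ S0) (j : ℕ) :
    ∀ x ∈ S0, g.T^[j] x ∈ S0 := by
  induction j with
  | zero => intro x hx; exact hx
  | succ j ih => intro x hx; rw [Function.iterate_succ_apply']; exact hinv _ (ih x hx)

/-- orbits -/
theorem orbit_sparse (S0 : Set ℤ) (hinv : ∀ x ∈ S0, g.T x ∈ S0) (η : ℝ) (hη : 0 < η)
    (hsm : g.Small S0 η) :
    ∃ C : ℝ, 0 < C ∧ ∀ (x : ℤ), x ∈ S0 → ∀ (X : ℝ), 1 ≤ X →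
      ∀ F : Finset ℤ, (∀ y ∈ F, (∃ i, g.T^[i] x = y) ∧ |(y : ℝ)| ≤ X) →
        (F.card : ℝ) ≤ C * X ^ η := by
  obtain ⟨C, hC0, hC⟩ := g.sparse S0 η hη hsm
  refine ⟨C, hC0, ?_⟩
  intro x hx0 X hX F hF
  obtain ⟨r, hinj, hr⟩ := finite_subset_path g.T x F (fun y hy => (hF y hy).1)
  apply hC _ _ (tame_path g.T x r hinj) X hX F
  · intro y hy
    obtain ⟨i, hi, he⟩ := hr y hy
    exact ⟨⟨i, hi, he⟩, (hF y hy).2⟩
  · rintro y ⟨i, _, rfl⟩
    exact g.iter_mem hinv i x hx0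

theorem T_ne (z : ℤ) (h : 2 * g.R ≤ |(z : ℝ)|) (hz : z ≠ 0) : g.T z ≠ 0 := by
  intro h0
  have h1 := g.T_mul z
  rw [h0, mul_zero] at h1
  have h2 : g.m (z % g.d) * z = g.r (z % g.d) := by linarith
  have h3 : (g.m (z % g.d) : ℝ) * z = g.r (z % g.d) := by exact_mod_cast h2
  have h4 := g.r_le z
  rw [← h3, abs_mul] at h4
  have h5 : (1 : ℝ) ≤ |(g.m (z % g.d) : ℝ)| := by
    have : (1 : ℤ) ≤ |g.m (z % g.d)| := Int.one_le_abs (g.m_ne z)
    exact_mod_cast this
  have h6 : (1 : ℝ) ≤ |(z : ℝ)| := by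
    have : (1 : ℤ) ≤ |z| := Int.one_le_abs hz
    exact_mod_cast this
  nlinarith [g.R_nonneg]

theorem log_step (z : ℤ) (h : 2 * g.R ≤ |(z : ℝ)|) (hz : z ≠ 0) :
    |Real.log |(g.T z : ℝ)| - Real.log |(z : ℝ)| - Real.log (g.a (z % g.d))| ≤
      2 * g.R / |(z : ℝ)| := by
  have hd := g.dr
  have h1 := g.T_mul z
  have h1' : (g.d : ℝ) * (g.T z : ℝ) = (g.m (z % g.d) : ℝ) * z - (g.r (z % g.d) : ℝ) := by
    exact_mod_cast h1
  set M : ℝ := (g.m (z % g.d) : ℝ) with hM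
  set r : ℝ := (g.r (z % g.d) : ℝ) with hr
  have hM1 : (1 : ℝ) ≤ |M| := by
    have : (1 : ℤ) ≤ |g.m (z % g.d)| := Int.one_le_abs (g.m_ne z)
    rw [hM]; exact_mod_cast this
  have hM0 : M ≠ 0 := by intro h0; rw [h0, abs_zero] at hM1; linarith
  have hz1 : (1 : ℝ) ≤ |(z : ℝ)| := by
    have : (1 : ℤ) ≤ |z| := Int.one_le_abs hz
    exact_mod_cast this
  have hz0 : (z : ℝ) ≠ 0 := by exact_mod_cast hz
  have hrR : |r| ≤ g.R := g.r_le z
  set t : ℝ := r / (M * z) with ht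
  have htb : |t| ≤ g.R / |(z : ℝ)| := by
    rw [ht, abs_div, abs_mul, div_le_div_iff₀ (by positivity) (by positivity)]
    have h2 : |r| * |(z : ℝ)| ≤ g.R * |(z : ℝ)| := mul_le_mul_of_nonneg_right hrR (by positivity)
    have h3 : g.R * |(z : ℝ)| ≤ g.R * (|M| * |(z : ℝ)|) := by
      apply mul_le_mul_of_nonneg_left _ g.R_nonneg
      nlinarith
    linarith
  have htb2 : |t| ≤ 1 / 2 := by
    refine htb.trans ?_
    rw [div_le_iff₀ (by positivity)]
    linarith
  have h1t : 0 < 1 - t := by have := abs_le.1 htb2; linarith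
  have hTz : (g.T z : ℝ) ≠ 0 := by exact_mod_cast g.T_ne z h hz
  have h4 : Real.log |(g.T z : ℝ)| + Real.log g.d =
      Real.log |M| + Real.log |(z : ℝ)| + Real.log (1 - t) := by
    have e1 : (g.d : ℝ) * (g.T z : ℝ) = M * z * (1 - t) := by
      rw [h1', ht]; field_simp
    have e2 : (g.d : ℝ) * |(g.T z : ℝ)| = |M| * |(z : ℝ)| * (1 - t) := by
      rw [← abs_of_pos (show (0 : ℝ) < g.d by linarith), ← abs_mul, e1, abs_mul, abs_mul,
        abs_of_pos h1t]
    have e3 := congrArg Real.log e2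
    rw [Real.log_mul (by positivity) (abs_ne_zero.2 hTz), Real.log_mul (by positivity) h1t.ne',
      Real.log_mul (abs_ne_zero.2 hM0) (abs_ne_zero.2 hz0)] at e3
    linarith
  have h5 : Real.log (g.a (z % g.d)) = Real.log |M| - Real.log g.d := by
    unfold a
    rw [Real.log_div (abs_ne_zero.2 hM0) (by positivity)]
  have h6 : Real.log |(g.T z : ℝ)| - Real.log |(z : ℝ)| - Real.log (g.a (z % g.d)) =
      Real.log (1 - t) := by rw [h5]; linarith
  rw [h6]
  refine (GC.log_one_sub t htb2).trans ?_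
  rw [mul_div_assoc]
  linarith

/-- sum of the logarithms of the multipliers along the orbit -/
noncomputable def lg (k : ℕ) (x : ℤ) : ℝ := ∑ j ∈ range k, Real.log (g.a ((g.T^[j] x) % g.d))

theorem log_prod (k : ℕ) (x : ℤ) : Real.log (g.prod k x) = g.lg k x := by
  unfold GM.prod GM.lg
  exact Real.log_prod (fun j _ => (g.a_pos _).ne')

theorem lg_add (k l : ℕ) (x : ℤ) : g.lg (k + l) x = g.lg k x + g.lg l (g.T^[k] x) := by
  unfold GM.lg
  rw [sum_range_add]
  congr 1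
  apply sum_congr rfl
  intro i _
  rw [add_comm, Function.iterate_add_apply]

theorem log_iter_sum (x : ℤ) (k : ℕ)
    (h : ∀ j < k, 2 * g.R + 1 ≤ |((g.T^[j] x : ℤ) : ℝ)|) :
    |Real.log |((g.T^[k] x : ℤ) : ℝ)| - Real.log |(x : ℝ)| - g.lg k x| ≤
      2 * g.R * ∑ j ∈ range k, 1 / |((g.T^[j] x : ℤ) : ℝ)| := by
  induction k with
  | zero => simp [GM.lg]
  | succ k ih =>
    have ih' := ih (fun j hj => h j (by omega))
    have hk := h k (by omega)
    rw [Function.iterate_succ_apply']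
    have e1 : g.lg (k + 1) x = g.lg k x + Real.log (g.a ((g.T^[k] x) % g.d)) := by
      unfold GM.lg; rw [sum_range_succ]
    rw [e1, sum_range_succ, mul_add]
    set z := g.T^[k] x with hz
    have hR := g.R_nonneg
    have hz0 : z ≠ 0 := by
      intro h0; rw [h0] at hk; simp at hk; linarith
    have h2 := g.log_step z (by linarith) hz0
    have e2 : Real.log |(g.T z : ℝ)| - Real.log |(x : ℝ)| -
        (g.lg k x + Real.log (g.a (z % g.d))) =
        (Real.log |(z : ℝ)| - Real.log |(x : ℝ)| - g.lg k x) +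
        (Real.log |(g.T z : ℝ)| - Real.log |(z : ℝ)| - Real.log (g.a (z % g.d))) := by ring
    rw [e2]
    refine (abs_add_le _ _).trans ?_
    have e3 : 2 * g.R * (1 / |(z : ℝ)|) = 2 * g.R / |(z : ℝ)| := by ring
    rw [e3]
    exact add_le_add ih' h2

/-- **Rigidity.** -/
theorem rigid (S0 : Set ℤ) (hinv : ∀ x ∈ S0, g.T x ∈ S0) (η : ℝ) (hη : 0 < η) (hη1 : η < 1)
    (hsm : g.Small S0 η) :
    ∃ C : ℝ, 0 < C ∧ ∀ (x : ℤ), x ∈ S0 → ∀ (k : ℕ), Set.InjOn (fun i => g.T^[i] x) (Set.Iio k) → ∀ N : ℝ,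
      2 * g.R + 1 ≤ N → (∀ j < k, N ≤ |((g.T^[j] x : ℤ) : ℝ)|) →
      |Real.log |((g.T^[k] x : ℤ) : ℝ)| - Real.log |(x : ℝ)| - g.lg k x| ≤ C * N ^ (η - 1) := by
  classical
  obtain ⟨C, hC0, hC⟩ := g.sparse S0 η hη hsm
  have hρ1 : (2 : ℝ) ^ (η - 1) < 1 := Real.rpow_lt_one_of_one_lt_of_neg (by norm_num) (by linarith)
  have hρ0 : (0 : ℝ) < 1 - 2 ^ (η - 1) := by linarith
  have hR := g.R_nonneg
  refine ⟨2 * g.R * (C * 2 ^ η / (1 - 2 ^ (η - 1))) + 1, by positivity, ?_⟩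
  intro x hx0 k hinj N hN hmin
  have hN1 : 1 ≤ N := by linarith
  have hN0 : 0 < N := by linarith
  have hsub : (fun i => g.T^[i] x) '' (Set.Iio k) ⊆ S0 := by
    rintro y ⟨i, _, rfl⟩
    exact g.iter_mem hinv i x hx0
  have h1 := g.log_iter_sum x k (fun j hj => hN.trans (hmin j hj))
  have h2 := recip_of_sparse η C (by linarith) hη1 hC0.le _ (hC _ hsub (tame_path g.T x k hinj)) N hN1
    ((range k).image fun i => g.T^[i] x) (by
      intro y hy
      rw [mem_image] at hy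
      obtain ⟨i, hi, rfl⟩ := hy
      rw [mem_range] at hi
      exact ⟨⟨i, hi, rfl⟩, hmin i hi⟩)
  rw [sum_image (by
    intro i hi j hj hij
    exact hinj (by simpa using hi) (by simpa using hj) hij)] at h2
  have h3 := mul_le_mul_of_nonneg_left h2 (by positivity : 0 ≤ 2 * g.R)
  have h4 : 0 < N ^ (η - 1) := Real.rpow_pos_of_pos hN0 _
  calc _ ≤ 2 * g.R * ∑ j ∈ range k, 1 / |((g.T^[j] x : ℤ) : ℝ)| := h1
    _ ≤ 2 * g.R * (C * 2 ^ η / (1 - 2 ^ (η - 1)) * N ^ (η - 1)) := h3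
    _ ≤ _ := by rw [add_mul]; linarith

/-- periodic points -/
theorem cycle_rigid (S0 : Set ℤ) (hinv : ∀ x ∈ S0, g.T x ∈ S0) (η : ℝ) (hη : 0 < η) (hη1 : η < 1)
    (hsm : g.Small S0 η) :
    ∃ C : ℝ, 0 < C ∧ ∀ (x : ℤ), x ∈ S0 → ∀ (p : ℕ), p = Function.minimalPeriod g.T x → 0 < p → ∀ N : ℝ,
      2 * g.R + 1 ≤ N → (∀ j, N ≤ |((g.T^[j] x : ℤ) : ℝ)|) → |g.lg p x| ≤ C * N ^ (η - 1) := by
  obtain ⟨C, hC0, hC⟩ := g.rigid S0 hinv η hη hη1 hsm
  refine ⟨C, hC0, ?_⟩
  intro x hx0 p hp hp0 N hN hmin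
  have hinj : Set.InjOn (fun i => g.T^[i] x) (Set.Iio p) := by
    rw [hp]; exact Function.iterate_injOn_Iio_minimalPeriod
  have h := hC x hx0 p hinj N hN (fun j _ => hmin j)
  have hper : g.T^[p] x = x := by
    rw [hp]; exact Function.iterate_minimalPeriod
  rw [hper, sub_self, zero_sub, abs_neg] at h
  exact h

/-- a sequence tending to infinity in absolute value along an orbit is injective -/
theorem injective_of_tendsto {x : ℤ} (h : Tendsto (fun k => |g.T^[k] x|) atTop atTop) :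
    Function.Injective (fun k => g.T^[k] x) := by
  have key : ∀ i j : ℕ, i < j → g.T^[i] x = g.T^[j] x → False := by
    intro i j hij he
    have hper : ∀ m : ℕ, g.T^[i + m * (j - i)] x = g.T^[i] x := by
      intro m
      induction m with
      | zero => simp
      | succ m ih =>
        have e : i + (m + 1) * (j - i) = (j - i) + (i + m * (j - i)) := by ring
        rw [e, Function.iterate_add_apply, ih, ← Function.iterate_add_apply,
          Nat.sub_add_cancel hij.le, ← he]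
    have h1 := (tendsto_atTop.1 h) (|g.T^[i] x| + 1)
    obtain ⟨K, hK⟩ := eventually_atTop.1 h1
    have h2 := hK (i + K * (j - i)) (by
      have : 1 ≤ j - i := by omega
      nlinarith)
    rw [hper K] at h2
    linarith
  intro i j he
  by_contra hne
  rcases lt_or_gt_of_ne hne with h1 | h1
  · exact key i j h1 he
  · exact key j i h1 he.symm

/-- **Divergent orbits**: `|T^k x| / ∏ |m|/d` converges to a positive limit. -/
theorem divergent (S0 : Set ℤ) (hinv : ∀ x ∈ S0, g.T x ∈ S0) (η : ℝ) (hη : 0 < η) (hη1 : η < 1)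
    (hsm : g.Small S0 η) :
    ∃ C : ℝ, ∀ x : ℤ, x ∈ S0 → Tendsto (fun k => |g.T^[k] x|) atTop atTop →
      ∃ w : ℝ, 0 < w ∧
        Tendsto (fun k => |((g.T^[k] x : ℤ) : ℝ)| / g.prod k x) atTop (nhds w) ∧
        ∀ (k : ℕ) (N : ℝ), 2 * g.R + 1 ≤ N → (∀ j, k ≤ j → N ≤ |((g.T^[j] x : ℤ) : ℝ)|) →
          abs (Real.log w - Real.log (|((g.T^[k] x : ℤ) : ℝ)| / g.prod k x)) ≤ C * N ^ (η - 1) := by
  obtain ⟨C, hC0, hC⟩ := g.rigid S0 hinv η hη hη1 hsm
  refine ⟨C, ?_⟩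
  intro x hx0 hdiv
  have hinj := g.injective_of_tendsto hdiv
  have hR := g.R_nonneg
  -- eventually large
  have hlarge : ∀ N : ℝ, ∃ K : ℕ, ∀ k, K ≤ k → N ≤ |((g.T^[k] x : ℤ) : ℝ)| := by
    intro N
    have h4 := (tendsto_atTop.1 hdiv) ⌈N⌉
    obtain ⟨K, hK⟩ := eventually_atTop.1 h4
    refine ⟨K, fun k hk => ?_⟩
    have h6 : (⌈N⌉ : ℝ) ≤ |((g.T^[k] x : ℤ) : ℝ)| := by exact_mod_cast hK k hk
    exact (Int.le_ceil N).trans h6
  set L : ℕ → ℝ := fun k => Real.log |((g.T^[k] x : ℤ) : ℝ)| - g.lg k x with hL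
  have hdist : ∀ (k l : ℕ) (N : ℝ), 2 * g.R + 1 ≤ N →
      (∀ j, k ≤ j → N ≤ |((g.T^[j] x : ℤ) : ℝ)|) → |L (k + l) - L k| ≤ C * N ^ (η - 1) := by
    intro k l N hN hmin
    have hinj' : Set.InjOn (fun i => g.T^[i] (g.T^[k] x)) (Set.Iio l) := by
      intro i _ j _ hij
      have e : (fun k => g.T^[k] x) (i + k) = (fun k => g.T^[k] x) (j + k) := by
        simp only at hij ⊢
        rw [Function.iterate_add_apply, Function.iterate_add_apply]
        exact hij
      have := hinj e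
      omega
    have h := hC (g.T^[k] x) (g.iter_mem hinv k x hx0) l hinj' N hN (by
      intro j _
      rw [← Function.iterate_add_apply]
      exact hmin (j + k) (by omega))
    have e2 : L (k + l) - L k = Real.log |((g.T^[l] (g.T^[k] x) : ℤ) : ℝ)| -
        Real.log |((g.T^[k] x : ℤ) : ℝ)| - g.lg l (g.T^[k] x) := by
      rw [hL]; simp only
      rw [g.lg_add, add_comm k l, Function.iterate_add_apply]; ring
    rw [e2]
    exact h
  have hlim0 : Tendsto (fun N : ℝ => C * N ^ (η - 1)) atTop (nhds 0) := by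
    have h1 : Tendsto (fun N : ℝ => N ^ (-(1 - η))) atTop (nhds 0) :=
      tendsto_rpow_neg_atTop (by linarith)
    have h2 := h1.const_mul C
    rw [mul_zero] at h2
    refine h2.congr fun N => ?_
    congr 2; ring
  have hcauchy : CauchySeq L := by
    rw [Metric.cauchySeq_iff']
    intro ε hε
    obtain ⟨N0, hN0⟩ := eventually_atTop.1 (hlim0.eventually (gt_mem_nhds hε))
    set N : ℝ := max N0 (2 * g.R + 1) with hNdef
    obtain ⟨K, hK⟩ := hlarge N
    refine ⟨K, fun k hk => ?_⟩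
    obtain ⟨l, rfl⟩ := Nat.exists_eq_add_of_le hk
    rw [Real.dist_eq]
    exact lt_of_le_of_lt (hdist K l N (le_max_right _ _) hK) (hN0 N (le_max_left _ _))
  obtain ⟨ℓ, hℓ⟩ := cauchySeq_tendsto_of_complete hcauchy
  obtain ⟨K1, hK1⟩ := hlarge 1
  have hLk : ∀ k, K1 ≤ k → Real.log (|((g.T^[k] x : ℤ) : ℝ)| / g.prod k x) = L k := by
    intro k hk
    have h1 := hK1 k hk
    rw [Real.log_div (by positivity) (g.prod_pos' k x).ne', g.log_prod]
  refine ⟨Real.exp ℓ, Real.exp_pos _, ?_, ?_⟩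
  · have h1 : Tendsto (fun k => Real.exp (L k)) atTop (nhds (Real.exp ℓ)) :=
      (Real.continuous_exp.tendsto ℓ).comp hℓ
    refine h1.congr' ?_
    filter_upwards [eventually_ge_atTop K1] with k hk
    rw [← hLk k hk, Real.exp_log]
    have h1 := hK1 k hk
    have := g.prod_pos' k x
    positivity
  · intro k N hN hmin
    have h1k : (1 : ℝ) ≤ |((g.T^[k] x : ℤ) : ℝ)| := by
      have := hmin k le_rfl; linarith
    have h2 : Real.log (|((g.T^[k] x : ℤ) : ℝ)| / g.prod k x) = L k := by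
      rw [Real.log_div (by positivity) (g.prod_pos' k x).ne', g.log_prod]
    rw [Real.log_exp, h2]
    have h1 : Tendsto (fun l => |L (k + l) - L k|) atTop (nhds |ℓ - L k|) := by
      have h2 : Tendsto (fun l => L (k + l)) atTop (nhds ℓ) := by
        have := hℓ.comp (tendsto_add_atTop_nat k)
        refine this.congr fun l => ?_
        simp only [Function.comp]
        rw [add_comm]
      exact (h2.sub_const (L k)).abs
    exact le_of_tendsto h1 (Eventually.of_forall fun l => hdist k l N hN hmin)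

end GM


end Pool.Agent.H319R2.M
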