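import Mathlib
import Pool.Agent.H319R2.MLeigh2
import Pool.Agent.H319R2.MSparse

set_option autoImplicit false

/-!
Bridge between the definitions used in the hand-ins on Leigh's conjecture and the library.
-/

namespace Pool.Agent.H319R2.Leigh

open Finset Filter Pool.Agent.H319R2.M

/-- the generalised Collatz map `x ↦ (m_i x - r_i) / d` for `x ≡ i mod d` -/
def T (d : ℕ) (m r : ℤ → ℤ) (x : ℤ) : ℤ := (m (x % d) * x - r (x % d)) / d

/-- transition probability of Leigh's chain; the pair `(j, k)` stands for the class `B(j, d k)` -/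
noncomputable def P (d : ℕ) (m r : ℤ → ℤ) (e : ℤ → ℕ) (B B' : ℤ × ℕ) : ℝ :=
  if B'.2 = B.2 * e (B.1 % d) / Nat.gcd (B.2 * e (B.1 % d)) d ∧ 0 ≤ B'.1 ∧
      B'.1 < d * B'.2 ∧ T d m r B.1 ≡ B'.1 [ZMOD (B.2 * e (B.1 % d) : ℕ)] then
    (Nat.gcd (B.2 * e (B.1 % d)) d : ℝ) / d
  else 0

/-- admissible data: `m_i = b_i e_i` with `gcd(b_i, d) = 1`, `e_i ≥ 1` dividing a power of `d`, and
`r_i ≡ i m_i mod d` -/
structure Data (d : ℕ) (m r b : ℤ → ℤ) (e : ℤ → ℕ) : Prop where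
  two_le : 2 ≤ d
  fac : ∀ i : ℤ, 0 ≤ i → i < d → m i = b i * e i
  cop : ∀ i : ℤ, 0 ≤ i → i < d → IsCoprime (b i) (d : ℤ)
  pos : ∀ i : ℤ, 0 ≤ i → i < d → 1 ≤ e i
  dvd_pow : ∀ i : ℤ, 0 ≤ i → i < d → ∃ N : ℕ, e i ∣ d ^ N
  cong : ∀ i : ℤ, 0 ≤ i → i < d → r i ≡ i * m i [ZMOD d]

/-- a finite closed communicating class `C` of Leigh's chain with stationary distribution `ρ` -/
structure Class (d : ℕ) (m r : ℤ → ℤ) (e : ℤ → ℕ) (C : Finset (ℤ × ℕ)) (ρ : ℤ × ℕ → ℝ) : Prop where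
  state : ∀ B ∈ C, 0 ≤ B.1 ∧ B.1 < d * B.2 ∧ ∃ N : ℕ, B.2 ∣ d ^ N
  closed : ∀ B ∈ C, ∀ B', 0 < P d m r e B B' → B' ∈ C
  comm : ∀ B ∈ C, ∀ B' ∈ C, Relation.ReflTransGen (fun X Y => 0 < P d m r e X Y) B B'
  nonneg : ∀ B ∈ C, 0 ≤ ρ B
  sum_one : ∑ B ∈ C, ρ B = 1
  stat : ∀ B' ∈ C, ∑ B ∈ C, ρ B * P d m r e B B' = ρ B'

/-- the frequency `p_i` -/
noncomputable def freq (d : ℕ) (C : Finset (ℤ × ℕ)) (ρ : ℤ × ℕ → ℝ) (i : ℕ) : ℝ :=
  ∑ B ∈ C.filter (fun B => B.1 % (d : ℤ) = (i : ℤ)), ρ B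

/-- the number `Λ_C` -/
noncomputable def Lam (d : ℕ) (m : ℤ → ℤ) (C : Finset (ℤ × ℕ)) (ρ : ℤ × ℕ → ℝ) : ℝ :=
  ∏ i ∈ range d, (|(m i : ℝ)| / d) ^ freq d C ρ i

/-- the union `S_C` of the classes in `C` -/
def S (d : ℕ) (C : Finset (ℤ × ℕ)) : Set ℤ := {x | ∃ B ∈ C, x ≡ B.1 [ZMOD (d * B.2 : ℕ)]}

variable {d : ℕ} {m r b : ℤ → ℤ} {e : ℤ → ℕ} {C : Finset (ℤ × ℕ)} {ρ : ℤ × ℕ → ℝ}

/-- the map as an object of the library -/
def gm (D : Data d m r b e) : GM where
  d := d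
  m := m
  r := r
  two_le := D.two_le
  ne := by
    intro i h0 h1 hm
    have h2 := D.fac i h0 h1
    rw [hm] at h2
    rcases mul_eq_zero.1 h2.symm with h3 | h3
    · have h4 := D.cop i h0 h1
      rw [h3, isCoprime_zero_left, Int.isUnit_iff] at h4
      have := D.two_le
      omega
    · have := D.pos i h0 h1
      have h5 : e i = 0 := by exact_mod_cast h3
      omega
  dvd := by
    intro i h0 h1
    have := (D.cong i h0 h1).dvd
    rwa [mul_comm i] at this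

theorem gm_T (D : Data d m r b e) : (gm D).T = T d m r := rfl

theorem gm_fac (D : Data d m r b e) : (gm D).Fac b e :=
  ⟨D.fac, D.cop, D.pos⟩

theorem gm_cls (D : Data d m r b e) (hC : Class d m r e C ρ) : (gm D).Cls e C ρ where
  pos := by
    intro B hB
    obtain ⟨h1, h2, -⟩ := hC.state B hB
    by_contra hcon
    have : B.2 = 0 := by omega
    rw [this] at h2
    push_cast at h2
    omega
  closed := hC.closed
  irr := hC.comm
  sum_one := hC.sum_one
  stat := hC.stat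

theorem log_Lam (D : Data d m r b e) (hC : Class d m r e C ρ) :
    Real.log (Lam d m C ρ) = ∑ B ∈ C, ρ B * Real.log ((gm D).a (B.1 % (gm D).d)) := by
  have hd0 : (0 : ℝ) < d := by
    have : 0 < d := by have := D.two_le; omega
    exact_mod_cast this
  have hpos : ∀ i ∈ range d, 0 < |(m (i : ℤ) : ℝ)| / d := by
    intro i hi
    rw [mem_range] at hi
    have h := (gm D).ne i (by positivity) (by exact_mod_cast hi)
    have h2 : ((m (i : ℤ) : ℤ) : ℝ) ≠ 0 := by exact_mod_cast h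
    positivity
  unfold Lam
  rw [Real.log_prod (fun i hi => (Real.rpow_pos_of_pos (hpos i hi) _).ne')]
  have h1 : ∀ i ∈ range d, Real.log ((|(m (i : ℤ) : ℝ)| / d) ^ freq d C ρ i) =
      ∑ B ∈ C.filter (fun B => (B.1 % (d : ℤ)).toNat = i),
        ρ B * Real.log ((gm D).a (B.1 % (gm D).d)) := by
    intro i hi
    rw [Real.log_rpow (hpos i hi)]
    unfold freq
    rw [sum_mul]
    have hfe : C.filter (fun B => B.1 % (d : ℤ) = (i : ℤ)) =
        C.filter (fun B => (B.1 % (d : ℤ)).toNat = i) := by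
      apply filter_congr
      intro B _
      have h0 : 0 ≤ B.1 % (d : ℤ) := Int.emod_nonneg _ (by
        have := D.two_le; omega)
      constructor
      · intro h; omega
      · intro h; omega
    rw [hfe]
    apply sum_congr rfl
    intro B hB
    rw [mem_filter] at hB
    have h0 : 0 ≤ B.1 % (d : ℤ) := Int.emod_nonneg _ (by
      have := D.two_le; omega)
    have h2 : B.1 % (d : ℤ) = i := by omega
    have h3 : B.1 % ((gm D).d : ℤ) = i := h2
    rw [h3]
    rfl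
  rw [sum_congr rfl h1]
  apply sum_fiberwise_of_maps_to
  intro B _
  rw [mem_range]
  have h0 : 0 ≤ B.1 % (d : ℤ) := Int.emod_nonneg _ (by
    have := D.two_le; omega)
  have h1 : B.1 % (d : ℤ) < d := Int.emod_lt_of_pos _ (by have := D.two_le; omega)
  omega

/-- the class contracts on average -/
theorem small (D : Data d m r b e) (hC : Class d m r e C ρ) (hL : Lam d m C ρ < 1) :
    (∀ x ∈ S d C, (gm D).T x ∈ S d C) ∧
      ∃ η : ℝ, 0 < η ∧ η < 1 ∧ (gm D).Small (S d C) η := by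
  constructor
  · exact fun x hx => GM.SC_inv (gm_fac D) (gm_cls D hC) x hx
  · apply GM.small_SC (gm_fac D) (gm_cls D hC) (fun B hB => ⟨(hC.state B hB).1, (hC.state B hB).2.1⟩)
    rw [← log_Lam D hC]
    have hpos : 0 < Lam d m C ρ := by
      unfold Lam
      apply Finset.prod_pos
      intro i hi
      rw [mem_range] at hi
      have h := (gm D).ne i (by positivity) (by exact_mod_cast hi)
      have h2 : ((m (i : ℤ) : ℤ) : ℝ) ≠ 0 := by exact_mod_cast h
      have hd0 : (0 : ℝ) < d := by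
        have : 0 < d := by have := D.two_le; omega
        exact_mod_cast this
      positivity
    exact Real.log_neg hpos hL

/-- finite counting set -/
theorem ncard_le {A : Set ℤ} {X K : ℝ}
    (h : ∀ F : Finset ℤ, (∀ x ∈ F, x ∈ A ∧ |(x : ℝ)| ≤ X) → (F.card : ℝ) ≤ K) :
    (Set.ncard {x : ℤ | x ∈ A ∧ |(x : ℝ)| ≤ X} : ℝ) ≤ K := by
  classical
  set S : Set ℤ := {x : ℤ | x ∈ A ∧ |(x : ℝ)| ≤ X} with hS
  have hfin : S.Finite := by
    apply (Set.finite_Icc (-⌈X⌉) ⌈X⌉).subset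
    intro y hy
    have h := hy.2
    rw [abs_le] at h
    have h1 := Int.le_ceil X
    constructor
    · have : (-(⌈X⌉ : ℝ)) ≤ y := by linarith
      exact_mod_cast this
    · have : (y : ℝ) ≤ ⌈X⌉ := by linarith
      exact_mod_cast this
  rw [Set.ncard_eq_toFinset_card S hfin]
  apply h
  intro y hy
  rw [Set.Finite.mem_toFinset] at hy
  exact hy

end Pool.Agent.H319R2.Leigh
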