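import Mathlib
import Pool.Agent.H319R2.LlnStage

set_option autoImplicit false

/-!
The law of large numbers for the 3x+1 map, down to a power of the logarithm.
-/

namespace Pool.Agent.H319R2.Lln

open Finset Filter Pool.Agent.Helper894.Collatz Pool.Agent.H377R2

/-- descending through the levels -/
theorem chain_aux {η : ℝ} (h0 : 0 < η) (h1 : η ≤ 1 / 20) {k l n j0 : ℕ} (hn : 0 < n)
    (hk : n < 2 ^ k) (hl : 40 ≤ η ^ 2 * l) (hj0 : j0 ≤ k)
    (hexc : n ∉ Exc (mu * η / (4 * Real.log 3)) (η / 2) k l (10 * k)) (Q : ℕ → Prop)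
    (hQ : ∀ i m : ℕ, l < i → i ≤ k → m ≤ 10 * k → FP i m n → 2 ^ i ≤ 2 * T^[m] n →
      ∀ d ≤ i, Q (m + d)) :
    ∀ j m : ℕ, j ≤ j0 → FP j m n → 2 ^ j ≤ 2 * T^[m] n →
      |mu * m - (j0 - j) * Real.log 2| ≤ η * ((j0 - j) * Real.log 2) →
      (∀ m' ≤ m, |Real.log (T^[m'] n : ℕ) - j0 * Real.log 2 + mu * m'| ≤
        6 * η * (j0 * Real.log 2) ∧ Q m') →
      ∃ m0 : ℕ, T^[m0] n < 2 ^ l ∧
        ∀ m' ≤ m0, |Real.log (T^[m'] n : ℕ) - j0 * Real.log 2 + mu * m'| ≤
          6 * η * (j0 * Real.log 2) ∧ Q m' := by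
  classical
  have hL0 : 0 < Real.log 2 := Real.log_pos (by norm_num)
  have hμ1 := mu_lower
  intro j
  induction j using Nat.strong_induction_on with
  | _ j ih =>
    intro m hj hfp hy hm hprof
    rcases Nat.lt_or_ge l j with hlj | hlj
    swap
    · exact ⟨m, hfp.2.trans_le (Nat.pow_le_pow_right (by norm_num) hlj), hprof⟩
    set L := Real.log 2 with hL
    have hljr : (l : ℝ) ≤ j := by exact_mod_cast hlj.le
    have hjr : (j : ℝ) ≤ j0 := by exact_mod_cast hj
    have hkr : (j0 : ℝ) ≤ k := by exact_mod_cast hj0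
    have hi : 40 ≤ η ^ 2 * j := hl.trans (mul_le_mul_of_nonneg_left hljr (by positivity))
    have hM : m ≤ 10 * k := by
      have a1 := (abs_le.1 hm).2
      have a2 : mu * m ≤ 21 / 20 * (k * L) := by
        have b1 : (j0 - j : ℝ) * L ≤ k * L := mul_le_mul_of_nonneg_right (by linarith [show (0 : ℝ) ≤ j by positivity]) hL0.le
        have b2 : 0 ≤ (j0 - j : ℝ) * L := mul_nonneg (by linarith) hL0.le
        nlinarith
      have a3 : 7 / 34 * L * m ≤ 21 / 20 * (k * L) :=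
        (mul_le_mul_of_nonneg_right hμ1 (by positivity)).trans a2
      have a4 : (7 / 34 * m : ℝ) ≤ 21 / 20 * k := by
        have : (7 / 34 * m : ℝ) * L ≤ 21 / 20 * k * L := by linarith
        exact le_of_mul_le_mul_right this hL0
      have a5 : (m : ℝ) ≤ 10 * k := by
        have : (0 : ℝ) ≤ k := by positivity
        linarith
      exact_mod_cast a5
    have hb : T^[m] n ∉ Bad (mu * η / (4 * Real.log 3)) (η / 2) j := by
      intro hcon
      apply hexc
      unfold Exc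
      rw [mem_filter, mem_range]
      exact ⟨hk, hn, j, hlj, hj.trans hj0, m, hM, hfp, hcon⟩
    obtain ⟨r, d, hr0, hri, hd0, hdi, hfp', hy', htime, hprof'⟩ := stage h0 h1 hn hi hfp hy hb
    rw [← hL] at htime hprof'
    apply ih (j - r) (by omega) (m + d) (by omega) hfp' hy'
    · rw [Nat.cast_sub hri]
      push_cast
      have e : mu * ((m : ℝ) + d) - (j0 - (j - r)) * L = (mu * m - (j0 - j) * L) + (mu * d - r * L) := by
        ring
      rw [e]
      refine (abs_add_le _ _).trans ?_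
      have e2 : η * ((j0 - (j - r)) * L) = η * ((j0 - j) * L) + η * (r * L) := by ring
      rw [e2]
      exact add_le_add hm htime
    · intro m' hm'
      rcases le_or_gt m' m with h5 | h5
      · exact hprof m' h5
      · obtain ⟨d', rfl⟩ := Nat.exists_eq_add_of_le h5.le
        obtain ⟨c1, c2⟩ := hprof' d' (by omega)
        refine ⟨?_, hQ j m hlj (hj.trans hj0) hM hfp hy d' (by omega)⟩
        push_cast
        have e : Real.log (T^[m + d'] n : ℕ) - j0 * L + mu * ((m : ℝ) + d') =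
            (Real.log (T^[m + d'] n : ℕ) - j * L) + (mu * m - (j0 - j) * L) + mu * d' := by ring
        rw [e]
        refine (abs_add_le _ _).trans ?_
        have h6 := abs_add_le (Real.log (T^[m + d'] n : ℕ) - j * L) (mu * m - (j0 - j) * L)
        have h7 : |mu * (d' : ℝ)| = mu * d' := by
          apply abs_of_nonneg
          have : 0 < mu := by linarith
          positivity
        rw [h7]
        have h8 : (0 : ℝ) ≤ η * (j * L) := by positivity
        have h9 : (0 : ℝ) ≤ η * ((j0 - j) * L) :=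
          mul_nonneg h0.le (mul_nonneg (by linarith) hL0.le)
        have e2 : 6 * η * (j0 * L) = 6 * (η * ((j0 - j) * L)) + 6 * (η * (j * L)) := by ring
        rw [e2]
        linarith

/-- profile of a non-exceptional starting point -/
theorem chain {η : ℝ} (h0 : 0 < η) (h1 : η ≤ 1 / 20) {k l n : ℕ} (hn : 0 < n)
    (hk : n < 2 ^ k) (hl : 40 ≤ η ^ 2 * l)
    (hexc : n ∉ Exc (mu * η / (4 * Real.log 3)) (η / 2) k l (10 * k)) (Q : ℕ → Prop)
    (hQ0 : Q 0)
    (hQ : ∀ i m : ℕ, l < i → i ≤ k → m ≤ 10 * k → FP i m n → 2 ^ i ≤ 2 * T^[m] n →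
      ∀ d ≤ i, Q (m + d)) :
    ∃ m0 : ℕ, T^[m0] n < 2 ^ l ∧
      ∀ m ≤ m0, |Real.log (T^[m] n : ℕ) - Real.log n + mu * m| ≤ 8 * η * Real.log n ∧ Q m := by
  have hL0 : 0 < Real.log 2 := Real.log_pos (by norm_num)
  have hlogn : 0 ≤ Real.log (n : ℝ) := Real.log_natCast_nonneg n
  rcases Nat.lt_or_ge n (2 ^ l) with hnl | hnl
  · refine ⟨0, by simpa using hnl, ?_⟩
    intro m hm
    have : m = 0 := by omega
    subst this
    refine ⟨?_, hQ0⟩
    simp only [Function.iterate_zero, id]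
    rw [Nat.cast_zero, mul_zero, add_zero, sub_self, abs_zero]
    positivity
  obtain ⟨j0, hj0⟩ : ∃ j0, j0 = Nat.log 2 n + 1 := ⟨_, rfl⟩
  have hnj : n < 2 ^ j0 := by rw [hj0]; exact Nat.lt_pow_succ_log_self (by norm_num) n
  have hjn : 2 ^ (j0 - 1) ≤ n := by
    rw [hj0, Nat.add_sub_cancel]; exact Nat.pow_log_le_self 2 hn.ne'
  have hjk : j0 ≤ k := by
    have : 2 ^ (j0 - 1) < 2 ^ k := hjn.trans_lt hk
    have := (Nat.pow_lt_pow_iff_right (by norm_num : 1 < 2)).1 this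
    omega
  have hlj : l < j0 := by
    have : 2 ^ l < 2 ^ j0 := hnl.trans_lt hnj
    exact (Nat.pow_lt_pow_iff_right (by norm_num : 1 < 2)).1 this
  have hjn' : 2 ^ j0 ≤ 2 * n := by
    have : 2 ^ j0 = 2 * 2 ^ (j0 - 1) := by rw [← pow_succ']; congr 1; omega
    omega
  set L := Real.log 2 with hL
  have hj0r : (l : ℝ) ≤ j0 := by exact_mod_cast hlj.le
  have hi : 40 ≤ η ^ 2 * j0 := hl.trans (mul_le_mul_of_nonneg_left hj0r (by positivity))
  have hi1 : 800 ≤ η * j0 := by nlinarith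
  have hup : Real.log n ≤ j0 * L := by
    have h2 : (n : ℝ) ≤ 2 ^ j0 := by exact_mod_cast hnj.le
    have h3 := Real.log_le_log (by exact_mod_cast hn) h2
    rwa [Real.log_pow] at h3
  have hlo : j0 * L - L ≤ Real.log n := by
    have h2 : (2 : ℝ) ^ j0 ≤ 2 * n := by exact_mod_cast hjn'
    have hn' : (0 : ℝ) < n := by exact_mod_cast hn
    have h3 := Real.log_le_log (by positivity) h2
    rw [Real.log_pow, Real.log_mul (by norm_num) hn'.ne', ← hL] at h3
    linarith
  obtain ⟨m0, hm0, hprof⟩ := chain_aux h0 h1 hn hk hl hjk hexc Q hQ j0 0 le_rfl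
    ⟨fun j hj => by omega, by simpa using hnj⟩ (by simpa using hjn')
    (by simp) (by
      intro m' hm'
      have : m' = 0 := by omega
      subst this
      refine ⟨?_, hQ0⟩
      simp only [Function.iterate_zero, id]
      rw [Nat.cast_zero, mul_zero, add_zero, ← hL, abs_le]
      constructor <;> nlinarith)
  refine ⟨m0, hm0, fun m hm => ⟨?_, (hprof m hm).2⟩⟩
  have h2 := (hprof m hm).1
  rw [← hL] at h2
  have e : Real.log (T^[m] n : ℕ) - Real.log n + mu * m =
      (Real.log (T^[m] n : ℕ) - j0 * L + mu * m) + (j0 * L - Real.log n) := by ring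
  rw [e]
  refine (abs_add_le _ _).trans ?_
  have h3 : |(j0 : ℝ) * L - Real.log n| ≤ L := by
    rw [abs_le]; constructor <;> linarith
  have h4 : L ≤ η * (j0 * L) / 800 := by nlinarith
  have h5 : η * (j0 * L) * (799 / 800) ≤ η * Real.log n := by
    have h6 : (j0 : ℝ) * L * (799 / 800) ≤ Real.log n := by
      have : (1 : ℝ) ≤ j0 / 800 := by nlinarith
      nlinarith
    nlinarith
  nlinarith

/-- points from which the trajectory exceeds `V` within `i` steps -/
noncomputable def Big (V : ℝ) (i : ℕ) : Finset ℕ := by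
  classical
  exact (range (2 ^ i)).filter fun y => 2 ^ i ≤ 2 * y ∧ ∃ s ≤ i, V < (T^[s] y : ℕ)

theorem mem_Big {V : ℝ} {i y : ℕ} :
    y ∈ Big V i ↔ y < 2 ^ i ∧ 2 ^ i ≤ 2 * y ∧ ∃ s ≤ i, V < (T^[s] y : ℕ) := by
  classical
  unfold Big
  rw [mem_filter, mem_range]

theorem sum_iter_le (i s : ℕ) (hs : s ≤ i) :
    ∑ y ∈ range (2 ^ i), ((T^[s] y : ℕ) : ℝ) ≤ 4 ^ i := by
  obtain ⟨c, rfl⟩ := Nat.exists_eq_add_of_le hs
  have h1 : ∀ y ∈ range (2 ^ (s + c)), ((T^[s] y : ℕ) : ℝ) ≤ 3 ^ od s y * 2 ^ c := by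
    intro y hy
    rw [mem_range] at hy
    have h := lt_pow s y (2 ^ c) (by rwa [← pow_add])
    have : ((T^[s] y : ℕ) : ℝ) < 3 ^ od s y * 2 ^ c := by exact_mod_cast h
    exact this.le
  refine (sum_le_sum h1).trans ?_
  rw [← sum_mul]
  have h2 := sum_pow_od_block s (2 ^ c) 3
  rw [← pow_add] at h2
  rw [h2]
  push_cast
  have : (1 + 3 : ℝ) = 4 := by norm_num
  rw [this, pow_add (4 : ℝ)]
  have h3 : (4 : ℝ) ^ c = 2 ^ c * 2 ^ c := by rw [← mul_pow]; norm_num
  rw [h3]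
  apply le_of_eq; ring

theorem card_Big (V : ℝ) (hV : 0 < V) (i : ℕ) : ((Big V i).card : ℝ) ≤ (i + 1) * 4 ^ i / V := by
  classical
  have hsub : Big V i ⊆ (range (i + 1)).biUnion (fun s =>
      (range (2 ^ i)).filter fun y => V < (T^[s] y : ℕ)) := by
    intro y hy
    rw [mem_Big] at hy
    obtain ⟨h1, -, s, hs, h2⟩ := hy
    rw [mem_biUnion]
    exact ⟨s, by rw [mem_range]; omega, by rw [mem_filter, mem_range]; exact ⟨h1, h2⟩⟩
  have h1 := (card_le_card hsub).trans card_biUnion_le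
  have h2 : ((Big V i).card : ℝ) ≤ ∑ s ∈ range (i + 1),
      ((((range (2 ^ i)).filter fun y => V < (T^[s] y : ℕ)).card : ℕ) : ℝ) := by exact_mod_cast h1
  refine h2.trans ?_
  have h3 : ∀ s ∈ range (i + 1),
      ((((range (2 ^ i)).filter fun y => V < (T^[s] y : ℕ)).card : ℕ) : ℝ) ≤ 4 ^ i / V := by
    intro s hs
    rw [mem_range] at hs
    rw [le_div_iff₀ hV, ← nsmul_eq_mul]
    calc ((range (2 ^ i)).filter fun y => V < (T^[s] y : ℕ)).card • V
        ≤ ∑ y ∈ (range (2 ^ i)).filter (fun y => V < (T^[s] y : ℕ)), ((T^[s] y : ℕ) : ℝ) := by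
          apply card_nsmul_le_sum
          intro y hy
          rw [mem_filter] at hy
          exact hy.2.le
      _ ≤ ∑ y ∈ range (2 ^ i), ((T^[s] y : ℕ) : ℝ) :=
          sum_le_sum_of_subset_of_nonneg (filter_subset _ _) (fun _ _ _ => Nat.cast_nonneg _)
      _ ≤ 4 ^ i := sum_iter_le i s (by omega)
  refine (sum_le_sum h3).trans (le_of_eq ?_)
  rw [sum_const, card_range, nsmul_eq_mul]
  push_cast; ring

/-- starting points that meet a set `Big V i` at a first passage -/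
noncomputable def ExcV (V : ℝ) (k l M : ℕ) : Finset ℕ := by
  classical
  exact (range (2 ^ k)).filter fun n => 0 < n ∧ ∃ i, l < i ∧ i ≤ k ∧ ∃ m ≤ M, FP i m n ∧
    T^[m] n ∈ Big V i

theorem card_ExcV (V : ℝ) (hV : 0 < V) (k l M : ℕ) (hM : 2 * M ≤ 2 ^ l) :
    ((ExcV V k l M).card : ℝ) ≤ 8 * (k + 1) * (M + 2) ^ 2 * 4 ^ k / V := by
  classical
  have hsub : ExcV V k l M ⊆ (Ioc l k).biUnion (fun i => (range (2 ^ k)).filter
      (fun x => 0 < x ∧ ∃ m ≤ M, FP i m x ∧ T^[m] x ∈ Big V i)) := by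
    intro n hn
    unfold ExcV at hn
    rw [mem_filter, mem_range] at hn
    obtain ⟨h1, h2, i, h3, h4, h5⟩ := hn
    rw [mem_biUnion]
    exact ⟨i, mem_Ioc.2 ⟨h3, h4⟩, by rw [mem_filter, mem_range]; exact ⟨h1, h2, h5⟩⟩
  have h1 : ((ExcV V k l M).card : ℝ) ≤ ∑ i ∈ Ioc l k,
      (4 * (k + 1) * (M + 2) ^ 2 * 2 ^ k / V) * 2 ^ i := by
    have h2 := (card_le_card hsub).trans card_biUnion_le
    have h3 : ((ExcV V k l M).card : ℝ) ≤ ∑ i ∈ Ioc l k, ((((range (2 ^ k)).filter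
      (fun x => 0 < x ∧ ∃ m ≤ M, FP i m x ∧ T^[m] x ∈ Big V i)).card : ℕ) : ℝ) := by
      exact_mod_cast h2
    refine h3.trans (sum_le_sum fun i hi => ?_)
    rw [mem_Ioc] at hi
    have hM' : 2 * M ≤ 2 ^ i := hM.trans (Nat.pow_le_pow_right (by norm_num) hi.1.le)
    have a1 := card_passage k i M hi.2 hM' (Big V i) (fun y hy => (mem_Big.1 hy).2.1)
    have a2 := card_Big V hV i
    have a3 : ((((range (2 ^ k)).filter
      (fun x => 0 < x ∧ ∃ m ≤ M, FP i m x ∧ T^[m] x ∈ Big V i)).card : ℕ) : ℝ) ≤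
        (Big V i).card * ((M + 1) * ((M + 2) * 2 ^ (k - i + 2))) := by
      exact_mod_cast a1
    refine a3.trans ?_
    have a4 : (4 : ℝ) ^ i * 2 ^ (k - i + 2) = 4 * 2 ^ k * 2 ^ i := by
      have h5 : (4 : ℝ) ^ i = 2 ^ i * 2 ^ i := by rw [← mul_pow]; norm_num
      have h6 : (2 : ℝ) ^ i * 2 ^ (k - i + 2) = 4 * 2 ^ k := by
        rw [← pow_add]
        have : i + (k - i + 2) = k + 2 := by omega
        rw [this, pow_add]; ring
      rw [h5, mul_assoc, h6]; ring
    have a6 : (i : ℝ) + 1 ≤ k + 1 := by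
      have : (i : ℝ) ≤ k := by exact_mod_cast hi.2
      linarith
    calc ((Big V i).card : ℝ) * ((M + 1) * ((M + 2) * 2 ^ (k - i + 2)))
        ≤ ((k + 1) * 4 ^ i / V) * ((M + 2) * ((M + 2) * 2 ^ (k - i + 2))) := by
          apply mul_le_mul _ _ (by positivity) (by positivity)
          · refine a2.trans ?_
            apply div_le_div_of_nonneg_right _ hV.le
            exact mul_le_mul_of_nonneg_right a6 (by positivity)
          · apply mul_le_mul_of_nonneg_right _ (by positivity)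
            linarith
      _ = (k + 1) * (M + 2) ^ 2 / V * (4 ^ i * 2 ^ (k - i + 2)) := by ring
      _ = _ := by rw [a4]; ring
  refine h1.trans ?_
  rw [← mul_sum]
  have h5 : ∑ i ∈ Ioc l k, (2 : ℝ) ^ i ≤ 2 * 2 ^ k := by
    have h6 : ∑ i ∈ Ioc l k, (2 : ℝ) ^ i ≤ ∑ i ∈ range (k + 1), (2 : ℝ) ^ i := by
      apply sum_le_sum_of_subset_of_nonneg
      · intro i hi
        rw [mem_Ioc] at hi
        rw [mem_range]; omega
      · intro i _ _; positivity
    refine h6.trans ?_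
    rw [geom_sum_eq (by norm_num), pow_succ]
    linarith
  calc 4 * ((k : ℝ) + 1) * (M + 2) ^ 2 * 2 ^ k / V * ∑ i ∈ Ioc l k, (2 : ℝ) ^ i
      ≤ 4 * ((k : ℝ) + 1) * (M + 2) ^ 2 * 2 ^ k / V * (2 * 2 ^ k) :=
        mul_le_mul_of_nonneg_left h5 (by positivity)
    _ = _ := by
        have h7 : (4 : ℝ) ^ k = 2 ^ k * 2 ^ k := by rw [← mul_pow]; norm_num
        rw [h7]; ring


end Pool.Agent.H319R2.Lln
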