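import Mathlib
import Pool.Agent.H319R2.MPass
import Pool.Agent.H319R2.GTk

set_option autoImplicit false

/-!
Maps of coprime type contract on average on the whole set of integers.
-/

namespace Pool.Agent.H319R2.M

open Finset Filter Pool.Agent.H319R2.G

/-- a map of coprime type as a general map -/
def toGM (g : GC) : GM where
  d := g.d
  m := g.m
  r := g.r
  two_le := g.two_le
  ne := by
    intro i h0 h1 hm
    have h := g.cop i h0 h1
    rw [hm, isCoprime_zero_left, Int.isUnit_iff] at h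
    have := g.two_le
    omega
  dvd := g.dvd

theorem toGM_T (g : GC) : (toGM g).T = g.T := rfl

theorem toGM_prod (g : GC) (k : ℕ) (x : ℤ) : (toGM g).prod k x = g.prod k x := rfl

theorem small_univ (g : GC) (s η : ℝ) (hs : 0 ≤ s)
    (hφ : ∑ i ∈ range g.d, g.a i ^ s < (g.d : ℝ) ^ η) : (toGM g).Small Set.univ η := by
  have hd := g.dr
  refine ⟨3 * (2 * g.d) ^ s, by positivity, fun k => ⟨k, le_rfl, fun F hF => ?_⟩⟩
  have h1 := g.card_large k (1 / (2 * g.d)) s (by positivity) hs F (by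
    intro x hx
    obtain ⟨-, h2, h3⟩ := hF x hx
    exact ⟨h2, h3⟩)
  rw [one_div_one_div] at h1
  refine h1.trans ?_
  apply mul_le_mul_of_nonneg_left _ (by positivity)
  apply pow_le_pow_left₀ _ hφ.le
  apply sum_nonneg
  intro i hi
  apply Real.rpow_nonneg
  unfold GC.a; positivity

/-- **Descent for maps of coprime type.** -/
theorem descent_cop (g : GC) (s η : ℝ) (hs : 0 ≤ s) (hη0 : 0 < η) (hη1 : η < 1)
    (hφ : ∑ i ∈ range g.d, g.a i ^ s < (g.d : ℝ) ^ η) :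
    ∃ C : ℝ, 0 < C ∧ ∀ X Y : ℝ, 2 ≤ X → 1 ≤ Y → ∀ F : Finset ℤ,
      (∀ x ∈ F, |(x : ℝ)| ≤ X ∧ ∀ n, Y ≤ |((g.T^[n] x : ℤ) : ℝ)|) →
      (F.card : ℝ) ≤ C * X * Real.log X ^ (2 * g.d + 4) * Y ^ (η - 1) := by
  obtain ⟨C, hC0, hC⟩ := (toGM g).descent Set.univ (fun _ _ => Set.mem_univ _) η hη0 hη1
    (small_univ g s η hs hφ)
  refine ⟨C, hC0, fun X Y hX hY F hF => ?_⟩
  exact hC X Y hX hY F (fun x hx => ⟨Set.mem_univ _, (hF x hx).1, (hF x hx).2⟩)

end Pool.Agent.H319R2.M
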