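import Mathlib
import Pool.Agent.H319R2.Sparse
import Pool.Agent.H319R2.Cycle

set_option autoImplicit false

/-!
Rigidity of orbits: along any injective piece of orbit `T^[k] x` is `x * 3 ^ o / 2 ^ k` up to a
universally bounded factor.
-/

namespace Pool.Agent.H319R2

open Finset

theorem log_iter_sum {x : ℤ} (hx : x ≠ 0) (k : ℕ) :
    |Real.log |((T^[k] x : ℤ) : ℝ)| - Real.log |(x : ℝ)| + k * Real.log 2 - od k x * Real.log 3| ≤
      1 / 2 * ∑ j ∈ range k, 1 / |((T^[j] x : ℤ) : ℝ)| := by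
  induction k with
  | zero => simp [od]
  | succ k ih =>
    rw [sum_range_succ, Function.iterate_succ_apply', mul_add]
    have hzne := iter_ne_zero hx k
    set z := T^[k] x with hz
    have hz1 : (1 : ℝ) ≤ |(z : ℝ)| := by
      have : (1 : ℤ) ≤ |z| := Int.one_le_abs hzne
      exact_mod_cast this
    have hz0 : 0 < |(z : ℝ)| := by linarith
    rcases par z with h' | h'
    · rw [od_succ_even h']
      have h1 := T_even h'
      have h2 : (2 : ℝ) * ((T z : ℤ) : ℝ) = (z : ℝ) := by exact_mod_cast h1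
      have h3 : Real.log |(z : ℝ)| = Real.log 2 + Real.log |((T z : ℤ) : ℝ)| := by
        rw [← h2, abs_mul, Real.log_mul (by norm_num)]
        · norm_num
        · intro h0
          rw [← h2, abs_mul, h0, mul_zero] at hz0
          exact lt_irrefl _ hz0
      rw [h3] at ih
      push_cast
      have e : Real.log |((T z : ℤ) : ℝ)| - Real.log |(x : ℝ)| + ((k : ℝ) + 1) * Real.log 2 -
          od k x * Real.log 3 = Real.log 2 + Real.log |((T z : ℤ) : ℝ)| - Real.log |(x : ℝ)| +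
          k * Real.log 2 - od k x * Real.log 3 := by ring
      rw [e]
      have : 0 ≤ 1 / 2 * (1 / |(z : ℝ)|) := by positivity
      linarith
    · rw [od_succ_odd h']
      have h1 := T_odd h'
      have h2 : (2 : ℝ) * ((T z : ℤ) : ℝ) = 3 * (z : ℝ) + 1 := by exact_mod_cast h1
      have hTz : ((T z : ℤ) : ℝ) ≠ 0 := by exact_mod_cast T_ne_zero hzne
      have h3 : Real.log |((T z : ℤ) : ℝ)| = Real.log |3 * (z : ℝ) + 1| - Real.log 2 := by
        rw [← h2, abs_mul, Real.log_mul (by norm_num) (abs_ne_zero.2 hTz)]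
        norm_num
      have h4 := log_step (y := z) hz1 le_rfl
      rw [h3]
      push_cast
      have e : Real.log |3 * (z : ℝ) + 1| - Real.log 2 - Real.log |(x : ℝ)| + ((k : ℝ) + 1) * Real.log 2 -
          ((od k x : ℝ) + 1) * Real.log 3 = (Real.log |(z : ℝ)| - Real.log |(x : ℝ)| +
          k * Real.log 2 - od k x * Real.log 3) +
          (Real.log |3 * (z : ℝ) + 1| - Real.log |(z : ℝ)| - Real.log 3) := by ring
      rw [e]
      refine (abs_add_le _ _).trans ?_
      have : 1 / (2 * |(z : ℝ)|) = 1 / 2 * (1 / |(z : ℝ)|) := by ring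
      rw [this] at h4
      linarith

/-- reciprocal sum along an injective piece of orbit -/
theorem recip_orbit (η : ℝ) (hη : beta < η) (hη1 : η < 1) : ∃ C : ℝ, 0 < C ∧
    ∀ (x : ℤ) (k : ℕ), Set.InjOn (fun i => T^[i] x) (Set.Iio k) → ∀ N : ℝ, 1 ≤ N →
      (∀ j < k, N ≤ |((T^[j] x : ℤ) : ℝ)|) →
      ∑ j ∈ range k, 1 / |((T^[j] x : ℤ) : ℝ)| ≤ C * N ^ (η - 1) := by
  classical
  obtain ⟨C, hC0, hC⟩ := recip η hη hη1
  refine ⟨C, hC0, ?_⟩
  intro x k hinj N hN hmin
  have h := hC _ (tame_path x k hinj) N hN ((range k).image fun i => T^[i] x) (by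
    intro y hy
    rw [mem_image] at hy
    obtain ⟨i, hi, rfl⟩ := hy
    rw [mem_range] at hi
    exact ⟨⟨i, hi, rfl⟩, hmin i hi⟩)
  rw [sum_image] at h
  · exact h
  · intro i hi j hj hij
    exact hinj (by simpa using hi) (by simpa using hj) hij

/-- **Rigidity.** -/
theorem rigid (η : ℝ) (hη : beta < η) (hη1 : η < 1) : ∃ C : ℝ, 0 < C ∧
    ∀ (x : ℤ) (k : ℕ), x ≠ 0 → Set.InjOn (fun i => T^[i] x) (Set.Iio k) → ∀ N : ℝ, 1 ≤ N →
      (∀ j < k, N ≤ |((T^[j] x : ℤ) : ℝ)|) →
      |Real.log |((T^[k] x : ℤ) : ℝ)| - Real.log |(x : ℝ)| + k * Real.log 2 - od k x * Real.log 3| ≤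
        C * N ^ (η - 1) := by
  obtain ⟨C, hC0, hC⟩ := recip_orbit η hη hη1
  refine ⟨C, hC0, ?_⟩
  intro x k hx hinj N hN hmin
  have h1 := log_iter_sum hx k
  have h2 := hC x k hinj N hN hmin
  have h3 : 0 ≤ C * N ^ (η - 1) := by positivity
  linarith

/-- cycles: `p log 2 - o log 3` tends to zero with the least element -/
theorem cycle_rigid (η : ℝ) (hη : beta < η) (hη1 : η < 1) : ∃ C : ℝ, 0 < C ∧
    ∀ (x : ℤ) (p : ℕ), x ≠ 0 → p = Function.minimalPeriod T x → 0 < p → ∀ N : ℝ, 1 ≤ N →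
      (∀ j, N ≤ |((T^[j] x : ℤ) : ℝ)|) →
      |(p : ℝ) * Real.log 2 - od p x * Real.log 3| ≤ C * N ^ (η - 1) := by
  obtain ⟨C, hC0, hC⟩ := rigid η hη hη1
  refine ⟨C, hC0, ?_⟩
  intro x p hx hp hp0 N hN hmin
  have hinj : Set.InjOn (fun i => T^[i] x) (Set.Iio p) := by
    rw [hp]; exact Function.iterate_injOn_Iio_minimalPeriod
  have h := hC x p hx hinj N hN (fun j _ => hmin j)
  have hper : T^[p] x = x := by
    rw [hp]; exact Function.iterate_minimalPeriod
  rw [hper, sub_self, zero_add] at h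
  exact h

end Pool.Agent.H319R2
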